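import Pool.Agent.Lib_MP_a95293_pq.PDefs
import Pool.Agent.Lib_MP_a95293_rc.LocC

/-!
# Piece PQ-LOC: the local count
-/

set_option autoImplicit false

namespace Pool.MP_a95293_nt.PQ

open Finset

private theorem LocQ_roots {l : ℕ} [Fact l.Prime] {d : ℕ} (hd : 0 < d) (A : Finset (ZMod l)) (hA : ∀ y ∈ A, y ^ d = 1) :
    A.card ≤ d := by
  classical
  have h1 : A ⊆ (Polynomial.nthRoots d (1 : ZMod l)).toFinset := by
    intro y hy
    rw [Multiset.mem_toFinset, Polynomial.mem_nthRoots hd]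
    exact hA y hy
  exact (card_le_card h1).trans ((Multiset.toFinset_card_le _).trans (Polynomial.card_nthRoots d 1))

private theorem LocQ_fib {l : ℕ} [Fact l.Prime] {D M e g : ℕ} (hD : l - 1 = D * M) (he : e.gcd D ≤ g) (A : Finset (ZMod l))
    (h0 : ∀ y ∈ A, y ≠ 0) (h1 : ∀ y ∈ A, ∀ z ∈ A, y ^ e = z ^ e) : A.card ≤ M * g := by
  classical
  have hl : 0 < l - 1 := Nat.sub_pos_of_lt (Fact.out : l.Prime).one_lt
  have hM : 0 < M := Nat.pos_of_ne_zero (by rintro rfl; simp at hD; omega)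
  have hD0 : 0 < D := Nat.pos_of_ne_zero (by rintro rfl; simp at hD; omega)
  rcases A.eq_empty_or_nonempty with rfl | ⟨z, hz⟩
  · simp
  · have hz0 := h0 z hz
    have h2 : (A.image fun y => y * z⁻¹).card ≤ e.gcd (l - 1) := by
      apply LocQ_roots (Nat.gcd_pos_of_pos_right _ hl)
      intro u hu
      rw [mem_image] at hu
      obtain ⟨y, hy, rfl⟩ := hu
      have hy0 := h0 y hy
      have h3 : (y * z⁻¹) ^ e = 1 := by
        rw [mul_pow, inv_pow, h1 y hy z hz, mul_inv_cancel₀ (pow_ne_zero _ hz0)]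
      have h4 : (y * z⁻¹) ^ (l - 1) = 1 := ZMod.pow_card_sub_one_eq_one (mul_ne_zero hy0 (inv_ne_zero hz0))
      exact pow_gcd_eq_one.2 ⟨h3, h4⟩
    rw [card_image_of_injective _ (mul_left_injective₀ (inv_ne_zero hz0))] at h2
    refine h2.trans ?_
    rw [hD]
    calc e.gcd (D * M) ≤ e.gcd D * e.gcd M :=
          Nat.le_of_dvd (Nat.mul_pos (Nat.gcd_pos_of_pos_right _ hD0) (Nat.gcd_pos_of_pos_right _ hM)) (Nat.gcd_mul_right_dvd_mul_gcd e D M)
      _ ≤ g * M := Nat.mul_le_mul he (Nat.le_of_dvd hM (Nat.gcd_dvd_right _ _))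
      _ = M * g := mul_comm _ _

/-- PROOF: `h i ≠ 0` as `M ≠ 0` (`l - 1 ≠ 0`). The equation says `y^e = - (β t h t)⁻¹ ∑_{i ≠ t} β i h i =: v(h)`. At most `M^n` choices of `h` (`X^M - 1` has at most `M` roots in the
field `ZMod l`: `Polynomial.card_nthRoots` or `card_rootsOfUnity`; `Fintype.piFinset`), and for each value `v` at most `gcd(e, l - 1) ≤ M gcd(e, D) ≤ M g` non-zero `y` with `y^e = v`
(two such `y` differ by an element of `{u : (ZMod l)ˣ | u^e = 1}`, cyclic group of order `l - 1`: `IsCyclic.card_pow_eq_one_eq_gcd_card` or `IsCyclic.card_pow_eq_one_le` for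
`gcd`; `u^e = 1 ↔ u^gcd(e, l-1) = 1`; `gcd(e, D M) ∣ gcd(e, D) M`). So at most `M^n (M g)`. -/
theorem loc_card {n l : ℕ} [Fact l.Prime] {D M e g : ℕ} (hD : l - 1 = D * M) (he : e.gcd D ≤ g) {β : Fin n → ZMod l} {t : Fin n}
    (hβ : β t ≠ 0) (A : Finset (ZMod l)) (hA : ∀ y ∈ A, Loc M e β t y) : A.card ≤ M ^ (n + 1) * g := by
  classical
  have hl : 0 < l - 1 := Nat.sub_pos_of_lt (Fact.out : l.Prime).one_lt
  have hM : 0 < M := Nat.pos_of_ne_zero (by rintro rfl; simp at hD; omega)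
  set U : Finset (ZMod l) := univ.filter fun u => u ^ M = 1 with hU'
  have hU : U.card ≤ M := LocQ_roots hM U fun y hy => (mem_filter.1 hy).2
  have h1 : A ⊆ (Fintype.piFinset fun _ : Fin n => U).biUnion fun h =>
      A.filter fun y => ∑ i, β i * h i * (if i = t then y ^ e else 1) = 0 := by
    intro y hy
    obtain ⟨_, h, h2, h3⟩ := hA y hy
    rw [mem_biUnion]
    refine ⟨h, Fintype.mem_piFinset.2 fun i => ?_, mem_filter.2 ⟨hy, h3⟩⟩
    rw [hU', mem_filter]
    exact ⟨mem_univ _, h2 i⟩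
  have h2 : ∀ h ∈ Fintype.piFinset fun _ : Fin n => U,
      (A.filter fun y => ∑ i, β i * h i * (if i = t then y ^ e else 1) = 0).card ≤ M * g := by
    intro h hh
    refine LocQ_fib hD he _ (fun y hy => (hA y (mem_filter.1 hy).1).1) ?_
    intro y hy z hz
    have e1 := (mem_filter.1 hy).2
    have e2 := (mem_filter.1 hz).2
    have ht : h t ^ M = 1 := by
      have := Fintype.mem_piFinset.1 hh t
      rw [hU', mem_filter] at this
      exact this.2
    have ht0 : h t ≠ 0 := by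
      intro h0
      rw [h0, zero_pow hM.ne'] at ht
      exact zero_ne_one ht
    have e3 : ∀ y : ZMod l, ∑ i, β i * h i * (if i = t then y ^ e else 1) =
        β t * h t * y ^ e + ∑ i ∈ univ.erase t, β i * h i := by
      intro y
      rw [← add_sum_erase _ _ (mem_univ t), if_pos rfl]
      congr 1
      refine sum_congr rfl fun i hi => ?_
      rw [if_neg (ne_of_mem_erase hi), mul_one]
    rw [e3] at e1 e2
    have e4 : β t * h t * y ^ e = β t * h t * z ^ e := by
      rw [eq_neg_of_add_eq_zero_left e1, eq_neg_of_add_eq_zero_left e2]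
    exact mul_left_cancel₀ (mul_ne_zero hβ ht0) e4
  calc A.card ≤ _ := card_le_card h1
    _ ≤ ∑ h ∈ Fintype.piFinset fun _ : Fin n => U,
        (A.filter fun y => ∑ i, β i * h i * (if i = t then y ^ e else 1) = 0).card := card_biUnion_le
    _ ≤ ∑ _h ∈ Fintype.piFinset fun _ : Fin n => U, M * g := sum_le_sum h2
    _ = U.card ^ n * (M * g) := by
        rw [sum_const, smul_eq_mul, Fintype.card_piFinset, prod_const, card_univ, Fintype.card_fin]
    _ ≤ M ^ n * (M * g) := Nat.mul_le_mul_right _ (Nat.pow_le_pow_left hU n)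
    _ = M ^ (n + 1) * g := by ring

/-- PROOF: `crt_count` (`Lib_MP_a95293_rc/LocC.lean`) with `K l = {y < l | Loc … (y : ZMod l)}` (`ZMod.natCast_mod`), `|K l| ≤ m^(n+1) g` by `loc_card` with `M = (l - 1)/D ≤ m`
(`K l` injects into `ZMod l`), `β t ≠ 0` as the primes of `S` are not `l`. -/
theorem cls_card {n : ℕ} {L : Finset ℕ} (hL : ∀ l ∈ L, l.Prime) {D : ℕ} {S : Finset ℕ} (hS : ∀ q ∈ S, q.Prime) (hLS : Disjoint L S)
    {m g : ℕ} (hD : ∀ l ∈ L, D ∣ l - 1 ∧ (l - 1) / D ≤ m) (s : Fin n → Bool) (σ : ℕ → Fin n) (f : ℕ → ℕ) (t : Fin n) {e : ℕ}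
    (he : e.gcd D ≤ g) : (Cls L D S s σ f t e).card ≤ (m ^ (n + 1) * g) ^ L.card := by
  classical
  set K : ℕ → Finset ℕ := fun l => (range l).filter fun y =>
    Loc ((l - 1) / D) e (fun i => ((sg (s i) * (prt S σ f i : ℤ) : ℤ) : ZMod l)) t (y : ZMod l) with hK
  have h1 : Cls L D S s σ f t e ⊆ (range (∏ l ∈ L, l)).filter fun y => ∀ l ∈ L, y % l ∈ K l := by
    intro y hy
    rw [Cls, mem_filter] at hy
    rw [mem_filter]
    refine ⟨hy.1, fun l hl => ?_⟩
    rw [hK]
    simp only [mem_filter, mem_range]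
    refine ⟨Nat.mod_lt _ (hL l hl).pos, ?_⟩
    rw [ZMod.natCast_mod]
    exact hy.2 l hl
  have h2 : ∀ l ∈ L, (K l).card ≤ m ^ (n + 1) * g := by
    intro l hl
    have : Fact l.Prime := ⟨hL l hl⟩
    obtain ⟨hd1, hd2⟩ := hD l hl
    have hβ : ((sg (s t) * (prt S σ f t : ℤ) : ℤ) : ZMod l) ≠ 0 := by
      rw [Int.cast_mul]
      refine mul_ne_zero ?_ ?_
      · unfold sg
        split_ifs
        · simp
        · simp
      · rw [Int.cast_natCast, Ne, ZMod.natCast_eq_zero_iff]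
        intro h
        rw [prt, (hL l hl).prime.dvd_finsetProd_iff] at h
        obtain ⟨q, hq, h⟩ := h
        have hqS := (mem_filter.1 hq).1
        have hlq := (Nat.prime_dvd_prime_iff_eq (hL l hl) (hS q hqS)).1 ((hL l hl).dvd_of_dvd_pow h)
        exact (disjoint_left.1 hLS) hl (hlq ▸ hqS)
    have h3 : ((K l).image fun y : ℕ => (y : ZMod l)).card = (K l).card := by
      refine card_image_of_injOn fun y hy z hz h => ?_
      have hy' := mem_range.1 (mem_filter.1 (mem_coe.1 hy)).1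
      have hz' := mem_range.1 (mem_filter.1 (mem_coe.1 hz)).1
      have h4 := (ZMod.natCast_eq_natCast_iff y z l).1 h
      exact Nat.ModEq.eq_of_lt_of_lt h4 hy' hz'
    rw [← h3]
    refine (loc_card (D := D) (M := (l - 1) / D) (e := e) (g := g) (β := fun i => ((sg (s i) * (prt S σ f i : ℤ) : ℤ) : ZMod l)) (t := t)
      (Nat.mul_div_cancel' hd1).symm he hβ _ ?_).trans
      (Nat.mul_le_mul_right _ (Nat.pow_le_pow_left hd2 _))
    intro y hy
    rw [mem_image] at hy
    obtain ⟨z, hz, rfl⟩ := hy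
    exact (mem_filter.1 hz).2
  refine (card_le_card h1).trans ((RC.crt_count L hL K).trans ?_)
  exact prod_le_pow_card _ _ _ h2

private theorem LocQ_prt {n : ℕ} {S : Finset ℕ} {σ σ' : ℕ → Fin n} {f f' : ℕ → ℕ} (h : ∀ q ∈ S, σ q = σ' q ∧ f q = f' q)
    (i : Fin n) : prt S σ f i = prt S σ' f' i := by
  unfold prt
  have h1 : S.filter (fun q => σ q = i) = S.filter (fun q => σ' q = i) := by
    refine filter_congr fun q hq => ?_
    rw [(h q hq).1]
  rw [h1]
  refine prod_congr rfl fun q hq => ?_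
  rw [(h q (mem_filter.1 hq).1).2]

private theorem LocQ_cls {n : ℕ} {L : Finset ℕ} {D : ℕ} {S : Finset ℕ} {s : Fin n → Bool} {σ σ' : ℕ → Fin n} {f f' : ℕ → ℕ}
    (h : ∀ q ∈ S, σ q = σ' q ∧ f q = f' q) (t : Fin n) (e : ℕ) : Cls L D S s σ f t e = Cls L D S s σ' f' t e := by
  have h1 : prt S σ f = prt S σ' f' := funext fun i => LocQ_prt h i
  unfold Cls
  rw [h1]

/-- PROOF: as `bad_card` in `Lib_MP_a95293_rc/BadA.lean`: `Cls` depends only on the restrictions of `σ`, `f` to `S`; the number of data `(s, (σ, f) on S, (t, e))` is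
`2^n (n D)^(|S|) (n D)`; `cls_card`. -/
theorem bad_card {n : ℕ} {L : Finset ℕ} (hL : ∀ l ∈ L, l.Prime) {D : ℕ} {S : Finset ℕ} (hS : ∀ q ∈ S, q.Prime) (hLS : Disjoint L S)
    {m g : ℕ} (hD : ∀ l ∈ L, D ∣ l - 1 ∧ (l - 1) / D ≤ m) :
    (Bad n L D S g).card ≤ 2 ^ n * (n * D) ^ (S.card + 1) * (m ^ (n + 1) * g) ^ L.card := by
  classical
  set e1 : (S → Fin n × ℕ) → Fin n → ℕ → Fin n := fun x t q => if h : q ∈ S then (x ⟨q, h⟩).1 else t with he1
  set e2 : (S → Fin n × ℕ) → ℕ → ℕ := fun x q => if h : q ∈ S then (x ⟨q, h⟩).2 else 0 with he2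
  set Q : Finset ((Fin n → Bool) × (S → Fin n × ℕ) × (Fin n × ℕ)) :=
    ((univ : Finset (Fin n → Bool)) ×ˢ ((Fintype.piFinset fun _ : S => (univ : Finset (Fin n)) ×ˢ range D) ×ˢ
      ((univ : Finset (Fin n)) ×ˢ range D))).filter fun x => x.2.2.2.gcd D ≤ g with hQ
  have hsub : Bad n L D S g ⊆ Q.biUnion fun x => Cls L D S x.1 (e1 x.2.1 x.2.2.1) (e2 x.2.1) x.2.2.1 x.2.2.2 := by
    intro y hy
    unfold Bad at hy
    rw [mem_filter] at hy
    obtain ⟨_, s, σ, f, t, e, h1, h2, h3, h4⟩ := hy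
    rw [mem_biUnion]
    refine ⟨(s, (fun q => (σ q, f q)), (t, e)), ?_, ?_⟩
    · rw [hQ, mem_filter, mem_product, mem_product, mem_product, Fintype.mem_piFinset]
      refine ⟨⟨mem_univ _, fun q => ?_, mem_univ _, mem_range.2 h2⟩, h3⟩
      rw [mem_product]
      exact ⟨mem_univ _, mem_range.2 (h1 q q.2)⟩
    · have h6 := LocQ_cls (L := L) (D := D) (S := S) (s := s) (σ := σ) (f := f) (σ' := e1 (fun q => (σ q, f q)) t)
        (f' := e2 fun q => (σ q, f q)) (by
          intro q hq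
          simp only [he1, he2, dif_pos hq, and_self]) t e
      simp only
      rw [← h6]
      exact h4
  have hQc : Q.card ≤ 2 ^ n * (n * D) ^ (S.card + 1) := by
    refine (card_filter_le _ _).trans (le_of_eq ?_)
    rw [card_product, card_product, card_product, Fintype.card_piFinset]
    simp only [card_product, card_range, prod_const, card_univ, Fintype.card_coe, Fintype.card_fin, Fintype.card_pi, Fintype.card_bool]
    rw [pow_succ]
  calc (Bad n L D S g).card
      ≤ ∑ x ∈ Q, (Cls L D S x.1 (e1 x.2.1 x.2.2.1) (e2 x.2.1) x.2.2.1 x.2.2.2).card := (card_le_card hsub).trans card_biUnion_le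
    _ ≤ ∑ _x ∈ Q, (m ^ (n + 1) * g) ^ L.card := by
        refine Finset.sum_le_sum fun x hx => ?_
        rw [hQ, mem_filter] at hx
        exact cls_card hL hS hLS hD _ _ _ _ hx.2
    _ = Q.card * (m ^ (n + 1) * g) ^ L.card := by rw [sum_const, smul_eq_mul]
    _ ≤ 2 ^ n * (n * D) ^ (S.card + 1) * (m ^ (n + 1) * g) ^ L.card := Nat.mul_le_mul_right _ hQc

end Pool.MP_a95293_nt.PQ
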