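import Pool.Agent.Lib_MP_a95293_pq.PDefs

/-!
# Piece PQ-MEM: a tuple gives a bad class
-/

set_option autoImplicit false

namespace Pool.MP_a95293_nt.PQ

open Finset

private theorem MemQ_fac {n : ℕ} {S : Finset ℕ} {p : ℕ} {x : Fin n → ℤ} (hx : Val S p x) {σ : ℕ → Fin n}
    (hσ : ∀ q ∈ insert p S, (q : ℤ) ∣ x (σ q)) (huniq : ∀ q ∈ insert p S, ∀ i, (q : ℤ) ∣ x i → σ q = i) (i : Fin n) :
    (x i).natAbs = ∏ q ∈ (insert p S).filter (fun q => σ q = i), q ^ (∏ i, x i).natAbs.factorization q := by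
  classical
  obtain ⟨hx0, hxc, hxs, hxP⟩ := hx
  have hi0 : (x i).natAbs ≠ 0 := Int.natAbs_ne_zero.2 (hx0 i)
  have hprod0 : ∏ i, x i ≠ 0 := prod_ne_zero_iff.2 fun i _ => hx0 i
  have hnat : (∏ i, x i).natAbs = ∏ i, (x i).natAbs := map_prod Int.natAbsHom x univ
  have hpf : (insert p S).filter (fun q => σ q = i) = (x i).natAbs.primeFactors := by
    ext q
    rw [mem_filter, Nat.mem_primeFactors]
    constructor
    · rintro ⟨h1, h2⟩
      have hq : q.Prime := Nat.prime_of_mem_primeFactors (hxP ▸ h1)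
      refine ⟨hq, ?_, hi0⟩
      rw [← h2]
      exact Int.natCast_dvd.1 (hσ q h1)
    · rintro ⟨h1, h2, -⟩
      have h3 : (q : ℤ) ∣ x i := Int.natCast_dvd.2 h2
      have h4 : q ∈ insert p S := by
        rw [← hxP, Nat.mem_primeFactors]
        exact ⟨h1, Int.natCast_dvd.1 (h3.trans (dvd_prod_of_mem x (mem_univ i))), Int.natAbs_ne_zero.2 hprod0⟩
      exact ⟨h4, huniq q h4 i h3⟩
  rw [hpf]
  conv_lhs => rw [← Nat.prod_factorization_pow_eq_self hi0]
  rw [Finsupp.prod, Nat.support_factorization]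
  refine prod_congr rfl fun q hq => ?_
  congr 1
  rw [hnat, Nat.factorization_prod fun j _ => Int.natAbs_ne_zero.2 (hx0 j), Finsupp.finsetSum_apply]
  rw [Finset.sum_eq_single i]
  · intro j _ hji
    apply Nat.factorization_eq_zero_of_not_dvd
    intro h1
    have h2 : (q : ℤ) ∣ x i := Int.natCast_dvd.2 (Nat.dvd_of_mem_primeFactors hq)
    have h3 : (q : ℤ) ∣ x j := Int.natCast_dvd.2 h1
    have h4 := (hxc i j hji.symm).isUnit_of_dvd' h2 h3
    rw [Int.isUnit_iff] at h4
    have h5 := (Nat.prime_of_mem_primeFactors hq).one_lt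
    omega
  · intro h
    exact absurd (mem_univ i) h

/-- PROOF: as `bad_mem` in `Lib_MP_a95293_rc/BadB.lean`. `0 < n` since `∏ i, x i` has the prime factor `p`. For `q ∈ insert p S` let `σ q` be the unique `i` with `q ∣ x i` (pairwise coprime),
`v q = (∏ x).natAbs.factorization q = (x (σ q)).natAbs.factorization q`, `s i` the sign of `x i`, `t = σ p`, `f q = v q % D`, `e = v p % D` (`Nat.gcd_mod`-type lemma: `gcd (v p % D) D = gcd (v p) D`). So
`x i = sg (s i) ∏_{σ q = i} q^(v q)`. For `l ∈ L`: `l ∉ insert p S`, so all `q ≠ 0` in `ZMod l`, `q^(v q) = q^(f q) (q^(v q / D))^D`, and `(y^D)^((l-1)/D) = y^(l-1) = 1`. With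
`h i = ∏_{q ∈ insert p S, σ q = i} q^(D (v q / D))` we get `x i = sg (s i) prt S σ f i * h i * (if i = t then p^e else 1)` in `ZMod l`, and `∑ x i = 0`. `p % ∏ l` may be replaced by `p` as `l ∣ ∏ l`. -/
theorem bad_mem {n : ℕ} {L : Finset ℕ} (hL : ∀ l ∈ L, l.Prime) {D : ℕ} (hD0 : 0 < D) (hD : ∀ l ∈ L, D ∣ l - 1) {S : Finset ℕ} {p g : ℕ}
    (hp : p.Prime) (hpS : p ∉ S) (hpL : p ∉ L) (hLS : Disjoint L S) {x : Fin n → ℤ} (hx : Val S p x)
    (hg : ((∏ i, x i).natAbs.factorization p).gcd D ≤ g) : p % (∏ l ∈ L, l) ∈ Bad n L D S g := by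
  classical
  have hx' := hx
  obtain ⟨hx0, hxc, hxs, hxP⟩ := hx
  set v : ℕ → ℕ := fun q => (∏ i, x i).natAbs.factorization q with hv
  have hpr : ∀ q ∈ insert p S, q.Prime := fun q hq => Nat.prime_of_mem_primeFactors (hxP ▸ hq)
  have hex : ∀ q ∈ insert p S, ∃ i, (q : ℤ) ∣ x i := by
    intro q hq
    rw [← hxP, Nat.mem_primeFactors] at hq
    have h1 : (q : ℤ) ∣ ∏ i, x i := Int.natCast_dvd.2 hq.2.1
    rw [(Nat.prime_iff_prime_int.1 hq.1).dvd_finsetProd_iff] at h1
    obtain ⟨i, -, hi⟩ := h1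
    exact ⟨i, hi⟩
  obtain ⟨t₀, ht₀⟩ := hex p (mem_insert_self p S)
  have hch : ∀ q : ℕ, ∃ i : Fin n, q ∈ insert p S → (q : ℤ) ∣ x i := by
    intro q
    by_cases hq : q ∈ insert p S
    · obtain ⟨i, hi⟩ := hex q hq
      exact ⟨i, fun _ => hi⟩
    · exact ⟨t₀, fun h => absurd h hq⟩
  choose σ hσ using hch
  have huniq : ∀ q ∈ insert p S, ∀ i, (q : ℤ) ∣ x i → σ q = i := by
    intro q hq i hi
    by_contra hne
    have h2 := (hxc _ _ hne).isUnit_of_dvd' (hσ q hq) hi
    rw [Int.isUnit_iff] at h2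
    have := (hpr q hq).one_lt
    omega
  set s : Fin n → Bool := fun i => decide (0 < x i) with hs
  set M := ∏ l ∈ L, l with hM
  have hMpos : 0 < M := Finset.prod_pos fun l hl => (hL l hl).pos
  have hxi : ∀ i, x i = sg (s i) * ((∏ q ∈ (insert p S).filter (fun q => σ q = i), q ^ v q : ℕ) : ℤ) := by
    intro i
    rw [← MemQ_fac hx' hσ huniq i, hs]
    unfold sg
    by_cases h : 0 < x i
    · simp only [h, decide_true, if_true]
      omega
    · simp only [h, decide_false, Bool.false_eq_true, if_false]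
      omega
  unfold Bad
  rw [mem_filter]
  refine ⟨mem_range.2 (Nat.mod_lt _ hMpos), s, σ, fun q => v q % D, σ p, v p % D,
    fun q _ => Nat.mod_lt _ hD0, Nat.mod_lt _ hD0, ?_, ?_⟩
  · have h1 : (v p % D).gcd D = (v p).gcd D := by
      rw [← Nat.gcd_rec, Nat.gcd_comm]
    rw [h1]
    exact hg
  · unfold Cls
    rw [mem_filter]
    refine ⟨mem_range.2 (Nat.mod_lt _ hMpos), fun l hl => ?_⟩
    have hlp := hL l hl
    have := Fact.mk hlp
    have hlM : l ∣ M := dvd_prod_of_mem (fun l => l) hl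
    have hlS : ∀ q ∈ insert p S, (q : ZMod l) ≠ 0 := by
      intro q hq
      rw [Ne, ZMod.natCast_eq_zero_iff, Nat.prime_dvd_prime_iff_eq hlp (hpr q hq)]
      rintro rfl
      rcases mem_insert.1 hq with h | h
      · exact hpL (h ▸ hl)
      · exact (disjoint_left.1 hLS hl) h
    have hcast : ((p % M : ℕ) : ZMod l) = (p : ZMod l) := by
      rw [ZMod.natCast_eq_natCast_iff]
      exact (Nat.mod_modEq p M).of_dvd hlM
    rw [hcast]
    refine ⟨hlS p (mem_insert_self p S), fun i => ∏ q ∈ (insert p S).filter (fun q => σ q = i),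
      (q : ZMod l) ^ (D * (v q / D)), ?_, ?_⟩
    · intro i
      rw [← prod_pow]
      refine prod_eq_one fun q hq => ?_
      have hq0 := hlS q (mem_filter.1 hq).1
      rw [← pow_mul]
      have e1 : D * (v q / D) * ((l - 1) / D) = (l - 1) * (v q / D) := by
        calc D * (v q / D) * ((l - 1) / D) = (D * ((l - 1) / D)) * (v q / D) := by ring
          _ = (l - 1) * (v q / D) := by rw [Nat.mul_div_cancel' (hD l hl)]
      rw [e1, pow_mul, ZMod.pow_card_sub_one_eq_one hq0, one_pow]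
    · have hterm : ∀ i, ((sg (s i) * (prt S σ (fun q => v q % D) i : ℤ) : ℤ) : ZMod l) *
          (∏ q ∈ (insert p S).filter (fun q => σ q = i), (q : ZMod l) ^ (D * (v q / D))) *
          (if i = σ p then (p : ZMod l) ^ (v p % D) else 1) = ((x i : ℤ) : ZMod l) := by
        intro i
        rw [hxi i]
        unfold prt
        push_cast
        have e1 : ∏ q ∈ (insert p S).filter (fun q => σ q = i), (q : ZMod l) ^ v q =
            (∏ q ∈ (insert p S).filter (fun q => σ q = i), (q : ZMod l) ^ (D * (v q / D))) *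
              ∏ q ∈ (insert p S).filter (fun q => σ q = i), (q : ZMod l) ^ (v q % D) := by
          rw [← prod_mul_distrib]
          refine prod_congr rfl fun q _ => ?_
          rw [← pow_add, Nat.div_add_mod]
        have e2 : ∏ q ∈ (insert p S).filter (fun q => σ q = i), (q : ZMod l) ^ (v q % D) =
            (if i = σ p then (p : ZMod l) ^ (v p % D) else 1) *
              ∏ q ∈ S.filter (fun q => σ q = i), (q : ZMod l) ^ (v q % D) := by
          rw [filter_insert]
          by_cases h : σ p = i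
          · rw [if_pos h, if_pos h.symm, prod_insert (fun hh => hpS (mem_filter.1 hh).1)]
          · rw [if_neg h, if_neg (fun hh => h hh.symm), one_mul]
        rw [e1, e2]
        ring
      rw [sum_congr rfl fun i _ => hterm i, ← Int.cast_sum, hxs, Int.cast_zero]

end Pool.MP_a95293_nt.PQ
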