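import Pool.Agent.Lib_MP_a95293_pq.Rds
import Pool.Agent.Lib_MP_a95293_rc.OmB

/-!
# Piece PQ-ALL: all radicals of tuples
-/

set_option autoImplicit false

namespace Pool.MP_a95293_nt.PQ

open Finset Pool.MP_a95293_nt.RC

/-- numbers with many prime factors -/
theorem many_gen {X : ℕ} (hX : 3 ≤ X) {T : ℝ} (Rs : Finset ℕ)
    (h : ∀ R ∈ Rs, 1 ≤ R ∧ R ≤ X ∧ Squarefree R ∧ T < (R.primeFactors.card : ℝ) * Real.log (Real.log X)) :
    (Rs.card : ℝ) ≤ X * Real.exp ((Real.log X ^ (1 / 4 : ℝ) + 1) * Real.log (1 + Real.log X) - T / 4) := by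
  set y := Real.log X with hy
  have hXR : (3 : ℝ) ≤ X := by exact_mod_cast hX
  have hX0 : (0 : ℝ) < X := by linarith
  have hy1 : 1 < y := by
    rw [hy, Real.lt_log_iff_exp_lt hX0]
    have := Real.exp_one_lt_d9
    linarith
  have hy0 : 0 < y := by linarith
  set D := ⌈y ^ (1 / 4 : ℝ)⌉₊ with hD
  have hy14 : 0 < y ^ (1 / 4 : ℝ) := by positivity
  have hDl : y ^ (1 / 4 : ℝ) ≤ D := Nat.le_ceil _
  have hDu : (D : ℝ) ≤ y ^ (1 / 4 : ℝ) + 1 := (Nat.ceil_lt_add_one hy14.le).le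
  have hD0 : (0 : ℝ) < D := by linarith
  have hlD : Real.log y / 4 ≤ Real.log D := by
    calc Real.log y / 4 = Real.log (y ^ (1 / 4 : ℝ)) := by
          rw [Real.log_rpow hy0]
          ring
      _ ≤ Real.log D := Real.log_le_log hy14 hDl
  have hone : ∀ R ∈ Rs, Real.exp (T / 4) ≤ (D : ℝ) ^ R.primeFactors.card := by
    intro R hR
    obtain ⟨-, -, -, h4⟩ := h R hR
    rw [← Real.le_log_iff_exp_le (by positivity), Real.log_pow]
    have h5 : (R.primeFactors.card : ℝ) * (Real.log y / 4) ≤ (R.primeFactors.card : ℝ) * Real.log D :=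
      mul_le_mul_of_nonneg_left hlD (Nat.cast_nonneg _)
    linarith
  have hsum := sum_pow D X (by omega)
  have hsub : Rs ⊆ (Icc 1 X).filter Squarefree := by
    intro R hR
    obtain ⟨h1, h2, h3, -⟩ := h R hR
    exact mem_filter.2 ⟨mem_Icc.2 ⟨h1, h2⟩, h3⟩
  have h1 : (Rs.card : ℝ) * Real.exp (T / 4) ≤ X * (1 + y) ^ D := by
    calc (Rs.card : ℝ) * Real.exp (T / 4) = ∑ R ∈ Rs, Real.exp (T / 4) := by rw [sum_const, nsmul_eq_mul]
      _ ≤ ∑ R ∈ Rs, (D : ℝ) ^ R.primeFactors.card := sum_le_sum hone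
      _ ≤ ∑ R ∈ (Icc 1 X).filter Squarefree, (D : ℝ) ^ R.primeFactors.card :=
          sum_le_sum_of_subset_of_nonneg hsub fun _ _ _ => by positivity
      _ ≤ X * (1 + y) ^ D := hsum
  have h2 : (1 + y) ^ D ≤ Real.exp ((y ^ (1 / 4 : ℝ) + 1) * Real.log (1 + y)) := by
    rw [← Real.log_le_iff_le_exp (by positivity), Real.log_pow]
    exact mul_le_mul_of_nonneg_right hDu (Real.log_nonneg (by linarith))
  rw [Real.exp_sub, ← mul_div_assoc, le_div_iff₀ (Real.exp_pos _)]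
  exact h1.trans (mul_le_mul_of_nonneg_left h2 hX0.le)

/-- the choice of the parameters -/
theorem AllR_asy (n B E z₀ : ℕ) : ∃ c : ℝ, 0 < c ∧ c ≤ 1 / 2 ∧ ∀ᶠ y : ℝ in Filter.atTop,
    2 ≤ y ∧ z₀ ≤ ⌈y ^ (2 * B + 2)⌉₊ ∧ (2 * ⌈y ^ B⌉₊ + n + 2) ^ 2 ≤ ⌈y ^ (2 * B + 2)⌉₊ ∧
    4 * y + 1 ≤ (⌈y ^ (2 * B + 2)⌉₊ : ℝ) ∧
    (y ^ (1 / 4 : ℝ) + 1) * Real.log (1 + y) ≤ c / 8 * Real.sqrt (y * Real.log y) ∧
    Real.log 4 ≤ c / 16 * Real.sqrt (y * Real.log y) ∧ Real.log (1 + y) ≤ 1 / 8 * Real.sqrt (y * Real.log y) ∧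
    Real.sqrt (y * Real.log y) ≤ y ∧
    ∀ s : ℕ, (s : ℝ) * Real.log y ≤ c * Real.sqrt (y * Real.log y) →
      ((⌈y ^ (2 * B + 2)⌉₊ : ℕ) : ℝ) ^ (E * (s + 3)) ≤ Real.exp (1 / 8 * Real.sqrt (y * Real.log y)) := by
  set F : ℝ := (2 * B + 3) * E + 1 with hF
  have hF1 : 1 ≤ F := by
    rw [hF]
    have : (0 : ℝ) ≤ (2 * B + 3) * E := by positivity
    linarith
  have hF0 : 0 < F := by linarith
  set c : ℝ := 1 / (16 * F) with hc
  have hc0 : 0 < c := by positivity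
  have hc2 : c ≤ 1 / 2 := by
    rw [hc, div_le_div_iff₀ (by positivity) (by norm_num)]
    linarith
  refine ⟨c, hc0, hc2, ?_⟩
  have e1 : ∀ᶠ y : ℝ in Filter.atTop, Real.log y ≤ 1 / (64 * F) * y ^ (1 / 8 : ℝ) := by
    have h := (isLittleO_log_rpow_atTop (show (0 : ℝ) < 1 / 8 by norm_num)).bound
      (show (0 : ℝ) < 1 / (64 * F) by positivity)
    filter_upwards [h, Filter.eventually_ge_atTop (1 : ℝ)] with y h1 h2
    rwa [Real.norm_of_nonneg (Real.log_nonneg h2), Real.norm_of_nonneg (by positivity)] at h1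
  have e2 : ∀ᶠ y : ℝ in Filter.atTop, (64 * F : ℝ) ≤ y ^ (1 / 8 : ℝ) :=
    (tendsto_rpow_atTop (by norm_num)).eventually_ge_atTop _
  filter_upwards [e1, e2, Filter.eventually_ge_atTop ((z₀ : ℝ) + n + 6)] with y hy1 hyF hy2
  have hn0 : (0 : ℝ) ≤ n := Nat.cast_nonneg n
  have hz0 : (0 : ℝ) ≤ z₀ := Nat.cast_nonneg z₀
  have hy6 : 6 ≤ y := by linarith
  have hy0 : 0 < y := by linarith
  have hyB : (1 : ℝ) ≤ y ^ B := one_le_pow₀ (by linarith)
  have hlog1 : 1 ≤ Real.log y := by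
    rw [Real.le_log_iff_exp_le hy0]
    have := Real.exp_one_lt_d9
    linarith
  set z := ⌈y ^ (2 * B + 2)⌉₊ with hz
  have hz1 : y ^ (2 * B + 2) ≤ z := Nat.le_ceil _
  have hz2 : (z : ℝ) ≤ y ^ (2 * B + 3) := by
    have h1 := Nat.ceil_lt_add_one (show 0 ≤ y ^ (2 * B + 2) by positivity)
    have h2 : (1 : ℝ) ≤ y ^ (2 * B + 2) := one_le_pow₀ (by linarith)
    rw [← hz] at h1
    calc (z : ℝ) ≤ y ^ (2 * B + 2) + 1 := h1.le
      _ ≤ y ^ (2 * B + 2) * y := by nlinarith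
      _ = y ^ (2 * B + 3) := by rw [← pow_succ]
  have hy2' : y ^ 2 ≤ y ^ (2 * B + 2) := pow_le_pow_right₀ (by linarith) (by omega)
  -- powers
  set v := y ^ (1 / 8 : ℝ) with hv
  have hv64 : 64 ≤ v := by nlinarith
  have hv4 : y ^ (1 / 4 : ℝ) = v ^ 2 := by
    rw [hv, ← Real.rpow_natCast, ← Real.rpow_mul hy0.le]
    norm_num
  have hv8 : y = v ^ 8 := by
    rw [hv, ← Real.rpow_natCast, ← Real.rpow_mul hy0.le]
    norm_num
  set s := Real.sqrt (y * Real.log y) with hs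
  have hsl : v ^ 4 ≤ s := by
    apply Real.le_sqrt_of_sq_le
    calc (v ^ 4) ^ 2 = y := by rw [hv8]; ring
      _ ≤ y * Real.log y := by nlinarith
  have hs0 : 0 < s := lt_of_lt_of_le (by positivity) hsl
  have hlog1y : Real.log (1 + y) ≤ 2 * Real.log y := by
    have h1 : Real.log (1 + y) ≤ Real.log (y ^ 2) := Real.log_le_log (by linarith) (by nlinarith)
    rw [Real.log_pow] at h1
    exact_mod_cast h1
  have hv34 : v ^ 3 * 64 ≤ s := by
    refine le_trans ?_ hsl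
    have : 0 ≤ v ^ 3 := by positivity
    nlinarith
  have hkey : 64 * F * (v ^ 2 * Real.log y) ≤ v ^ 3 := by
    have h1 : 64 * F * Real.log y ≤ v := by
      calc 64 * F * Real.log y ≤ 64 * F * (1 / (64 * F) * v) := mul_le_mul_of_nonneg_left hy1 (by positivity)
        _ = v := by field_simp
    calc 64 * F * (v ^ 2 * Real.log y) = v ^ 2 * (64 * F * Real.log y) := by ring
      _ ≤ v ^ 2 * v := mul_le_mul_of_nonneg_left h1 (by positivity)
      _ = v ^ 3 := by ring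
  have hkey2 : F * (v ^ 2 * Real.log y) ≤ s / 4096 := by nlinarith
  refine ⟨by linarith, ?_, ?_, ?_, ?_, ?_, ?_, ?_, ?_⟩
  · have : (z₀ : ℝ) ≤ z := by nlinarith
    exact_mod_cast this
  · have h1 : ((2 * ⌈y ^ B⌉₊ + n + 2 : ℕ) : ℝ) ≤ y ^ (B + 1) := by
      have h2 := Nat.ceil_lt_add_one (show 0 ≤ y ^ B by positivity)
      push_cast
      rw [pow_succ]
      nlinarith
    have h2 : (((2 * ⌈y ^ B⌉₊ + n + 2) ^ 2 : ℕ) : ℝ) ≤ z := by
      push_cast
      push_cast at h1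
      calc (2 * (⌈y ^ B⌉₊ : ℝ) + n + 2) ^ 2 ≤ (y ^ (B + 1)) ^ 2 := pow_le_pow_left₀ (by positivity) h1 2
        _ = y ^ (2 * B + 2) := by rw [← pow_mul]; congr 1; ring
        _ ≤ z := hz1
    exact_mod_cast h2
  · nlinarith
  · rw [hv4]
    have h1 : (v ^ 2 + 1) * Real.log (1 + y) ≤ 4 * (v ^ 2 * Real.log y) := by
      have h2 : v ^ 2 + 1 ≤ 2 * v ^ 2 := by nlinarith
      calc (v ^ 2 + 1) * Real.log (1 + y) ≤ (2 * v ^ 2) * (2 * Real.log y) :=
            mul_le_mul h2 hlog1y (Real.log_nonneg (by linarith)) (by positivity)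
        _ = _ := by ring
    have h2 : c / 8 * s = s / (128 * F) := by
      rw [hc]
      field_simp
      norm_num
    rw [h2, le_div_iff₀ (by positivity)]
    nlinarith
  · have h1 : Real.log 4 ≤ 2 := by
      have h2 : Real.log 4 = 2 * Real.log 2 := by
        rw [show (4 : ℝ) = 2 ^ 2 by norm_num, Real.log_pow]
        norm_num
      have h3 := Real.log_two_lt_d9
      linarith
    have h2 : c / 16 * s = s / (256 * F) := by
      rw [hc]
      field_simp
      norm_num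
    rw [h2, le_div_iff₀ (by positivity)]
    have h3 : F ≤ F * (v ^ 2 * Real.log y) := by
      have h4 : 1 ≤ v ^ 2 * Real.log y := by nlinarith
      nlinarith
    nlinarith
  · have h3 : Real.log y ≤ F * (v ^ 2 * Real.log y) := by
      have h4 : 1 ≤ v ^ 2 := by nlinarith
      have h5 : Real.log y ≤ v ^ 2 * Real.log y := by nlinarith
      nlinarith
    nlinarith
  · rw [hs]
    apply Real.sqrt_le_iff.2
    refine ⟨hy0.le, ?_⟩
    have h1 : Real.log y ≤ y := (Real.log_le_sub_one_of_pos hy0).trans (by linarith)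
    nlinarith
  · intro r hr
    have h1 : Real.log z ≤ (2 * B + 3) * Real.log y := by
      have h2 := Real.log_le_log (by nlinarith) hz2
      rw [Real.log_pow] at h2
      push_cast at h2
      exact h2
    have hzpos : (0 : ℝ) < z := by nlinarith
    rw [← Real.log_le_iff_le_exp (by positivity), Real.log_pow]
    have h2 : ((E * (r + 3) : ℕ) : ℝ) * Real.log z ≤ ((E * (r + 3) : ℕ) : ℝ) * ((2 * B + 3) * Real.log y) :=
      mul_le_mul_of_nonneg_left h1 (Nat.cast_nonneg _)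
    refine h2.trans ?_
    push_cast
    have h3 : (E : ℝ) * (r + 3) * ((2 * B + 3) * Real.log y) ≤ F * ((r + 3) * Real.log y) := by
      have e2 : (0 : ℝ) ≤ (r + 3) * Real.log y := by positivity
      rw [hF]
      nlinarith
    refine h3.trans ?_
    have h4 : F * ((r + 3) * Real.log y) = F * (r * Real.log y) + 3 * (F * Real.log y) := by ring
    have h5 : F * (r * Real.log y) ≤ s / 16 := by
      calc F * (r * Real.log y) ≤ F * (c * s) := mul_le_mul_of_nonneg_left hr hF0.le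
        _ = s / 16 := by rw [hc]; field_simp
    have h6 : F * Real.log y ≤ F * (v ^ 2 * Real.log y) := by
      apply mul_le_mul_of_nonneg_left _ hF0.le
      have h4 : 1 ≤ v ^ 2 := by nlinarith
      nlinarith
    rw [h4]
    linarith

end Pool.MP_a95293_nt.PQ
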