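import Pool.Agent.Lib_MP_a95293_pq.AllR

/-!
# Piece PQ-ALLS: all radicals of tuples
-/

set_option autoImplicit false

namespace Pool.MP_a95293_nt.PQ

open Finset Pool.MP_a95293_nt.RC

/-- **Few integers are radicals of tuples.** -/
theorem allR (n B : ℕ) : ∃ c : ℝ, 0 < c ∧ ∃ X₀ : ℕ, ∀ X ≥ X₀, ∀ Rs : Finset ℕ,
    (∀ R ∈ Rs, R ≤ X ∧ ∃ x : Fin n → ℤ, Tup (Real.exp (Real.exp (Real.log X ^ B))) x ∧ radZ (∏ i, x i) = R) →
    (Rs.card : ℝ) ≤ X * Real.exp (-(c * Real.sqrt (Real.log X * Real.log (Real.log X)))) := by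
  classical
  obtain ⟨K, hK, hper⟩ := per n
  obtain ⟨j, hj1, hj2⟩ : ∃ j : ℕ, K ≤ j ∧ (K : ℝ) / j ≤ 1 / 2 := by
    refine ⟨2 * K, by omega, ?_⟩
    have : (0 : ℝ) < K := by exact_mod_cast hK
    push_cast
    rw [div_le_div_iff₀ (by positivity) (by norm_num)]
    linarith
  obtain ⟨z₀, hz₀⟩ := hper j hj1
  obtain ⟨c, hc, hc2, hev⟩ := AllR_asy n B (40 * j ^ 2) z₀
  have htend : Filter.Tendsto (fun X : ℕ => Real.log X) Filter.atTop Filter.atTop :=
    Real.tendsto_log_atTop.comp tendsto_natCast_atTop_atTop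
  obtain ⟨X₁, hX₁⟩ := Filter.eventually_atTop.1 (htend.eventually hev)
  refine ⟨c / 16, by positivity, max X₁ 3, fun X hX Rs hRs => ?_⟩
  obtain ⟨g0, g1, g2, g3, g4, g5, g6, g7, g8⟩ := hX₁ X ((le_max_left _ _).trans hX)
  have hX3 : 3 ≤ X := (le_max_right _ _).trans hX
  set y := Real.log X with hy
  set z := ⌈y ^ (2 * B + 2)⌉₊ with hz
  set s := Real.sqrt (y * Real.log y) with hs
  have hXR : (3 : ℝ) ≤ X := by exact_mod_cast hX3
  have hX0 : (0 : ℝ) < X := by linarith
  have hX1 : (1 : ℝ) ≤ X := by linarith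
  have hyX : Real.exp y = X := Real.exp_log hX0
  have hy0 : 0 < y := by linarith
  have hly : 0 < Real.log y := Real.log_pos (by linarith)
  have hs0 : 0 < s := Real.sqrt_pos.2 (by positivity)
  have hss : s * s = y * Real.log y := Real.mul_self_sqrt (by positivity)
  have hlog2 : (Nat.log 2 X : ℝ) ≤ 2 * y := by
    have h1 : ((2 : ℝ) ^ Nat.log 2 X) ≤ X := by exact_mod_cast Nat.pow_log_le_self 2 (by omega)
    have h2 := Real.log_le_log (by positivity) h1
    rw [Real.log_pow] at h2
    have h3 := Real.log_two_gt_d9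
    have h4 : (0 : ℝ) ≤ Nat.log 2 X := Nat.cast_nonneg _
    nlinarith
  -- radicals are squarefree
  have hRp : ∀ R ∈ Rs, 1 ≤ R ∧ Squarefree R := by
    intro R hR
    obtain ⟨-, x, -, rfl⟩ := hRs R hR
    exact ⟨rd_pos _, rd_squarefree _⟩
  -- three parts
  set R1 := Rs.filter fun R : ℕ => c * s < (R.primeFactors.card : ℝ) * Real.log y with hR1
  set R2 := Rs.filter fun R : ℕ => (R : ℝ) ≤ Real.exp (c * y) with hR2
  set R3 := Rs.filter fun R : ℕ => ¬ c * s < (R.primeFactors.card : ℝ) * Real.log y ∧ ¬ (R : ℝ) ≤ Real.exp (c * y) with hR3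
  have hcover : Rs ⊆ R1 ∪ (R2 ∪ R3) := by
    intro R hR
    by_cases h1 : c * s < (R.primeFactors.card : ℝ) * Real.log y
    · exact mem_union_left _ (mem_filter.2 ⟨hR, h1⟩)
    · by_cases h2 : (R : ℝ) ≤ Real.exp (c * y)
      · exact mem_union_right _ (mem_union_left _ (mem_filter.2 ⟨hR, h2⟩))
      · exact mem_union_right _ (mem_union_right _ (mem_filter.2 ⟨hR, h1, h2⟩))
  -- many primes
  have hb1 : (R1.card : ℝ) ≤ X * Real.exp (-(c / 8 * s)) := by
    have h1 := many_gen hX3 (T := c * s) R1 fun R hR => by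
      rw [hR1, mem_filter] at hR
      exact ⟨(hRp R hR.1).1, (hRs R hR.1).1, (hRp R hR.1).2, hR.2⟩
    refine h1.trans (mul_le_mul_of_nonneg_left (Real.exp_le_exp.2 ?_) hX0.le)
    linarith
  -- small radicals
  have hb2 : (R2.card : ℝ) ≤ X * Real.exp (-(c / 8 * s)) := by
    have h1 : R2 ⊆ Icc 1 ⌊Real.exp (c * y)⌋₊ := by
      intro R hR
      rw [hR2, mem_filter] at hR
      exact mem_Icc.2 ⟨(hRp R hR.1).1, Nat.le_floor hR.2⟩
    have h2 : (R2.card : ℝ) ≤ Real.exp (c * y) := by
      have h3 := card_le_card h1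
      rw [Nat.card_Icc, Nat.add_sub_cancel] at h3
      have h4 : ((⌊Real.exp (c * y)⌋₊ : ℕ) : ℝ) ≤ Real.exp (c * y) := Nat.floor_le (Real.exp_pos _).le
      exact le_trans (by exact_mod_cast h3) h4
    refine h2.trans ?_
    rw [← hyX, ← Real.exp_add]
    apply Real.exp_le_exp.2
    nlinarith
  -- the main part
  set P₀ : ℝ := Real.exp s with hP₀
  set good : ℕ → ℕ → Prop := fun m p => p.Prime ∧ p ≤ X / m ∧ p ∉ m.primeFactors ∧
    ∃ x : Fin n → ℤ, Val m.primeFactors p x ∧ (∏ i, x i).natAbs.factorization p ≤ 2 ^ (2 * ⌈y ^ B⌉₊ + n + 2) with hgood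
  set Ms := (Icc 1 X).filter fun m : ℕ => (m.primeFactors.card : ℝ) * Real.log y ≤ c * s ∧ P₀ ≤ (X : ℝ) / m with hMs
  have hcov3 : R3 ⊆ Ms.biUnion fun m => ((Icc 1 X).filter fun p => good m p).image fun p => m * p := by
    intro R hR
    rw [hR3, mem_filter] at hR
    obtain ⟨hR, h1, h2⟩ := hR
    obtain ⟨hRX, x, hx, hxR⟩ := hRs R hR
    have hRne : R ≠ 1 := by
      rintro rfl
      apply h2
      rw [Nat.cast_one]
      exact Real.one_le_exp (by positivity)
    obtain ⟨m, p, k1, k2, k3, k4, k5, k6, k7⟩ := split_tup hx (hxR ▸ hRne)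
    rw [hxR] at k1
    have hpX : p ≤ X := by
      rw [k1] at hRX
      exact (Nat.le_mul_of_pos_left p k3).trans hRX
    have hmX : m ≤ X := by
      rw [k1] at hRX
      exact (Nat.le_mul_of_pos_right m k2.pos).trans hRX
    have hpXm : p ≤ X / m := by
      rw [Nat.le_div_iff_mul_le k3, mul_comm, ← k1]
      exact hRX
    have hRpf : R.primeFactors = insert p m.primeFactors := by
      rw [← hxR, ← k7.2.2.2]
      exact rd_primeFactors _
    have hmc : (m.primeFactors.card : ℝ) ≤ R.primeFactors.card := by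
      rw [hRpf]
      exact_mod_cast card_le_card (subset_insert p m.primeFactors)
    have hω : (R.primeFactors.card : ℝ) * Real.log y ≤ c * s := not_lt.1 h1
    have hm0 : (0 : ℝ) < m := by exact_mod_cast k3
    -- the largest prime is large
    have hpP : P₀ ≤ p := by
      by_contra hcon
      push Not at hcon
      apply h2
      have h3 : R ≤ p ^ R.primeFactors.card := by
        calc R = ∏ q ∈ R.primeFactors, q := (Nat.prod_primeFactors_of_squarefree (hRp R hR).2).symm
          _ ≤ p ^ R.primeFactors.card := by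
              apply Finset.prod_le_pow_card
              intro q hq
              rw [hRpf, mem_insert] at hq
              rcases hq with h | h
              · exact h.le
              · exact k6 q h
      calc (R : ℝ) ≤ (p : ℝ) ^ R.primeFactors.card := by exact_mod_cast h3
        _ ≤ P₀ ^ R.primeFactors.card := pow_le_pow_left₀ (Nat.cast_nonneg p) hcon.le _
        _ = Real.exp (R.primeFactors.card * s) := by rw [hP₀, ← Real.exp_nat_mul]
        _ ≤ Real.exp (c * y) := by
            apply Real.exp_le_exp.2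
            refine le_of_mul_le_mul_right ?_ hly
            calc (R.primeFactors.card : ℝ) * s * Real.log y = (R.primeFactors.card : ℝ) * Real.log y * s := by ring
              _ ≤ c * s * s := mul_le_mul_of_nonneg_right hω hs0.le
              _ = c * (s * s) := by ring
              _ = c * y * Real.log y := by rw [hss]; ring
    rw [mem_biUnion]
    refine ⟨m, ?_, mem_image.2 ⟨p, mem_filter.2 ⟨mem_Icc.2 ⟨k2.one_lt.le, hpX⟩, k2, hpXm, k5, x, k7, ?_⟩, k1.symm⟩⟩
    · rw [hMs, mem_filter, mem_Icc]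
      refine ⟨⟨k3, hmX⟩, (mul_le_mul_of_nonneg_right hmc hly.le).trans hω, ?_⟩
      refine hpP.trans ?_
      rw [le_div_iff₀ hm0]
      rw [k1] at hRX
      have : p * m ≤ X := by rw [mul_comm]; exact hRX
      exact_mod_cast this
    · exact v_le hx.1 hx.2.2.2 k2 (le_refl _)
  have hone : ∀ m ∈ Ms, ((((Icc 1 X).filter fun p => good m p).card : ℕ) : ℝ) ≤
      Real.exp (1 / 8 * s) * (X * Real.exp (-(s / 2))) * (1 / (m : ℝ)) := by
    intro m hm
    rw [hMs, mem_filter, mem_Icc] at hm
    obtain ⟨⟨hm1, hmX⟩, hmc, hmP⟩ := hm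
    have hm0 : (0 : ℝ) < m := by exact_mod_cast hm1
    have hS : m.primeFactors.card ≤ Nat.log 2 X := by
      have h1 : 2 ^ m.primeFactors.card ≤ ∏ p ∈ m.primeFactors, p :=
        Finset.pow_card_le_prod _ _ _ fun p hp => (Nat.prime_of_mem_primeFactors hp).two_le
      have h2 := Nat.le_of_dvd hm1 (Nat.prod_primeFactors_dvd m)
      exact Nat.le_log_of_pow_le (by norm_num) ((h1.trans h2).trans hmX)
    have hY1 : 1 ≤ X / m := Nat.div_pos hmX hm1
    have h1 := hz₀ z g1 (2 * ⌈y ^ B⌉₊ + n + 2) g2 m.primeFactors (fun q hq => Nat.prime_of_mem_primeFactors hq) (X / m) hY1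
      (by
        have h2 : ((m.primeFactors.card + Nat.log 2 (X / m) + 1 : ℕ) : ℝ) ≤ z := by
          push_cast
          have h3 : (m.primeFactors.card : ℝ) ≤ Nat.log 2 X := by exact_mod_cast hS
          have h4 : (Nat.log 2 (X / m) : ℝ) ≤ Nat.log 2 X := by
            exact_mod_cast Nat.log_mono_right (Nat.div_le_self X m)
          linarith
        exact_mod_cast h2)
      ((Icc 1 X).filter fun p => good m p) (fun p hp => (mem_filter.1 hp).2)
    refine h1.trans ?_
    have h2 := g8 m.primeFactors.card hmc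
    have hYR : (1 : ℝ) ≤ ((X / m : ℕ) : ℝ) := by exact_mod_cast hY1
    have hYm : ((X / m : ℕ) : ℝ) ≤ (X : ℝ) / m := Nat.cast_div_le
    have hXm0 : (0 : ℝ) < (X : ℝ) / m := by positivity
    have h3 : (((X / m : ℕ) : ℝ)) ^ ((K : ℝ) / j) ≤ (X * Real.exp (-(s / 2))) * (1 / (m : ℝ)) := by
      calc (((X / m : ℕ) : ℝ)) ^ ((K : ℝ) / j) ≤ (((X / m : ℕ) : ℝ)) ^ (1 / 2 : ℝ) :=
            Real.rpow_le_rpow_of_exponent_le hYR hj2
        _ ≤ ((X : ℝ) / m) ^ (1 / 2 : ℝ) := Real.rpow_le_rpow (by linarith) hYm (by norm_num)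
        _ = ((X : ℝ) / m) * (((X : ℝ) / m) ^ (1 / 2 : ℝ))⁻¹ := by
            have e1 : ((X : ℝ) / m) ^ (1 / 2 : ℝ) * ((X : ℝ) / m) ^ (1 / 2 : ℝ) = (X : ℝ) / m := by
              rw [← Real.rpow_add hXm0]
              norm_num
            have e2 : ((X : ℝ) / m) ^ (1 / 2 : ℝ) ≠ 0 := by positivity
            exact (eq_mul_inv_iff_mul_eq₀ e2).2 e1
        _ ≤ ((X : ℝ) / m) * (Real.exp (s / 2))⁻¹ := by
            apply mul_le_mul_of_nonneg_left _ hXm0.le
            apply inv_anti₀ (Real.exp_pos _)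
            have e1 : Real.exp (s / 2) = P₀ ^ (1 / 2 : ℝ) := by
              rw [hP₀, ← Real.exp_mul]
              congr 1
              ring
            rw [e1]
            exact Real.rpow_le_rpow (Real.exp_pos _).le hmP (by norm_num)
        _ = (X * Real.exp (-(s / 2))) * (1 / (m : ℝ)) := by
            rw [Real.exp_neg]
            ring
    calc _ ≤ Real.exp (1 / 8 * s) * ((X * Real.exp (-(s / 2))) * (1 / (m : ℝ))) :=
          mul_le_mul h2 h3 (by positivity) (by positivity)
      _ = _ := by ring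
  have hb3 : (R3.card : ℝ) ≤ X * Real.exp (-(c / 8 * s)) := by
    calc (R3.card : ℝ) ≤ ∑ m ∈ Ms, ((((Icc 1 X).filter fun p => good m p).card : ℕ) : ℝ) := by
          exact_mod_cast (card_le_card hcov3).trans (card_biUnion_le.trans (sum_le_sum fun m _ => card_image_le))
      _ ≤ ∑ m ∈ Ms, Real.exp (1 / 8 * s) * (X * Real.exp (-(s / 2))) * (1 / (m : ℝ)) := sum_le_sum hone
      _ ≤ ∑ m ∈ Icc 1 X, Real.exp (1 / 8 * s) * (X * Real.exp (-(s / 2))) * (1 / (m : ℝ)) :=
          sum_le_sum_of_subset_of_nonneg (filter_subset _ _) fun _ _ _ => by positivity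
      _ = Real.exp (1 / 8 * s) * (X * Real.exp (-(s / 2))) * ∑ m ∈ Icc 1 X, (1 / (m : ℝ)) := by
          rw [← Finset.mul_sum]
      _ ≤ Real.exp (1 / 8 * s) * (X * Real.exp (-(s / 2))) * Real.exp (1 / 8 * s) := by
          apply mul_le_mul_of_nonneg_left _ (by positivity)
          refine (sum_inv_le X (by omega)).trans ?_
          rw [← hy, ← Real.log_le_iff_le_exp (by linarith)]
          exact g6
      _ = X * Real.exp (-(1 / 4 * s)) := by
          have e1 : Real.exp (1 / 8 * s) * (X * Real.exp (-(s / 2))) * Real.exp (1 / 8 * s) =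
              X * (Real.exp (1 / 8 * s) * Real.exp (-(s / 2)) * Real.exp (1 / 8 * s)) := by ring
          rw [e1, ← Real.exp_add, ← Real.exp_add]
          congr 2
          ring
      _ ≤ X * Real.exp (-(c / 8 * s)) := by
          apply mul_le_mul_of_nonneg_left _ hX0.le
          apply Real.exp_le_exp.2
          nlinarith
  have hcard : (Rs.card : ℝ) ≤ R1.card + (R2.card + R3.card) := by
    exact_mod_cast (card_le_card hcover).trans ((card_union_le _ _).trans
      (Nat.add_le_add_left (card_union_le _ _) _))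
  calc (Rs.card : ℝ) ≤ 4 * (X * Real.exp (-(c / 8 * s))) := by
        have : (0 : ℝ) ≤ X * Real.exp (-(c / 8 * s)) := by positivity
        linarith
    _ ≤ Real.exp (c / 16 * s) * (X * Real.exp (-(c / 8 * s))) := by
        apply mul_le_mul_of_nonneg_right _ (by positivity)
        rw [← Real.log_le_iff_le_exp (by norm_num)]
        exact g5
    _ = X * Real.exp (-(c / 16 * s)) := by
        have e1 : Real.exp (c / 16 * s) * (X * Real.exp (-(c / 8 * s))) =
            X * (Real.exp (c / 16 * s) * Real.exp (-(c / 8 * s))) := by ring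
        rw [e1, ← Real.exp_add]
        congr 2
        ring

end Pool.MP_a95293_nt.PQ
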