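import Pool.Agent.Lib_MP_a95293_pq.Rds
import Pool.Agent.Lib_MP_a95293_rc.OmB

/-!
# Piece PQ-BIG: radicals with a large prime factor
-/

set_option autoImplicit false

namespace Pool.MP_a95293_nt.PQ

open Finset Pool.MP_a95293_nt.RC

/-- PROOF: `y = log X`, `D = ⌈y^(1/4)⌉`. For the `R` counted, `ω(R) log D ≥ ω(R) (log y) / 4 > (c/4) y`, so `D^ω(R) ≥ exp (c y / 4)`, and
`∑_{R ≤ X} D^ω(R) ≤ X (1 + y)^D` (`sum_pow`), `(1 + y)^D = exp (D log (1 + y)) ≤ exp (c y / 8)` for large `X` (`D ≤ y^(1/4) + 1`). -/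
theorem many_omega {c : ℝ} (hc : 0 < c) : ∃ X₀ : ℕ, ∀ X ≥ X₀, ∀ Rs : Finset ℕ,
    (∀ R ∈ Rs, 1 ≤ R ∧ R ≤ X ∧ Squarefree R ∧ c * Real.log X < (R.primeFactors.card : ℝ) * Real.log (Real.log X)) →
    (Rs.card : ℝ) ≤ (X : ℝ) ^ (1 - c / 8) := by
  classical
  refine ⟨⌈Real.exp (max 1 ((128 / c) ^ 2))⌉₊, fun X hX Rs hRs => ?_⟩
  have hXe : Real.exp (max 1 ((128 / c) ^ 2)) ≤ X := Nat.ceil_le.1 hX
  have hX0 : (0 : ℝ) < X := lt_of_lt_of_le (Real.exp_pos _) hXe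
  have hX1 : 1 ≤ X := by exact_mod_cast hX0
  set y := Real.log X with hy
  have hyb : max 1 ((128 / c) ^ 2) ≤ y := (Real.le_log_iff_exp_le hX0).2 hXe
  have hy1 : 1 ≤ y := (le_max_left _ _).trans hyb
  have hy2 : (128 / c) ^ 2 ≤ y := (le_max_right _ _).trans hyb
  have hy0 : 0 < y := by linarith
  set q := y ^ (1 / 4 : ℝ) with hq
  have hq1 : 1 ≤ q := Real.one_le_rpow hy1 (by norm_num)
  have hqq : q * q = y ^ (1 / 2 : ℝ) := by
    rw [hq, ← Real.rpow_add hy0]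
    norm_num
  set D := ⌈q⌉₊ with hD
  have hDq : q ≤ D := Nat.le_ceil q
  have hDq2 : (D : ℝ) ≤ 2 * q := by
    have := Nat.ceil_lt_add_one (show 0 ≤ q by linarith)
    linarith
  have hD1 : (1 : ℝ) ≤ D := hq1.trans hDq
  -- the exponent
  have hlog : Real.log (1 + y) ≤ 8 * q := by
    have h1 : Real.log (1 + y) ≤ (1 + y) ^ (1 / 4 : ℝ) / (1 / 4) := Real.log_le_rpow_div (by linarith) (by norm_num)
    have h2 : (1 + y) ^ (1 / 4 : ℝ) ≤ (16 * y) ^ (1 / 4 : ℝ) := Real.rpow_le_rpow (by linarith) (by linarith) (by norm_num)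
    have h3 : (16 * y) ^ (1 / 4 : ℝ) = 2 * q := by
      rw [Real.mul_rpow (by norm_num) hy0.le, ← hq, show (16 : ℝ) = 2 ^ (4 : ℝ) by norm_num,
        ← Real.rpow_mul (by norm_num)]
      norm_num
    rw [h3] at h2
    calc Real.log (1 + y) ≤ (1 + y) ^ (1 / 4 : ℝ) / (1 / 4) := h1
      _ ≤ (2 * q) / (1 / 4) := div_le_div_of_nonneg_right h2 (by norm_num)
      _ = 8 * q := by ring
  have hsq : y ^ (1 / 2 : ℝ) ≤ c / 128 * y := by
    have h1 : 128 / c ≤ y ^ (1 / 2 : ℝ) := by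
      rw [← Real.sqrt_eq_rpow]
      exact Real.le_sqrt_of_sq_le hy2
    have h2 : y ^ (1 / 2 : ℝ) * y ^ (1 / 2 : ℝ) = y := by
      rw [← Real.rpow_add hy0]
      norm_num
    have h3 : 0 ≤ y ^ (1 / 2 : ℝ) := by positivity
    rw [div_le_iff₀ hc] at h1
    nlinarith [mul_le_mul_of_nonneg_left h1 h3]
  have hDlog : (D : ℝ) * Real.log (1 + y) ≤ c / 8 * y := by
    have h0 : 0 ≤ Real.log (1 + y) := Real.log_nonneg (by linarith)
    calc (D : ℝ) * Real.log (1 + y) ≤ (2 * q) * (8 * q) := mul_le_mul hDq2 hlog h0 (by linarith)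
      _ = 16 * y ^ (1 / 2 : ℝ) := by rw [← hqq]; ring
      _ ≤ 16 * (c / 128 * y) := by linarith
      _ = c / 8 * y := by ring
  -- the average
  have hsum := sum_pow D X hX1
  have hsub : Rs ⊆ (Icc 1 X).filter Squarefree := by
    intro R hR
    obtain ⟨h1, h2, h3, -⟩ := hRs R hR
    exact mem_filter.2 ⟨mem_Icc.2 ⟨h1, h2⟩, h3⟩
  have hlow : ∀ R ∈ Rs, Real.exp (c / 4 * y) ≤ (D : ℝ) ^ R.primeFactors.card := by
    intro R hR
    obtain ⟨-, -, -, h4⟩ := hRs R hR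
    have h5 : Real.log q = 1 / 4 * Real.log y := by rw [hq, Real.log_rpow hy0]
    have h6 : Real.log q ≤ Real.log D := Real.log_le_log (by linarith) hDq
    have h7 : c / 4 * y ≤ R.primeFactors.card * Real.log D := by
      have h8 : (R.primeFactors.card : ℝ) * (1 / 4 * Real.log y) ≤ R.primeFactors.card * Real.log D :=
        mul_le_mul_of_nonneg_left (h5 ▸ h6) (Nat.cast_nonneg _)
      nlinarith
    calc Real.exp (c / 4 * y) ≤ Real.exp (R.primeFactors.card * Real.log D) := Real.exp_le_exp.2 h7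
      _ = (D : ℝ) ^ R.primeFactors.card := by
        rw [Real.exp_nat_mul, Real.exp_log (by linarith)]
  have hmain : (Rs.card : ℝ) * Real.exp (c / 4 * y) ≤ X * Real.exp (c / 8 * y) := by
    calc (Rs.card : ℝ) * Real.exp (c / 4 * y) = ∑ R ∈ Rs, Real.exp (c / 4 * y) := by
          rw [sum_const, nsmul_eq_mul]
      _ ≤ ∑ R ∈ Rs, (D : ℝ) ^ R.primeFactors.card := sum_le_sum hlow
      _ ≤ ∑ R ∈ (Icc 1 X).filter Squarefree, (D : ℝ) ^ R.primeFactors.card :=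
          sum_le_sum_of_subset_of_nonneg hsub fun _ _ _ => by positivity
      _ ≤ X * (1 + y) ^ D := hsum
      _ = X * Real.exp (D * Real.log (1 + y)) := by
          rw [Real.exp_nat_mul, Real.exp_log (by linarith)]
      _ ≤ X * Real.exp (c / 8 * y) := mul_le_mul_of_nonneg_left (Real.exp_le_exp.2 hDlog) hX0.le
  have hfin : (X : ℝ) ^ (1 - c / 8) = X * Real.exp (c / 8 * y) / Real.exp (c / 4 * y) := by
    rw [Real.rpow_def_of_pos hX0, ← hy, mul_div_assoc, ← Real.exp_sub]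
    conv_rhs => rw [← Real.exp_log hX0, ← hy, ← Real.exp_add]
    congr 1
    ring
  rw [hfin, le_div_iff₀ (Real.exp_pos _)]
  exact hmain

/-- PROOF: `split_tup` (`R ≠ 1` as `R` has a prime factor): `R = m p`, `p ≥ X^u` the largest prime, so `m ≤ X / p ≤ X^(1 - u)`. `thR n B` with `κ = u/2` gives `c`.
The `R` with `ω(m) log log X ≤ c log X`: at most `⌊X^(1-u)⌋ X^(u/2) ≤ X^(1 - u/2)`. The others have `ω(R) log log X > c log X` and are squarefree: `many_omega`.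
`δ = min (u/2) (c/8) / 2`. -/
theorem bigR (n B : ℕ) {u : ℝ} (hu : 0 < u) : ∃ δ : ℝ, 0 < δ ∧ ∃ X₀ : ℕ, ∀ X ≥ X₀, ∀ Rs : Finset ℕ,
    (∀ R ∈ Rs, R ≤ X ∧ (∃ p : ℕ, p.Prime ∧ p ∣ R ∧ (X : ℝ) ^ u ≤ p) ∧
      ∃ x : Fin n → ℤ, Tup (Real.exp (Real.exp (Real.log X ^ B))) x ∧ radZ (∏ i, x i) = R) →
    (Rs.card : ℝ) ≤ (X : ℝ) ^ (1 - δ) := by
  classical
  obtain ⟨c, hc, X₁, hX₁⟩ := thR n B (show 0 < u / 2 by positivity)
  obtain ⟨X₂, hX₂⟩ := many_omega hc
  set δ := min (u / 2) (c / 8) / 2 with hδ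
  have hm0 : 0 < min (u / 2) (c / 8) := lt_min (by positivity) (by positivity)
  have hδ0 : 0 < δ := by positivity
  have e1 : ∀ᶠ x : ℝ in Filter.atTop, (2 : ℝ) ≤ x ^ δ :=
    (tendsto_rpow_atTop hδ0).eventually_ge_atTop _
  obtain ⟨X₃, hX₃⟩ := Filter.eventually_atTop.1 (tendsto_natCast_atTop_atTop.eventually
    (e1.and (Filter.eventually_ge_atTop (3 : ℝ))))
  refine ⟨δ, hδ0, max X₁ (max X₂ X₃), fun X hX Rs hRs => ?_⟩
  have g1 : X₁ ≤ X := (le_max_left _ _).trans hX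
  have g2 : X₂ ≤ X := ((le_max_left _ _).trans (le_max_right _ _)).trans hX
  obtain ⟨g3, g4⟩ := hX₃ X (((le_max_right _ _).trans (le_max_right _ _)).trans hX)
  have hX0 : (0 : ℝ) < X := by linarith
  have hX1 : (1 : ℝ) ≤ X := by linarith
  have hll : 0 ≤ Real.log (Real.log X) := by
    apply Real.log_nonneg
    rw [Real.le_log_iff_exp_le hX0]
    have := Real.exp_one_lt_d9
    linarith
  set V := ⌊(X : ℝ) ^ (1 - u)⌋₊ with hV
  set R1 := Rs.filter fun R => (R.primeFactors.card : ℝ) * Real.log (Real.log X) ≤ c * Real.log X with hR1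
  set R2 := Rs.filter fun R => ¬ (R.primeFactors.card : ℝ) * Real.log (Real.log X) ≤ c * Real.log X with hR2
  have hcard : Rs.card = R1.card + R2.card := by
    rw [hR1, hR2, card_filter_add_card_filter_not]
  have h1 : (R1.card : ℝ) ≤ V * (X : ℝ) ^ (u / 2) := by
    apply hX₁ X g1
    intro R hR
    rw [hR1, mem_filter] at hR
    obtain ⟨hRs', hom⟩ := hR
    obtain ⟨hRX, ⟨p₀, hp₀, hp₀R, hp₀X⟩, x, hx, hxR⟩ := hRs R hRs'
    have hR1' : radZ (∏ i, x i) ≠ 1 := by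
      rw [hxR]
      rintro rfl
      exact hp₀.one_lt.ne' (Nat.dvd_one.1 hp₀R)
    obtain ⟨m, p, e2, e3, e4, e5, e6, e7, e8⟩ := split_tup hx hR1'
    rw [hxR] at e2
    have hm0 : m ≠ 0 := by omega
    have hR0 : R ≠ 0 := by
      rw [e2]
      exact mul_ne_zero hm0 e3.ne_zero
    have hp₀p : p₀ ≤ p := by
      rw [e2] at hp₀R
      rcases hp₀.dvd_mul.1 hp₀R with h | h
      · exact e7 p₀ (Nat.mem_primeFactors.2 ⟨hp₀, h, hm0⟩)
      · exact ((Nat.prime_dvd_prime_iff_eq hp₀ e3).1 h).le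
    refine ⟨hRX, m, p, e2, e3, e4, ?_, e6, ?_, x, e8, hx.2.2.2⟩
    · rw [hV, Nat.le_floor_iff (by positivity), Real.rpow_sub hX0, Real.rpow_one,
        le_div_iff₀ (by positivity)]
      have h2 : (X : ℝ) ^ u ≤ p := hp₀X.trans (by exact_mod_cast hp₀p)
      have h3 : (m : ℝ) * p ≤ X := by
        rw [e2] at hRX
        exact_mod_cast hRX
      exact (mul_le_mul_of_nonneg_left h2 (Nat.cast_nonneg m)).trans h3
    · refine le_trans (mul_le_mul_of_nonneg_right ?_ hll) hom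
      have h2 : m ∣ R := by
        rw [e2]
        exact Dvd.intro _ rfl
      exact_mod_cast card_le_card (Nat.primeFactors_mono h2 hR0)
  have h2 : (R2.card : ℝ) ≤ (X : ℝ) ^ (1 - c / 8) := by
    apply hX₂ X g2
    intro R hR
    rw [hR2, mem_filter, not_le] at hR
    obtain ⟨hRs', hom⟩ := hR
    obtain ⟨hRX, -, x, hx, hxR⟩ := hRs R hRs'
    have h3 : rd (∏ i, x i).natAbs = R := hxR
    refine ⟨?_, hRX, ?_, hom⟩
    · rw [← h3]
      exact rd_pos _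
    · rw [← h3]
      exact rd_squarefree _
  have hVR : (V : ℝ) ≤ (X : ℝ) ^ (1 - u) := Nat.floor_le (by positivity)
  have h3 : (R1.card : ℝ) ≤ (X : ℝ) ^ (1 - 2 * δ) := by
    refine h1.trans ((mul_le_mul_of_nonneg_right hVR (by positivity)).trans ?_)
    rw [← Real.rpow_add hX0]
    apply Real.rpow_le_rpow_of_exponent_le hX1
    have : min (u / 2) (c / 8) ≤ u / 2 := min_le_left _ _
    rw [hδ]
    linarith
  have h4 : (R2.card : ℝ) ≤ (X : ℝ) ^ (1 - 2 * δ) := by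
    refine h2.trans (Real.rpow_le_rpow_of_exponent_le hX1 ?_)
    have : min (u / 2) (c / 8) ≤ c / 8 := min_le_right _ _
    rw [hδ]
    linarith
  calc (Rs.card : ℝ) = (R1.card : ℝ) + R2.card := by
        rw [hcard]
        push_cast
        rfl
    _ ≤ 2 * (X : ℝ) ^ (1 - 2 * δ) := by linarith
    _ ≤ (X : ℝ) ^ δ * (X : ℝ) ^ (1 - 2 * δ) := mul_le_mul_of_nonneg_right g3 (by positivity)
    _ = (X : ℝ) ^ (1 - δ) := by
        rw [← Real.rpow_add hX0]
        congr 1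
        ring

end Pool.MP_a95293_nt.PQ
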