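import Pool.Agent.Lib_MP_a95293_rc.SvP
import Pool.Agent.Lib_MP_a95293_rc.SvM

/-!
# Brun-Titchmarsh for prime powers

`#{l ≤ x : l prime, l = 1 mod n} ≤ C x / (n log x)` for prime powers `n ≤ √x`, from the upper bound sieve of dimension one
(`sieve_count_up 1`).
-/

set_option autoImplicit false

namespace Pool.MP_a95293_nt.PQ

open Finset Pool.Agent.OmAP Pool.MP_a95293_nt.RC

/-- the choice of `z` -/
private theorem Bt_z {K : ℕ} (hK : 2 ≤ K) {x : ℕ} (hx : 4 ^ K ≤ x) :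
    ∃ z : ℕ, 2 ≤ z ∧ z ^ K ≤ x ∧ (z : ℝ) ≤ (x : ℝ) ^ (1 / 2 : ℝ) ∧
      Real.log x / (2 * K) ≤ Real.log z := by
  have hK0 : (0 : ℝ) < K := by exact_mod_cast (by omega : 0 < K)
  have hx1 : 1 ≤ x := (Nat.one_le_pow _ _ (by norm_num)).trans hx
  have hx0 : (0 : ℝ) < x := by exact_mod_cast hx1
  have hx1' : (1 : ℝ) ≤ x := by exact_mod_cast hx1
  set y : ℝ := (x : ℝ) ^ (1 / (2 * K) : ℝ) with hy
  have hy2 : 2 ≤ y := by
    have h1 : ((4 : ℝ) ^ K) ≤ x := by exact_mod_cast hx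
    calc (2 : ℝ) = ((4 : ℝ) ^ K) ^ (1 / (2 * K) : ℝ) := by
          rw [show (4 : ℝ) = 2 ^ (2 : ℕ) by norm_num, ← pow_mul, ← Real.rpow_natCast 2,
            ← Real.rpow_mul (by norm_num)]
          push_cast
          rw [mul_one_div_cancel (by positivity), Real.rpow_one]
      _ ≤ y := Real.rpow_le_rpow (by positivity) h1 (by positivity)
  have hyy : (x : ℝ) ^ (1 / K : ℝ) = y * y := by
    rw [hy, ← Real.rpow_add hx0]
    congr 1
    field_simp
    norm_num
  set z := ⌊(x : ℝ) ^ (1 / K : ℝ)⌋₊ with hz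
  have hzle : (z : ℝ) ≤ (x : ℝ) ^ (1 / K : ℝ) := Nat.floor_le (by positivity)
  have hzge : y ≤ z := by
    have h1 := Nat.lt_floor_add_one ((x : ℝ) ^ (1 / K : ℝ))
    rw [← hz] at h1
    rw [hyy] at h1
    nlinarith
  refine ⟨z, ?_, ?_, ?_, ?_⟩
  · exact_mod_cast hy2.trans hzge
  · have h1 : (z : ℝ) ^ K ≤ x := by
      calc (z : ℝ) ^ K ≤ ((x : ℝ) ^ (1 / K : ℝ)) ^ K := pow_le_pow_left₀ (Nat.cast_nonneg _) hzle K
        _ = x := by
          rw [← Real.rpow_natCast, ← Real.rpow_mul hx0.le, one_div_mul_cancel hK0.ne', Real.rpow_one]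
    exact_mod_cast h1
  · refine hzle.trans (Real.rpow_le_rpow_of_exponent_le hx1' ?_)
    exact one_div_le_one_div_of_le (by norm_num) (by exact_mod_cast hK)
  · calc Real.log x / (2 * K) = Real.log y := by
          rw [hy, Real.log_rpow hx0]
          ring
      _ ≤ Real.log z := Real.log_le_log (by linarith) hzge

/-- the forbidden classes -/
private noncomputable def Bt_om (n q : ℕ) : Finset ℕ := (range q).filter fun t => q ∣ n * t + 1

private theorem Bt_mem {n q : ℕ} (hq : q.Prime) {t : ℕ} :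
    t ∈ Bt_om n q ↔ t < q ∧ (n : ZMod q) * t = -1 := by
  have := Fact.mk hq
  unfold Bt_om
  rw [mem_filter, mem_range, ← ZMod.natCast_eq_zero_iff]
  push_cast
  rw [add_eq_zero_iff_eq_neg]

private theorem Bt_card_eq {n q : ℕ} (hq : q.Prime) (hn : ¬ q ∣ n) : (Bt_om n q).card = 1 := by
  have := Fact.mk hq
  have hn' : (n : ZMod q) ≠ 0 := by rwa [Ne, ZMod.natCast_eq_zero_iff]
  rw [card_eq_one]
  refine ⟨(-(n : ZMod q)⁻¹).val, ?_⟩
  ext t
  rw [Bt_mem hq, mem_singleton]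
  constructor
  · rintro ⟨h1, h2⟩
    have h3 : (t : ZMod q) = -(n : ZMod q)⁻¹ := by
      rw [← mul_right_inj' hn', h2, mul_neg, mul_inv_cancel₀ hn']
    rw [← h3, ZMod.val_natCast, Nat.mod_eq_of_lt h1]
  · intro h1
    rw [h1]
    refine ⟨ZMod.val_lt _, ?_⟩
    rw [ZMod.natCast_val, ZMod.cast_id', id, mul_neg, mul_inv_cancel₀ hn']

private theorem Bt_card_dvd {n q : ℕ} (hq : q.Prime) (hn : q ∣ n) : (Bt_om n q).card = 0 := by
  rw [card_eq_zero]
  unfold Bt_om
  rw [filter_eq_empty_iff]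
  intro t _ h
  have h1 : q ∣ 1 := (Nat.dvd_add_right (hn.mul_right t)).1 h
  exact hq.one_lt.ne' (Nat.dvd_one.1 h1)

private theorem Bt_card_le (n : ℕ) {q : ℕ} (hq : q.Prime) : (Bt_om n q).card ≤ 1 := by
  by_cases h : q ∣ n
  · rw [Bt_card_dvd hq h]
    exact Nat.zero_le _
  · exact (Bt_card_eq hq h).le

private theorem Bt_prod (n z : ℕ) (hn : IsPrimePow n) (hz : 2 ≤ z) :
    ∏ q ∈ PP 1 z, (1 - ((Bt_om n q).card : ℝ) / q) ≤ 4 / Real.log z := by
  classical
  obtain ⟨p, j, hp, hj, rfl⟩ := (isPrimePow_nat_iff n).1 hn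
  have hPP : ∀ q ∈ PP 1 z, 2 < q ∧ q ≤ z ∧ q.Prime := by
    intro q hq
    unfold PP at hq
    rw [mem_filter, mem_Ioc] at hq
    exact ⟨by omega, hq.1.2, hq.2⟩
  set P := (Icc 1 z).filter Nat.Prime with hP
  have hlz : 0 < Real.log z := Real.log_pos (by exact_mod_cast (by omega : 1 < z))
  have hsub : PP 1 z ⊆ P := by
    intro q hq
    obtain ⟨h1, h2, h3⟩ := hPP q hq
    rw [hP, mem_filter, mem_Icc]
    exact ⟨⟨by omega, h2⟩, h3⟩
  -- a function on all the primes
  set g : ℕ → ℝ := fun q => if q = 2 then 1 else if q = p then 1 else 1 - 1 / (q : ℝ) with hg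
  have h1 : ∏ q ∈ PP 1 z, (1 - ((Bt_om (p ^ j) q).card : ℝ) / q) = ∏ q ∈ PP 1 z, g q := by
    refine prod_congr rfl fun q hq => ?_
    obtain ⟨h2, -, h3⟩ := hPP q hq
    have hne : q ≠ 2 := by omega
    simp only [hg, if_neg hne]
    by_cases hqp : q = p
    · rw [if_pos hqp, Bt_card_dvd h3 (by rw [hqp]; exact dvd_pow_self p hj.ne')]
      simp
    · rw [if_neg hqp, Bt_card_eq h3 (fun h => hqp ((Nat.prime_dvd_prime_iff_eq h3 hp).1 (h3.dvd_of_dvd_pow h)))]
      simp
  have h2 : ∏ q ∈ PP 1 z, g q = ∏ q ∈ P, g q := by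
    refine prod_subset hsub fun q hq hq' => ?_
    rw [hP, mem_filter, mem_Icc] at hq
    have : q = 2 := by
      by_contra hne
      apply hq'
      unfold PP
      rw [mem_filter, mem_Ioc]
      have := hq.2.two_le
      exact ⟨⟨by omega, hq.1.2⟩, hq.2⟩
    simp only [hg, if_pos this]
  have hb : ∀ q ∈ P, 0 < 1 - 1 / (q : ℝ) := by
    intro q hq
    have h3 : (1 : ℝ) < q := by exact_mod_cast (mem_filter.1 hq).2.one_lt
    rw [sub_pos, div_lt_one (by linarith)]
    exact h3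
  have h3 : ∀ q ∈ P, g q ≤ (1 - 1 / (q : ℝ)) * ((if q = 2 then 2 else 1) * (if q = p then 2 else 1)) := by
    intro q hq
    have hq2 : (2 : ℝ) ≤ q := by exact_mod_cast (mem_filter.1 hq).2.two_le
    have h4 : (1 : ℝ) / 2 ≤ 1 - 1 / (q : ℝ) := by
      have : 1 / (q : ℝ) ≤ 1 / 2 := one_div_le_one_div_of_le (by norm_num) hq2
      linarith
    simp only [hg]
    split_ifs <;> nlinarith
  have hg0 : ∀ q ∈ P, 0 ≤ g q := by
    intro q hq
    have h4 := hb q hq
    simp only [hg]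
    split_ifs
    · exact zero_le_one
    · exact zero_le_one
    · exact h4.le
  have h5 : ∏ q ∈ P, (if q = 2 then (2 : ℝ) else 1) ≤ 2 := by
    rw [Finset.prod_ite_eq' P 2 fun _ => (2 : ℝ)]
    split_ifs
    · exact le_refl 2
    · norm_num
  have h6 : ∏ q ∈ P, (if q = p then (2 : ℝ) else 1) ≤ 2 := by
    rw [Finset.prod_ite_eq' P p fun _ => (2 : ℝ)]
    split_ifs
    · exact le_refl 2
    · norm_num
  have h7 := mertens_up z hz
  have h8 : 0 ≤ ∏ q ∈ P, (1 - 1 / (q : ℝ)) := Finset.prod_nonneg fun q hq => (hb q hq).le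
  have h9 : 0 ≤ ∏ q ∈ P, (if q = p then (2 : ℝ) else 1) := Finset.prod_nonneg fun q _ => by
    split_ifs
    · norm_num
    · norm_num
  rw [h1, h2]
  calc ∏ q ∈ P, g q ≤ ∏ q ∈ P, (1 - 1 / (q : ℝ)) * ((if q = 2 then 2 else 1) * (if q = p then 2 else 1)) :=
        Finset.prod_le_prod hg0 h3
    _ = (∏ q ∈ P, (1 - 1 / (q : ℝ))) * ((∏ q ∈ P, (if q = 2 then (2 : ℝ) else 1)) *
          ∏ q ∈ P, (if q = p then (2 : ℝ) else 1)) := by
        rw [Finset.prod_mul_distrib, Finset.prod_mul_distrib]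
    _ ≤ (1 / Real.log z) * (2 * 2) := by
        refine mul_le_mul h7 (mul_le_mul h5 h6 h9 (by norm_num)) ?_ (by positivity)
        refine mul_nonneg (Finset.prod_nonneg fun q _ => ?_) h9
        split_ifs
        · norm_num
        · norm_num
    _ = 4 / Real.log z := by ring

theorem bt_pp : ∃ C : ℝ, 0 < C ∧ ∃ x₀ : ℕ, 2 ≤ x₀ ∧ ∀ x ≥ x₀, ∀ n : ℕ, IsPrimePow n → n ^ 2 ≤ x →
    (((Icc 1 x).filter fun l => l.Prime ∧ n ∣ l - 1).card : ℝ) ≤ C * x / (n * Real.log x) := by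
  classical
  obtain ⟨C0, hC0⟩ := sieve_count_up 1
  set K := max C0 2 with hK
  have hK2 : 2 ≤ K := le_max_right _ _
  have hK0 : (0 : ℝ) < K := by exact_mod_cast (by omega : 0 < K)
  refine ⟨4 * (2 + 32 * K), by positivity, (4 ^ K) ^ 2, ?_, ?_⟩
  · have h1 : 4 ≤ 4 ^ K := by
      calc 4 = 4 ^ 1 := by norm_num
        _ ≤ 4 ^ K := Nat.pow_le_pow_right (by norm_num) (by omega)
    nlinarith
  intro x hx n hn hnx
  have hn0 : 0 < n := hn.pos
  have hnR : (0 : ℝ) < n := by exact_mod_cast hn0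
  set T := x / n + 1 with hT
  have h4K : 1 ≤ 4 ^ K := Nat.one_le_pow _ _ (by norm_num)
  have hTT : x < T * T := by
    have h1 : n ≤ x / n := by
      rw [Nat.le_div_iff_mul_le hn0]
      nlinarith
    have h2 : x < n * (x / n + 1) := by
      rw [mul_comm]
      exact Nat.lt_mul_of_div_lt (Nat.lt_succ_self _) hn0
    rw [hT]
    nlinarith
  have hT4 : 4 ^ K ≤ T := by
    by_contra hcon
    push Not at hcon
    have : T * T ≤ (4 ^ K) ^ 2 := by
      rw [pow_two]
      exact Nat.mul_le_mul hcon.le hcon.le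
    omega
  obtain ⟨z, hz2, hzK, hzT, hzlog⟩ := Bt_z hK2 hT4
  have hTR : (0 : ℝ) < T := by
    have : 0 < T := by omega
    exact_mod_cast this
  have hT1 : (1 : ℝ) < T := by
    have h1 : 4 ^ 1 ≤ 4 ^ K := Nat.pow_le_pow_right (by norm_num) (by omega)
    have : 1 < T := by omega
    exact_mod_cast this
  have hlT : 0 < Real.log T := Real.log_pos hT1
  have hlz : 0 < Real.log z := Real.log_pos (by exact_mod_cast (by omega : 1 < z))
  have hTC : z ^ C0 ≤ T := (Nat.pow_le_pow_right (by omega) (le_max_left _ _)).trans hzK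
  have hPP : ∀ p ∈ PP 1 z, p ≤ z ∧ p.Prime := by
    intro p hp
    unfold PP at hp
    rw [mem_filter, mem_Ioc] at hp
    exact ⟨hp.1.2, hp.2⟩
  have hs := hC0 z T hz2 hTC (Bt_om n) (fun p hp => ⟨Bt_card_le n (hPP p hp).2, by
    unfold Bt_om
    exact filter_subset _ _⟩)
  -- the primes
  have hcard : ((Icc 1 x).filter fun l => l.Prime ∧ n ∣ l - 1).card ≤
      z + ((range T).filter fun t => ∀ p ∈ PP 1 z, t % p ∉ Bt_om n p).card := by
    have hsub : ((Icc 1 x).filter fun l => l.Prime ∧ n ∣ l - 1) ⊆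
        Icc 1 z ∪ ((range T).filter fun t => ∀ p ∈ PP 1 z, t % p ∉ Bt_om n p).image fun t => n * t + 1 := by
      intro l hl
      rw [mem_filter, mem_Icc] at hl
      obtain ⟨⟨hl1, hlx⟩, hlp, hnl⟩ := hl
      rw [mem_union]
      by_cases hlz' : l ≤ z
      · exact Or.inl (mem_Icc.2 ⟨hl1, hlz'⟩)
      · right
        obtain ⟨t, ht⟩ := hnl
        rw [mem_image]
        have hlt : l = n * t + 1 := by omega
        refine ⟨t, ?_, hlt.symm⟩
        rw [mem_filter, mem_range]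
        constructor
        · rw [hT]
          have : t ≤ x / n := by
            rw [Nat.le_div_iff_mul_le hn0, mul_comm]
            omega
          omega
        · intro p hp hmem
          obtain ⟨hpz, hpp⟩ := hPP p hp
          unfold Bt_om at hmem
          rw [mem_filter] at hmem
          have h1 : p ∣ n * t + 1 := by
            have h2 : n * (t % p) + 1 ≡ n * t + 1 [MOD p] :=
              Nat.ModEq.add_right 1 (Nat.ModEq.mul_left n (Nat.mod_modEq t p))
            exact (h2.dvd_iff (dvd_refl p)).1 hmem.2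
          rw [← hlt, Nat.prime_dvd_prime_iff_eq hpp hlp] at h1
          omega
    refine (card_le_card hsub).trans ((card_union_le _ _).trans ?_)
    rw [Nat.card_Icc, Nat.add_sub_cancel]
    exact Nat.add_le_add_left card_image_le _
  have hcardR : ((((Icc 1 x).filter fun l => l.Prime ∧ n ∣ l - 1).card : ℕ) : ℝ) ≤
      z + 4 * T * (4 / Real.log z) := by
    have h1 : ((((Icc 1 x).filter fun l => l.Prime ∧ n ∣ l - 1).card : ℕ) : ℝ) ≤
        z + (((range T).filter fun t => ∀ p ∈ PP 1 z, t % p ∉ Bt_om n p).card : ℝ) := by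
      exact_mod_cast hcard
    have h2 : 4 * (T : ℝ) * ∏ p ∈ PP 1 z, (1 - ((Bt_om n p).card : ℝ) / p) ≤ 4 * T * (4 / Real.log z) :=
      mul_le_mul_of_nonneg_left (Bt_prod n z hn hz2) (by positivity)
    linarith
  refine hcardR.trans ?_
  -- logs
  have hx0 : (0 : ℝ) < x := by
    have : 0 < x := lt_of_lt_of_le (by positivity) hx
    exact_mod_cast this
  have hx1 : (1 : ℝ) < x := by
    have h1 : 4 ^ 1 ≤ 4 ^ K := Nat.pow_le_pow_right (by norm_num) (by omega)
    have : 1 < x := by nlinarith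
    exact_mod_cast this
  have hlx : 0 < Real.log x := Real.log_pos hx1
  have hlTx : Real.log x ≤ 2 * Real.log T := by
    have h1 : (x : ℝ) ≤ T ^ 2 := by
      rw [pow_two]
      exact_mod_cast hTT.le
    calc Real.log x ≤ Real.log ((T : ℝ) ^ 2) := Real.log_le_log hx0 h1
      _ = 2 * Real.log T := by
        rw [Real.log_pow]
        norm_num
  have hTx : (T : ℝ) ≤ 2 * x / n := by
    rw [le_div_iff₀ hnR]
    have h1 : T * n ≤ 2 * x := by
      have h2 : x / n * n ≤ x := Nat.div_mul_le_self x n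
      have h3 : n ≤ x := by nlinarith
      rw [hT]
      nlinarith
    exact_mod_cast h1
  have hz3 : (z : ℝ) ≤ 2 * T / Real.log T := by
    refine hzT.trans ?_
    rw [le_div_iff₀ hlT]
    have h1 : Real.log T ≤ (T : ℝ) ^ (1 / 2 : ℝ) / (1 / 2) := Real.log_le_rpow_div hTR.le (by norm_num)
    have h2 : (T : ℝ) ^ (1 / 2 : ℝ) * (T : ℝ) ^ (1 / 2 : ℝ) = T := by
      rw [← Real.rpow_add hTR]
      norm_num
    have h3 : 0 ≤ (T : ℝ) ^ (1 / 2 : ℝ) := by positivity
    calc (T : ℝ) ^ (1 / 2 : ℝ) * Real.log T ≤ (T : ℝ) ^ (1 / 2 : ℝ) * ((T : ℝ) ^ (1 / 2 : ℝ) / (1 / 2)) :=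
          mul_le_mul_of_nonneg_left h1 h3
      _ = 2 * ((T : ℝ) ^ (1 / 2 : ℝ) * (T : ℝ) ^ (1 / 2 : ℝ)) := by ring
      _ = 2 * T := by rw [h2]
  have h4z : 4 * (T : ℝ) * (4 / Real.log z) ≤ 32 * K * T / Real.log T := by
    rw [div_le_iff₀ (by positivity)] at hzlog
    rw [← mul_div_assoc, div_le_div_iff₀ hlz hlT]
    nlinarith [mul_le_mul_of_nonneg_left hzlog hTR.le]
  calc (z : ℝ) + 4 * T * (4 / Real.log z) ≤ 2 * T / Real.log T + 32 * K * T / Real.log T :=
        add_le_add hz3 h4z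
    _ = (2 + 32 * K) * (T / Real.log T) := by ring
    _ ≤ (2 + 32 * K) * (4 * x / (n * Real.log x)) := by
        refine mul_le_mul_of_nonneg_left ?_ (by positivity)
        rw [div_le_div_iff₀ hlT (by positivity)]
        rw [le_div_iff₀ hnR] at hTx
        have h5 : 0 ≤ (T : ℝ) * n := by positivity
        calc (T : ℝ) * (n * Real.log x) = (T * n) * Real.log x := by ring
          _ ≤ (2 * x) * (2 * Real.log T) := mul_le_mul hTx hlTx hlx.le (by positivity)
          _ = 4 * x * Real.log T := by ring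
    _ = 4 * (2 + 32 * K) * x / (n * Real.log x) := by ring

end Pool.MP_a95293_nt.PQ
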