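import Pool.Agent.Lib_MP_a95293_pq.Rds
import Pool.Agent.Lib_MP_a95293_tp.Top

/-!
# Piece PQ-CNT3: the number of triples
-/

set_option autoImplicit false

namespace Pool.MP_a95293_nt.PQ

open Finset Pool.MP_a95293_nt.RC

/-- admissible triples are pairwise coprime -/
theorem adm_tup {x : Fin 3 → ℤ} (hx : Adm x) {H : ℝ} (hH : (TP.ht3 x : ℝ) ≤ H) : Tup H x := by
  obtain ⟨hgcd, hsum, hne⟩ := hx
  have h0 : ∀ i, x i ≠ 0 := by
    intro i
    have h1 := hne {i} (singleton_nonempty _) (by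
      intro h2
      have h3 := congrArg Finset.card h2
      rw [card_singleton, card_univ, Fintype.card_fin] at h3
      omega)
    rwa [sum_singleton] at h1
  have hg : ∀ d : ℤ, d ∣ x 0 → d ∣ x 1 → d ∣ x 2 → IsUnit d := by
    intro d e0 e1 e2
    apply isUnit_of_dvd_one
    rw [← hgcd]
    apply Finset.dvd_gcd
    intro i _
    fin_cases i
    · exact e0
    · exact e1
    · exact e2
  have hs := hsum
  rw [Fin.sum_univ_three] at hs
  refine ⟨h0, ?_, hsum, ?_⟩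
  · intro i j hij
    rw [Int.isCoprime_iff_gcd_eq_one]
    have h1 : ((Int.gcd (x i) (x j) : ℕ) : ℤ) ∣ x i := Int.gcd_dvd_left _ _
    have h2 : ((Int.gcd (x i) (x j) : ℕ) : ℤ) ∣ x j := Int.gcd_dvd_right _ _
    set d : ℤ := ((Int.gcd (x i) (x j) : ℕ) : ℤ) with hd
    have h3 : IsUnit d := by
      have e0 : x 0 = -(x 1 + x 2) := by linarith
      have e1 : x 1 = -(x 0 + x 2) := by linarith
      have e2 : x 2 = -(x 0 + x 1) := by linarith
      fin_cases i <;> fin_cases j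
      · exact absurd rfl hij
      · exact hg d h1 h2 (by rw [e2]; exact (dvd_add h1 h2).neg_right)
      · exact hg d h1 (by rw [e1]; exact (dvd_add h1 h2).neg_right) h2
      · exact hg d h2 h1 (by rw [e2]; exact (dvd_add h2 h1).neg_right)
      · exact absurd rfl hij
      · exact hg d (by rw [e0]; exact (dvd_add h1 h2).neg_right) h1 h2
      · exact hg d h2 (by rw [e1]; exact (dvd_add h2 h1).neg_right) h1
      · exact hg d (by rw [e0]; exact (dvd_add h2 h1).neg_right) h2 h1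
      · exact absurd rfl hij
    rw [Int.isUnit_iff] at h3
    omega
  · intro i
    refine le_trans ?_ hH
    have h1 : (x i).natAbs ≤ TP.ht3 x := Finset.le_sup (f := fun j => (x j).natAbs) (mem_univ i)
    rw [← Int.cast_abs, ← Nat.cast_natAbs]
    exact_mod_cast h1

/-- few triples with a given radical -/
theorem fiber3 : ∃ C₀ : ℕ, 1 ≤ C₀ ∧ ∀ (R : ℕ) (Z : Finset (Fin 3 → ℤ)),
    (∀ x ∈ Z, Adm x ∧ radZ (∏ i, x i) = R) → Z.card ≤ 36 * C₀ ^ (R.primeFactors.card + 1) := by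
  classical
  obtain ⟨C₀, hC₀, hev⟩ := evertse
  refine ⟨C₀, hC₀, fun R Z hZ => ?_⟩
  have h1 : ∀ x : Fin 3 → ℤ, ∃ z : ℕ × ℕ, x ∈ Z → (Prm z ∧ radZ (∏ i, x i) = rd (pr3 z) ∧
      ∀ j, (x j).natAbs = z.1 ∨ (x j).natAbs = z.2 ∨ (x j).natAbs = z.1 + z.2) := by
    intro x
    by_cases hx : x ∈ Z
    · obtain ⟨z, hz⟩ := adm_vals (hZ x hx).1
      exact ⟨z, fun _ => hz⟩
    · exact ⟨(0, 0), fun h => absurd h hx⟩
  choose ζ hζ using h1
  have h2 : (Z.image ζ).card ≤ C₀ ^ (R.primeFactors.card + 1) := by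
    apply hev
    intro z hz
    rw [mem_image] at hz
    obtain ⟨x, hx, rfl⟩ := hz
    obtain ⟨e1, e2, -⟩ := hζ x hx
    refine ⟨e1, ?_⟩
    rw [← (hZ x hx).2, e2, rd_primeFactors]
  have h3 : Z.card ≤ 36 * (Z.image ζ).card := by
    apply card_le_mul_card_image
    intro z _
    apply adm_fiber z
    intro x hx
    rw [mem_filter] at hx
    obtain ⟨hx, rfl⟩ := hx
    exact ⟨(hZ x hx).1.2.1, (hζ x hx).2.2⟩
  exact h3.trans (Nat.mul_le_mul_left _ h2)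

theorem Shape.mono {n : ℕ} {E E' : ℝ} {x : Fin n → ℤ} (h : Shape E x) (hE : E ≤ E') : Shape E' x := by
  obtain ⟨a, q, e, h1, h2, h3⟩ := h
  exact ⟨a, q, e, h1, h2, h3.trans hE⟩

/-- **Triples with terms `a q^e`.** -/
theorem shape3 (B : ℕ) {η : ℝ} (hη : 0 < η) : ∃ ε : ℝ, 0 < ε ∧ ε ≤ 1 ∧ ∃ X₀ : ℕ, ∀ X ≥ X₀, ∀ Z : Finset (Fin 3 → ℤ),
    (∀ x ∈ Z, Adm x ∧ radZ (∏ i, x i) ≤ X ∧ (TP.ht3 x : ℝ) ≤ Real.exp (Real.exp (Real.log X ^ B)) ∧
      Shape ((X : ℝ) ^ ε) x) →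
    (Z.card : ℝ) ≤ (X : ℝ) ^ (2 / 3 + η) := by
  classical
  obtain ⟨C₀, hC₀, hfib⟩ := fiber3
  obtain ⟨ε₁, hε₁, X₁, hX₁⟩ := shapeR 3 B (by norm_num) (show 0 < η / 2 by positivity)
  obtain ⟨ε₂, hε₂, X₂, hX₂⟩ := shape_omega 3 (show (0 : ℝ) < 1 by norm_num)
  set ε := min (min ε₁ ε₂) 1 with hε
  have hεa : ε ≤ ε₁ := (min_le_left _ _).trans (min_le_left _ _)
  have hεb : ε ≤ ε₂ := (min_le_left _ _).trans (min_le_right _ _)
  have hC0R : (1 : ℝ) ≤ C₀ := by exact_mod_cast hC₀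
  have e1 : ∀ᶠ x : ℝ in Filter.atTop, (36 * C₀ : ℝ) ≤ x ^ (η / 4) :=
    (tendsto_rpow_atTop (by positivity)).eventually_ge_atTop _
  have e2 : ∀ᶠ x : ℝ in Filter.atTop, Real.log C₀ * 4 / η + 1 ≤ Real.log (Real.log x) :=
    (Real.tendsto_log_atTop.comp Real.tendsto_log_atTop).eventually_ge_atTop _
  obtain ⟨X₃, hX₃⟩ := Filter.eventually_atTop.1 (tendsto_natCast_atTop_atTop.eventually
    ((e1.and e2).and (Filter.eventually_ge_atTop (3 : ℝ))))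
  refine ⟨ε, lt_min (lt_min hε₁ hε₂) one_pos, min_le_right _ _, max X₁ (max X₂ X₃), fun X hX Z hZ => ?_⟩
  have g1 : X₁ ≤ X := (le_max_left _ _).trans hX
  have g2 : X₂ ≤ X := ((le_max_left _ _).trans (le_max_right _ _)).trans hX
  obtain ⟨⟨g3, g4⟩, g5⟩ := hX₃ X (((le_max_right _ _).trans (le_max_right _ _)).trans hX)
  have hX0 : (0 : ℝ) < X := by linarith
  have hX1 : (1 : ℝ) ≤ X := by linarith
  have hlX : 0 < Real.log X := Real.log_pos (by linarith)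
  have hlC : 0 ≤ Real.log C₀ := Real.log_nonneg hC0R
  set ρ : (Fin 3 → ℤ) → ℕ := fun x => radZ (∏ i, x i) with hρ
  have hR : ((Z.image ρ).card : ℝ) ≤ (X : ℝ) ^ (1 - 1 / ((3 : ℕ) : ℝ) + η / 2) := by
    apply hX₁ X g1
    intro R hR
    rw [mem_image] at hR
    obtain ⟨x, hx, rfl⟩ := hR
    obtain ⟨h1, h2, h3, h4⟩ := hZ x hx
    exact ⟨h2, x, adm_tup h1 h3, rfl, h4.mono (Real.rpow_le_rpow_of_exponent_le hX1 hεa)⟩
  have hone : ∀ R ∈ Z.image ρ, ((Z.filter fun x => ρ x = R).card : ℝ) ≤ (X : ℝ) ^ (η / 2) := by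
    intro R hR
    rw [mem_image] at hR
    obtain ⟨x, hx, rfl⟩ := hR
    obtain ⟨h1, h2, h3, h4⟩ := hZ x hx
    have h5 := hfib (ρ x) (Z.filter fun y => ρ y = ρ x) fun y hy => by
      rw [mem_filter] at hy
      exact ⟨(hZ y hy.1).1, hy.2⟩
    have h6 := hX₂ X g2 ε hεb x (adm_tup h1 h3).1 h4
    have h7 : (ρ x).primeFactors = (∏ i, x i).natAbs.primeFactors :=
      Nat.primeFactors_prod fun q hq => Nat.prime_of_mem_primeFactors hq
    rw [h7] at h5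
    set w := (∏ i, x i).natAbs.primeFactors.card with hw
    have h8 : (C₀ : ℝ) ^ w ≤ (X : ℝ) ^ (η / 4) := by
      rw [← Real.log_le_log_iff (by positivity) (by positivity), Real.log_pow, Real.log_rpow hX0]
      have h9 : (w : ℝ) * (Real.log C₀ * 4 / η + 1) ≤ 1 * Real.log X :=
        (mul_le_mul_of_nonneg_left g4 (Nat.cast_nonneg _)).trans h6
      have h10 : (w : ℝ) * Real.log C₀ * 4 / η ≤ Real.log X := by
        have : (0 : ℝ) ≤ w := Nat.cast_nonneg _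
        calc (w : ℝ) * Real.log C₀ * 4 / η = w * (Real.log C₀ * 4 / η) := by ring
          _ ≤ w * (Real.log C₀ * 4 / η + 1) := by nlinarith
          _ ≤ Real.log X := by linarith
      rw [div_le_iff₀ hη] at h10
      nlinarith
    calc ((Z.filter fun y => ρ y = ρ x).card : ℝ) ≤ ((36 * C₀ ^ (w + 1) : ℕ) : ℝ) := by exact_mod_cast h5
      _ = (36 * C₀) * (C₀ : ℝ) ^ w := by push_cast; ring
      _ ≤ (X : ℝ) ^ (η / 4) * (X : ℝ) ^ (η / 4) := mul_le_mul g3 h8 (by positivity) (by positivity)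
      _ = (X : ℝ) ^ (η / 2) := by
          rw [← Real.rpow_add hX0]
          congr 1
          ring
  have hsum : (Z.card : ℝ) = ∑ R ∈ Z.image ρ, ((Z.filter fun x => ρ x = R).card : ℝ) := by
    exact_mod_cast card_eq_sum_card_image ρ Z
  rw [hsum]
  calc ∑ R ∈ Z.image ρ, ((Z.filter fun x => ρ x = R).card : ℝ) ≤ ∑ R ∈ Z.image ρ, (X : ℝ) ^ (η / 2) := sum_le_sum hone
    _ = (Z.image ρ).card * (X : ℝ) ^ (η / 2) := by rw [sum_const, nsmul_eq_mul]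
    _ ≤ (X : ℝ) ^ (1 - 1 / ((3 : ℕ) : ℝ) + η / 2) * (X : ℝ) ^ (η / 2) := mul_le_mul_of_nonneg_right hR (by positivity)
    _ = (X : ℝ) ^ (2 / 3 + η) := by
        rw [← Real.rpow_add hX0]
        congr 1
        push_cast
        ring

/-- **Power saving.** -/
theorem total3 (B : ℕ) : ∃ δ : ℝ, 0 < δ ∧ ∃ X₀ : ℕ, ∀ X ≥ X₀, ∀ Z : Finset (Fin 3 → ℤ),
    (∀ x ∈ Z, Adm x ∧ radZ (∏ i, x i) ≤ X ∧ (TP.ht3 x : ℝ) ≤ Real.exp (Real.exp (Real.log X ^ B))) →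
    (Z.card : ℝ) ≤ (X : ℝ) ^ (1 - δ) := by
  classical
  obtain ⟨ε, hε, hε1, X₁, hX₁⟩ := shape3 B (show (0 : ℝ) < 1 / 6 by norm_num)
  obtain ⟨c, hc, htp⟩ := TP.three_primes (η := 0) (by norm_num) 0
  obtain ⟨X₂, hX₂⟩ := htp ε hε hε1
  have hcε : 0 < c * ε := mul_pos hc hε
  set δ := min (c * ε) (1 / 6) / 2 with hδ
  have hδ0 : 0 < δ := by
    rw [hδ]
    have : 0 < min (c * ε) (1 / 6) := lt_min hcε (by norm_num)
    linarith
  have hδa : 2 * δ ≤ c * ε := by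
    rw [hδ]
    linarith [min_le_left (c * ε) (1 / 6)]
  have hδb : 2 * δ ≤ 1 / 6 := by
    rw [hδ]
    linarith [min_le_right (c * ε) (1 / 6)]
  have e1 : ∀ᶠ x : ℝ in Filter.atTop, (2 : ℝ) ≤ x ^ δ := (tendsto_rpow_atTop hδ0).eventually_ge_atTop _
  have e2 := TP.log_pow_le B hcε 1
  obtain ⟨X₃, hX₃⟩ := Filter.eventually_atTop.1 (tendsto_natCast_atTop_atTop.eventually
    ((e1.and e2).and (Filter.eventually_ge_atTop (3 : ℝ))))
  refine ⟨δ, hδ0, max X₁ (max X₂ X₃), fun X hX Z hZ => ?_⟩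
  have g1 : X₁ ≤ X := (le_max_left _ _).trans hX
  have g2 : X₂ ≤ X := ((le_max_left _ _).trans (le_max_right _ _)).trans hX
  obtain ⟨⟨g3, g4⟩, g5⟩ := hX₃ X (((le_max_right _ _).trans (le_max_right _ _)).trans hX)
  have hX0 : (0 : ℝ) < X := by linarith
  have hX1 : (1 : ℝ) ≤ X := by linarith
  have hlX : 0 < Real.log X := Real.log_pos (by linarith)
  have hpow : Real.log X ^ B ≤ (X : ℝ) ^ (c * ε) := by
    rw [one_mul] at g4
    calc Real.log X ^ B ≤ (1 + Real.log X) ^ B := pow_le_pow_left₀ hlX.le (by linarith) B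
      _ ≤ (X : ℝ) ^ (c * ε) := g4
  obtain ⟨hfin, hcardE⟩ := hX₂ X g2
  set Z₁ := Z.filter fun x => x ∈ TP.Exc ε 0 (c * ε) 0 X with hZ₁
  set Z₂ := Z.filter fun x => ¬ x ∈ TP.Exc ε 0 (c * ε) 0 X with hZ₂
  have hsplit : Z₁.card + Z₂.card = Z.card := card_filter_add_card_filter_not _
  have hb1 : (Z₁.card : ℝ) ≤ (X : ℝ) ^ (1 - c * ε) := by
    refine le_trans ?_ hcardE
    have h1 : Z₁.card ≤ (TP.Exc ε 0 (c * ε) 0 X).ncard := by
      rw [← Set.ncard_coe_finset Z₁]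
      apply Set.ncard_le_ncard _ hfin
      intro x hx
      exact (mem_filter.1 (mem_coe.1 hx)).2
    exact_mod_cast h1
  have hb2 : (Z₂.card : ℝ) ≤ (X : ℝ) ^ (2 / 3 + 1 / 6 : ℝ) := by
    apply hX₁ X g1
    intro x hx
    rw [hZ₂, mem_filter] at hx
    obtain ⟨h1, h2, h3⟩ := hZ x hx.1
    refine ⟨h1, h2, h3, ?_⟩
    have h4 : (X : ℝ) ^ 0 < TP.ht3 x ∧ TP.Shp ((X : ℝ) ^ ε) 0 0 x := by
      by_contra h5
      exact hx.2 ⟨h1, h2, h3.trans (Real.exp_le_exp.2 (Real.exp_le_exp.2 hpow)), h5⟩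
    obtain ⟨-, a, q, e, k1, k2, k3⟩ := h4
    refine ⟨a, q, e, k1, fun j => ?_, k2⟩
    rcases k3 j with h | h
    · exact Or.inl h
    · exact Or.inr h.1
  have f1 : (X : ℝ) ^ (1 - c * ε) ≤ (X : ℝ) ^ (1 - 2 * δ) := Real.rpow_le_rpow_of_exponent_le hX1 (by linarith)
  have f2 : (X : ℝ) ^ (2 / 3 + 1 / 6 : ℝ) ≤ (X : ℝ) ^ (1 - 2 * δ) := Real.rpow_le_rpow_of_exponent_le hX1 (by linarith)
  have hZc : (Z.card : ℝ) = Z₁.card + Z₂.card := by exact_mod_cast hsplit.symm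
  calc (Z.card : ℝ) = Z₁.card + Z₂.card := hZc
    _ ≤ 2 * (X : ℝ) ^ (1 - 2 * δ) := by linarith
    _ ≤ (X : ℝ) ^ δ * (X : ℝ) ^ (1 - 2 * δ) := mul_le_mul_of_nonneg_right g3 (by positivity)
    _ = (X : ℝ) ^ (1 - δ) := by
        rw [← Real.rpow_add hX0]
        congr 1
        ring

end Pool.MP_a95293_nt.PQ
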