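import Pool.Agent.Lib_MP_a95293_pq.Md

/-!
# Piece PQ-LEMS: the common divisor
-/

set_option autoImplicit false

namespace Pool.MP_a95293_nt.PQ

open Finset

private theorem LemS_triv (x n : ℕ) (hn : 0 < n) : ((Pr x).filter fun l => n ∣ l - 1).card ≤ x / n := by
  have h : ((Pr x).filter fun l => n ∣ l - 1) ⊆ (Icc 1 (x / n)).image fun t => n * t + 1 := by
    intro l hl
    unfold Pr at hl
    rw [mem_filter, mem_filter, mem_Icc] at hl
    obtain ⟨⟨⟨h1, h2⟩, h3⟩, t, ht⟩ := hl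
    have := h3.two_le
    rw [mem_image]
    refine ⟨t, mem_Icc.2 ⟨?_, ?_⟩, by omega⟩
    · rcases Nat.eq_zero_or_pos t with h0 | h0
      · rw [h0, mul_zero] at ht
        omega
      · exact h0
    · rw [Nat.le_div_iff_mul_le hn, mul_comm]
      omega
  refine (card_le_card h).trans (card_image_le.trans ?_)
  rw [Nat.card_Icc, Nat.add_sub_cancel]

private theorem LemS_omega {e k : ℕ} (he : 0 < e) (hek : e ≤ 2 ^ k) : e.primeFactors.card ≤ k := by
  have h1 : 2 ^ e.primeFactors.card ≤ ∏ p ∈ e.primeFactors, p :=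
    Finset.pow_card_le_prod _ _ _ fun p hp => (Nat.prime_of_mem_primeFactors hp).two_le
  have h2 := Nat.le_of_dvd he (Nat.prod_primeFactors_dvd e)
  exact (Nat.pow_le_pow_iff_right (by norm_num)).1 ((h1.trans h2).trans hek)

/-- the numbers with a common prime factor larger than `z` -/
private theorem LemS_a (x z : ℕ) (hz : 0 < z) {e k : ℕ} (he : 0 < e) (hek : e ≤ 2 ^ k) (T : Finset ℕ)
    (hT : ∀ l ∈ T, l ∈ Pr x ∧ ∃ p : ℕ, p.Prime ∧ p ∣ e ∧ p ∣ l - 1 ∧ z < p) : T.card ≤ k * (x / z) := by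
  classical
  have h : T ⊆ (e.primeFactors.filter fun p => z < p).biUnion fun p => (Pr x).filter fun l => p ∣ l - 1 := by
    intro l hl
    obtain ⟨h1, p, hp, hpe, hpl, hzp⟩ := hT l hl
    rw [mem_biUnion]
    exact ⟨p, mem_filter.2 ⟨Nat.mem_primeFactors.2 ⟨hp, hpe, he.ne'⟩, hzp⟩, mem_filter.2 ⟨h1, hpl⟩⟩
  refine (card_le_card h).trans (card_biUnion_le.trans ?_)
  calc ∑ p ∈ e.primeFactors.filter (fun p => z < p), ((Pr x).filter fun l => p ∣ l - 1).card
      ≤ ∑ p ∈ e.primeFactors.filter (fun p => z < p), x / z := by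
        refine sum_le_sum fun p hp => ?_
        rw [mem_filter] at hp
        exact (LemS_triv x p (by omega)).trans (Nat.div_le_div_left hp.2.le hz)
    _ = (e.primeFactors.filter fun p => z < p).card * (x / z) := by rw [sum_const, smul_eq_mul]
    _ ≤ k * (x / z) := Nat.mul_le_mul_right _ ((card_filter_le _ _).trans (LemS_omega he hek))

/-- many primes -/
private theorem LemS_pi (x : ℕ) (hx : 64 ≤ x) : 1 / 2 * ((x : ℝ) / Real.log x) ≤ ((Pr x).card : ℝ) := by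
  have hxR : (64 : ℝ) ≤ x := by exact_mod_cast hx
  have hlp : 0 < Real.log x := Real.log_pos (by linarith)
  have hpi := Chebyshev.pi_ge x
  have hc : Nat.primeCounting x = (Pr x).card := by
    unfold Nat.primeCounting Nat.primeCounting' Pr
    rw [Nat.count_eq_card_filter_range]
    congr 1
    ext p
    rw [mem_filter, mem_filter, mem_range, mem_Icc]
    constructor
    · rintro ⟨a, b⟩
      exact ⟨⟨b.one_lt.le, by omega⟩, b⟩
    · rintro ⟨⟨a, b⟩, c⟩
      exact ⟨by omega, c⟩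
  rw [hc] at hpi
  refine le_trans ?_ hpi
  rw [← mul_div_assoc]
  apply div_le_div_of_nonneg_right _ hlp.le
  have e1 : Real.log ((x : ℝ) + 1) ≤ Real.log 2 + Real.log x := by
    rw [← Real.log_mul (by norm_num) (by linarith)]
    exact Real.log_le_log (by linarith) (by linarith)
  have e2 := Real.log_two_gt_d9
  have e3 := Real.log_two_lt_d9
  have e4 : Real.log x ≤ 6 * Real.log 2 + (x / 64 - 1) := by
    have h1 : Real.log x = Real.log 64 + Real.log (x / 64) := by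
      rw [← Real.log_mul (by norm_num) (by positivity)]
      congr 1
      ring
    have h2 : Real.log 64 = 6 * Real.log 2 := by
      rw [show (64 : ℝ) = 2 ^ 6 by norm_num, Real.log_pow]
      norm_num
    have h3 := Real.log_le_sub_one_of_pos (show (0 : ℝ) < x / 64 by positivity)
    linarith
  nlinarith

/-- the common divisor is small -/
private theorem LemS_gcd {z K l D e : ℕ} (hz : 1 ≤ z) (hl : 0 < l - 1) (hD : D ∣ l - 1) (he : 0 < e)
    (h1 : ∀ p : ℕ, p.Prime → p ∣ e → p ∣ l - 1 → p ≤ z) (h2 : SP z (l - 1) ≤ K * Real.log z) : e.gcd D ≤ z ^ K := by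
  set g := e.gcd D with hg
  have hge : g ∣ e := Nat.gcd_dvd_left e D
  have hgl : g ∣ l - 1 := (Nat.gcd_dvd_right e D).trans hD
  have hg0 : 0 < g := Nat.pos_of_dvd_of_pos hge he
  have hsub : g.divisors ⊆ (l - 1).divisors.filter fun n => n.minFac ≤ z := by
    intro d hd
    rw [Nat.mem_divisors] at hd
    rw [mem_filter, Nat.mem_divisors]
    refine ⟨⟨hd.1.trans hgl, hl.ne'⟩, ?_⟩
    by_cases hd1 : d = 1
    · rw [hd1, Nat.minFac_one]
      exact hz
    · have hm := Nat.minFac_dvd d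
      exact h1 _ (Nat.minFac_prime hd1) ((hm.trans hd.1).trans hge) ((hm.trans hd.1).trans hgl)
  have h3 : Real.log g ≤ SP z (l - 1) := by
    rw [← ArithmeticFunction.vonMangoldt_sum]
    unfold SP
    exact sum_le_sum_of_subset_of_nonneg hsub fun _ _ _ => ArithmeticFunction.vonMangoldt_nonneg
  have hgR : (0 : ℝ) < g := by exact_mod_cast hg0
  have hzR : (0 : ℝ) < z := by exact_mod_cast hz
  have h4 : Real.log g ≤ Real.log ((z : ℝ) ^ K) := by
    rw [Real.log_pow]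
    exact h3.trans h2
  have h5 : (g : ℝ) ≤ (z : ℝ) ^ K := (Real.log_le_log_iff hgR (by positivity)).1 h4
  exact_mod_cast h5

/-- **Lemma S.**
PROOF: `x = z^(20 j^2)`, `a = K j`, `b = j^2`. Primes `l ∈ (z^(20 j^2 - 1), x]`: at least `(1/3) x / log x` (`Chebyshev.pi_ge` as in `Lib_MP_a95293_rc/SvS.lean`, minus
`z^(20 j^2 - 1)`), `log x = 20 j^2 log z`. Remove
(a) those with a prime `p > z`, `p ∣ e`, `p ∣ l - 1`: `e` has at most `k` prime factors (`2^ω(e) ≤ e ≤ 2^k`) and for each there are at most `x / p ≤ x / z` of the `l`;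
total `k x / z ≤ x / √z`, negligible;
(b) those with `SP z (l - 1) > K log z`: at most `C₁ x / (j^2 K log z)` (`smooth_part` with `a := j^2`), small if `K` is large compared with `C₁`;
(c) those for which `l - 1` has no prime factor in `(z^2, z^(K j)]`: at most `C x / (K^2 j^2 log z)` (`mid_prime` with `a := K j`, `b := j^2`; `A K j ≤ 20 j^2`
holds if `j ≥ A K`; to have it for all `j ≥ K'` take a larger final constant `K' ≥ K, A K` and use that the conclusions are monotone in `K`), small if `K` is large.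
At least `(1/10) x / log x` of the `l` remain (set `T`). Each has a prime `m_l ∣ l - 1`, `z^2 < m_l ≤ z^(K j)`; `D_l = (l - 1) / m_l < x / z^2`. Pigeonhole: some `D` is `D_l` for
at least `|T| / (x / z^2) ≥ z^2 / (200 j^2 log z) ≥ z` of the `l`. For these `D ∣ l - 1`, `l - 1 = D m_l ≤ D z^(K j)`. Finally `g = gcd(e, D)` divides `l - 1` and all its prime
factors are `≤ z` (by (a)), so `log g = ∑_{d ∣ g} Λ(d) ≤ SP z (l - 1) ≤ K log z` (`ArithmeticFunction.vonMangoldt_sum`; the divisors of `g` that are prime powers have `minFac ≤ z` and divide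
`l - 1`), so `g ≤ z^K`. -/
theorem lemS : ∃ K : ℕ, 1 ≤ K ∧ ∀ j : ℕ, K ≤ j → ∃ z₀ : ℕ, ∀ z ≥ z₀, ∀ e k : ℕ, 0 < e → e ≤ 2 ^ k → k ^ 2 ≤ z →
    ∃ (D : ℕ) (L : Finset ℕ), 0 < D ∧ D ≤ z ^ (20 * j ^ 2) ∧ e.gcd D ≤ z ^ K ∧ z ≤ L.card ∧
      ∀ l ∈ L, l.Prime ∧ z ^ (20 * j ^ 2 - 1) < l ∧ l ≤ z ^ (20 * j ^ 2) ∧ D ∣ l - 1 ∧ l - 1 ≤ D * z ^ (K * j) := by
  classical
  obtain ⟨C₁, hC₁, hsm⟩ := smooth_part
  obtain ⟨C, A, hC, hA, hmd⟩ := mid_prime
  set K₀ : ℕ := max 3 ⌈400 * (C₁ + C)⌉₊ with hK₀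
  have hK3 : 3 ≤ K₀ := le_max_left _ _
  have hKC : 400 * (C₁ + C) ≤ K₀ := (Nat.le_ceil _).trans (by exact_mod_cast le_max_right _ _)
  refine ⟨K₀ * A, Nat.mul_pos (by omega) hA, fun j hj => ?_⟩
  have hj1 : 1 ≤ j := le_trans (Nat.mul_pos (by omega) hA) hj
  have hAj : A * (K₀ * j) ≤ 20 * j ^ 2 := by
    calc A * (K₀ * j) = (K₀ * A) * j := by ring
      _ ≤ j * j := Nat.mul_le_mul_right _ hj
      _ ≤ 20 * j ^ 2 := by nlinarith
  have h3j : 3 ≤ K₀ * j := by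
    calc 3 = 3 * 1 := rfl
      _ ≤ K₀ * j := Nat.mul_le_mul hK3 hj1
  obtain ⟨z₁, hz₁⟩ := hsm (j ^ 2) (Nat.one_le_pow _ _ hj1)
  obtain ⟨z₂, hz₂⟩ := hmd (K₀ * j) (j ^ 2) h3j hAj
  refine ⟨max (max z₁ z₂) ((1600 * j ^ 2) ^ 4), fun z hz e k he hek hkz => ?_⟩
  have hza : z₁ ≤ z := (le_max_left _ _).trans ((le_max_left _ _).trans hz)
  have hzb : z₂ ≤ z := (le_max_right _ _).trans ((le_max_left _ _).trans hz)
  have hzc : (1600 * j ^ 2) ^ 4 ≤ z := (le_max_right _ _).trans hz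
  have hj2 : 1 ≤ j ^ 2 := Nat.one_le_pow _ _ hj1
  have hz16 : 16 ≤ z := by
    calc 16 ≤ 1600 ^ 4 := by norm_num
      _ ≤ (1600 * j ^ 2) ^ 4 := Nat.pow_le_pow_left (by omega) 4
      _ ≤ z := hzc
  have hz0 : 0 < z := by omega
  have hzR : (16 : ℝ) ≤ z := by exact_mod_cast hz16
  have hz0R : (0 : ℝ) < z := by linarith
  have hlz : 0 < Real.log z := Real.log_pos (by linarith)
  have hjR : (1 : ℝ) ≤ (j : ℝ) ^ 2 := by exact_mod_cast hj2
  -- the fourth root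
  obtain ⟨s, hs, hsz⟩ : ∃ s : ℝ, 1600 * (j : ℝ) ^ 2 ≤ s ∧ s ^ 4 = z := by
    refine ⟨(z : ℝ) ^ (1 / 4 : ℝ), ?_, ?_⟩
    · have h1 : (1600 * (j : ℝ) ^ 2) ^ 4 ≤ z := by exact_mod_cast hzc
      calc 1600 * (j : ℝ) ^ 2 = ((1600 * (j : ℝ) ^ 2) ^ 4) ^ (1 / 4 : ℝ) := by
            rw [← Real.rpow_natCast (1600 * (j : ℝ) ^ 2) 4, ← Real.rpow_mul (by positivity)]
            norm_num
        _ ≤ (z : ℝ) ^ (1 / 4 : ℝ) := Real.rpow_le_rpow (by positivity) h1 (by norm_num)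
    · rw [← Real.rpow_natCast, ← Real.rpow_mul hz0R.le]
      norm_num
  have hs1600 : 1600 ≤ s := by nlinarith
  have hlogz : Real.log z ≤ 4 * s := by
    rw [← hsz, Real.log_pow]
    have := Real.log_le_sub_one_of_pos (show 0 < s by linarith)
    push_cast
    linarith
  have hbig : 400 * (j : ℝ) ^ 2 * Real.log z ≤ s ^ 2 := by
    have h1 : 400 * (j : ℝ) ^ 2 * Real.log z ≤ 400 * (j : ℝ) ^ 2 * (4 * s) :=
      mul_le_mul_of_nonneg_left hlogz (by positivity)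
    nlinarith
  set N := 20 * j ^ 2 with hN
  have hN20 : 20 ≤ N := by omega
  set x := z ^ N with hx
  have hxR : ((x : ℕ) : ℝ) = (z : ℝ) ^ N := by
    rw [hx]
    push_cast
    rfl
  have hxz : z ^ (N - 1) * z = x := by
    rw [hx, ← pow_succ]
    congr 1
    omega
  have hdiv : x / z = z ^ (N - 1) := by
    rw [← hxz]
    exact Nat.mul_div_cancel _ hz0
  have hx64 : 64 ≤ x := by
    calc 64 ≤ 16 ^ 2 := by norm_num
      _ ≤ z ^ 2 := Nat.pow_le_pow_left hz16 2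
      _ ≤ z ^ N := Nat.pow_le_pow_right hz0 (by omega)
  have hlx : Real.log x = 20 * (j : ℝ) ^ 2 * Real.log z := by
    rw [hxR, Real.log_pow, hN]
    push_cast
    ring
  have hx0R : (0 : ℝ) < x := by
    rw [hxR]
    positivity
  set u : ℝ := x / ((j : ℝ) ^ 2 * Real.log z) with hu
  have hjl : 0 < (j : ℝ) ^ 2 * Real.log z := by positivity
  have hu0 : 0 < u := by positivity
  have hux : x = u * ((j : ℝ) ^ 2 * Real.log z) := by
    rw [hu]
    field_simp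
  -- the small numbers are few
  have hsmall : ((z ^ (N - 1) : ℕ) : ℝ) * s ^ 4 = x := by
    rw [hsz]
    exact_mod_cast hxz
  have hw : ((z ^ (N - 1) : ℕ) : ℝ) * s ^ 2 ≤ u / 400 := by
    have h1 : ((z ^ (N - 1) : ℕ) : ℝ) * s ^ 2 * (400 * (j : ℝ) ^ 2 * Real.log z) ≤ x := by
      calc ((z ^ (N - 1) : ℕ) : ℝ) * s ^ 2 * (400 * (j : ℝ) ^ 2 * Real.log z)
          ≤ ((z ^ (N - 1) : ℕ) : ℝ) * s ^ 2 * s ^ 2 := mul_le_mul_of_nonneg_left hbig (by positivity)
        _ = ((z ^ (N - 1) : ℕ) : ℝ) * s ^ 4 := by ring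
        _ = x := hsmall
    rw [hux] at h1
    have h2 : ((z ^ (N - 1) : ℕ) : ℝ) * s ^ 2 * 400 ≤ u := by
      refine le_of_mul_le_mul_right ?_ hjl
      calc _ = ((z ^ (N - 1) : ℕ) : ℝ) * s ^ 2 * (400 * (j : ℝ) ^ 2 * Real.log z) := by ring
        _ ≤ _ := h1
    linarith
  have hw1 : ((z ^ (N - 1) : ℕ) : ℝ) ≤ u / 400 := by
    refine le_trans ?_ hw
    have h1 : (1 : ℝ) ≤ s ^ 2 := by nlinarith
    nlinarith [show (0 : ℝ) ≤ ((z ^ (N - 1) : ℕ) : ℝ) from Nat.cast_nonneg _]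
  -- the sets
  set T := (Pr x).filter fun l => z ^ (N - 1) < l ∧ (∀ p : ℕ, p.Prime → p ∣ e → p ∣ l - 1 → p ≤ z) ∧
    SP z (l - 1) ≤ K₀ * Real.log z ∧ ∃ q : ℕ, q.Prime ∧ z ^ 2 < q ∧ q ≤ z ^ (K₀ * j) ∧ q ∣ l - 1 with hT
  set Ta := (Pr x).filter fun l => ∃ p : ℕ, p.Prime ∧ p ∣ e ∧ p ∣ l - 1 ∧ z < p with hTa
  set Tb := (Pr x).filter fun l => K₀ * Real.log z < SP z (l - 1) with hTb
  set Tc := (Pr x).filter fun l => ∀ q : ℕ, q.Prime → z ^ 2 < q → q ≤ z ^ (K₀ * j) → ¬ q ∣ l - 1 with hTc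
  have hcover : Pr x ⊆ T ∪ (Icc 1 (z ^ (N - 1)) ∪ (Ta ∪ (Tb ∪ Tc))) := by
    intro l hl
    by_cases h1 : z ^ (N - 1) < l
    · by_cases h2 : ∀ p : ℕ, p.Prime → p ∣ e → p ∣ l - 1 → p ≤ z
      · by_cases h3 : SP z (l - 1) ≤ K₀ * Real.log z
        · by_cases h4 : ∃ q : ℕ, q.Prime ∧ z ^ 2 < q ∧ q ≤ z ^ (K₀ * j) ∧ q ∣ l - 1
          · exact mem_union_left _ (mem_filter.2 ⟨hl, h1, h2, h3, h4⟩)
          · refine mem_union_right _ (mem_union_right _ (mem_union_right _ (mem_union_right _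
              (mem_filter.2 ⟨hl, ?_⟩))))
            intro q a b c d
            exact h4 ⟨q, a, b, c, d⟩
        · exact mem_union_right _ (mem_union_right _ (mem_union_right _ (mem_union_left _
            (mem_filter.2 ⟨hl, not_le.1 h3⟩))))
      · refine mem_union_right _ (mem_union_right _ (mem_union_left _ (mem_filter.2 ⟨hl, ?_⟩)))
        push Not at h2
        obtain ⟨p, a, b, c, d⟩ := h2
        exact ⟨p, a, b, c, d⟩
    · refine mem_union_right _ (mem_union_left _ (mem_Icc.2 ⟨?_, not_lt.1 h1⟩))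
      unfold Pr at hl
      exact (mem_Icc.1 (mem_filter.1 hl).1).1
  have hca : (Ta.card : ℝ) ≤ u / 400 := by
    have h1 : Ta.card ≤ k * (x / z) := LemS_a x z hz0 he hek Ta fun l hl => mem_filter.1 hl
    rw [hdiv] at h1
    have h2 : (k : ℝ) ≤ s ^ 2 := by
      have h3 : (k : ℝ) ^ 2 ≤ (s ^ 2) ^ 2 := by
        rw [← pow_mul, hsz]
        exact_mod_cast hkz
      exact le_of_sq_le_sq h3 (by positivity)
    calc (Ta.card : ℝ) ≤ k * ((z ^ (N - 1) : ℕ) : ℝ) := by exact_mod_cast h1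
      _ ≤ s ^ 2 * ((z ^ (N - 1) : ℕ) : ℝ) := mul_le_mul_of_nonneg_right h2 (Nat.cast_nonneg _)
      _ = ((z ^ (N - 1) : ℕ) : ℝ) * s ^ 2 := mul_comm _ _
      _ ≤ u / 400 := hw
  have hcb : (Tb.card : ℝ) ≤ u / 400 := by
    have h1 := hz₁ z hza
    have h2 : (Tb.card : ℝ) * (K₀ * Real.log z) ≤ ∑ l ∈ Pr x, SP z (l - 1) := by
      calc (Tb.card : ℝ) * (K₀ * Real.log z) = ∑ l ∈ Tb, (K₀ : ℝ) * Real.log z := by
            rw [sum_const, nsmul_eq_mul]
        _ ≤ ∑ l ∈ Tb, SP z (l - 1) := sum_le_sum fun l hl => (mem_filter.1 hl).2.le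
        _ ≤ ∑ l ∈ Pr x, SP z (l - 1) :=
            sum_le_sum_of_subset_of_nonneg (filter_subset _ _) fun _ _ _ => SP_nonneg _ _
    have h3 : C₁ * (z : ℝ) ^ (20 * j ^ 2) / ((j ^ 2 : ℕ) : ℝ) = C₁ * u * Real.log z := by
      rw [← hN, ← hxR, hu]
      push_cast
      field_simp
    have h4 : (Tb.card : ℝ) * (K₀ * Real.log z) ≤ C₁ * u * Real.log z := by
      rw [← h3]
      exact h2.trans h1
    have h5 : (Tb.card : ℝ) * K₀ ≤ C₁ * u := by
      refine le_of_mul_le_mul_right ?_ hlz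
      linarith
    have h6 : (Tb.card : ℝ) * (400 * C₁) ≤ C₁ * u := by
      refine le_trans (mul_le_mul_of_nonneg_left ?_ (Nat.cast_nonneg _)) h5
      nlinarith
    have h7 : (Tb.card : ℝ) * 400 ≤ u := by
      refine le_of_mul_le_mul_right ?_ hC₁
      linarith
    linarith
  have hcc : (Tc.card : ℝ) ≤ u / 400 := by
    have h1 := hz₂ z hzb Tc fun l hl => mem_filter.1 hl
    have hKR : (3 : ℝ) ≤ K₀ := by exact_mod_cast hK3
    have h3 : C * (z : ℝ) ^ (20 * j ^ 2) / (((K₀ * j : ℕ) : ℝ) ^ 2 * Real.log z) = C * u / K₀ ^ 2 := by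
      rw [← hN, ← hxR, hu]
      push_cast
      field_simp
    rw [h3] at h1
    refine h1.trans ?_
    rw [div_le_div_iff₀ (by positivity) (by norm_num)]
    have h4 : 400 * C ≤ (K₀ : ℝ) ^ 2 := by nlinarith
    nlinarith
  have hcard := (card_le_card hcover).trans ((card_union_le _ _).trans (Nat.add_le_add_left
    ((card_union_le _ _).trans (Nat.add_le_add_left ((card_union_le _ _).trans (Nat.add_le_add_left
      (card_union_le _ _) _)) _)) _))
  rw [Nat.card_Icc, Nat.add_sub_cancel] at hcard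
  have hcardR : ((Pr x).card : ℝ) ≤ T.card + (((z ^ (N - 1) : ℕ) : ℝ) + (Ta.card + (Tb.card + Tc.card))) := by
    exact_mod_cast hcard
  have hpi := LemS_pi x hx64
  have hpi2 : (x : ℝ) / Real.log x = u / 20 := by
    rw [hlx, hu]
    field_simp
  rw [hpi2] at hpi
  have hTc : u / 100 ≤ T.card := by linarith
  -- the pigeonhole principle
  have hT1 : ∀ l ∈ T, ∃ q : ℕ, q.Prime ∧ z ^ 2 < q ∧ q ≤ z ^ (K₀ * j) ∧ q ∣ l - 1 := fun l hl =>
    (mem_filter.1 hl).2.2.2.2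
  choose! m hm1 hm2 hm3 hm4 using hT1
  have hN2 : z ^ (N - 2) * z ^ 2 = x := by
    rw [hx, ← pow_add]
    congr 1
    omega
  have hlT : ∀ l ∈ T, 1 < l ∧ l ≤ x ∧ l.Prime := by
    intro l hl
    have h1 := (mem_filter.1 hl).1
    unfold Pr at h1
    rw [mem_filter, mem_Icc] at h1
    exact ⟨h1.2.one_lt, h1.1.2, h1.2⟩
  have hmaps : ∀ l ∈ T, (l - 1) / m l ∈ Icc 1 (z ^ (N - 2)) := by
    intro l hl
    obtain ⟨h1, h2, -⟩ := hlT l hl
    have h3 := hm4 l hl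
    have h4 : 0 < m l := (hm1 l hl).pos
    rw [mem_Icc]
    refine ⟨Nat.div_pos (Nat.le_of_dvd (by omega) h3) h4, ?_⟩
    have h5 : (l - 1) / m l ≤ x / z ^ 2 :=
      (Nat.div_le_div_left (hm2 l hl).le (by positivity)).trans (Nat.div_le_div_right (by omega))
    rwa [← hN2, Nat.mul_div_cancel _ (by positivity)] at h5
  have hne : (Icc 1 (z ^ (N - 2))).Nonempty := ⟨1, mem_Icc.2 ⟨le_refl 1, Nat.one_le_pow _ _ hz0⟩⟩
  have hmul : (Icc 1 (z ^ (N - 2))).card * z ≤ T.card := by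
    rw [Nat.card_Icc, Nat.add_sub_cancel, ← pow_succ]
    have h1 : N - 2 + 1 = N - 1 := by omega
    rw [h1]
    have h2 : ((z ^ (N - 1) : ℕ) : ℝ) ≤ T.card := by linarith
    exact_mod_cast h2
  obtain ⟨D, hD, hDc⟩ := exists_le_card_fiber_of_mul_le_card_of_maps_to hmaps hne hmul
  rw [mem_Icc] at hD
  set L := T.filter fun l => (l - 1) / m l = D with hL
  have hLD : ∀ l ∈ L, D * m l = l - 1 := by
    intro l hl
    rw [hL, mem_filter] at hl
    rw [← hl.2]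
    exact Nat.div_mul_cancel (hm4 l hl.1)
  have hLne : L.Nonempty := by
    rw [← card_pos]
    omega
  have hKK : K₀ ≤ K₀ * A := Nat.le_mul_of_pos_right _ hA
  refine ⟨D, L, hD.1, hD.2.trans (Nat.pow_le_pow_right hz0 (by omega)), ?_, hDc, ?_⟩
  · obtain ⟨l, hl⟩ := hLne
    have hlT' : l ∈ T := (mem_filter.1 hl).1
    obtain ⟨h1, h2, h3⟩ := hlT l hlT'
    obtain ⟨-, -, h5, h6, -⟩ := mem_filter.1 hlT'
    refine (LemS_gcd (K := K₀) (l := l) hz0 (by omega) ⟨m l, (hLD l hl).symm⟩ he h5 h6).trans ?_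
    exact Nat.pow_le_pow_right hz0 hKK
  · intro l hl
    have hlT' : l ∈ T := (mem_filter.1 hl).1
    obtain ⟨h1, h2, h3⟩ := hlT l hlT'
    refine ⟨h3, (mem_filter.1 hlT').2.1, h2, ⟨m l, (hLD l hl).symm⟩, ?_⟩
    rw [← hLD l hl]
    refine Nat.mul_le_mul_left _ ((hm3 l hlT').trans ?_)
    exact Nat.pow_le_pow_right hz0 (Nat.mul_le_mul_right _ hKK)

end Pool.MP_a95293_nt.PQ
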