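import Pool.Agent.Lib_MP_a95293_pq.Sm
import Pool.Agent.Lib_MP_a95293_rc.SvU
import Pool.Agent.Lib_MP_a95293_rc.SvM
import Pool.Agent.Lib_MP_f55cd4.MertC

/-!
# Piece PQ-MD: primes `l` such that `l - 1` has no prime factor in `(z^2, z^a]`
-/

set_option autoImplicit false

namespace Pool.MP_a95293_nt.PQ

open Finset Pool.Agent.OmAP Pool.MP_a95293_nt.RC

private theorem Md_PP {y q : ℕ} : q ∈ PP 2 y ↔ 4 < q ∧ q ≤ y ∧ q.Prime := by
  unfold PP
  rw [mem_filter, mem_Ioc]
  norm_num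
  tauto

/-- the forbidden classes -/
private def Md_om (w q : ℕ) : Finset ℕ := if w < q then {0, q - 1} else {q - 1}

/-- the first product -/
private theorem Md_one {y : ℕ} (hy : 3 ≤ y) : ∏ q ∈ PP 2 y, (1 - 1 / (q : ℝ)) ≤ 3 / Real.log y := by
  have h1 : (Icc 1 y).filter Nat.Prime = insert 2 (insert 3 (PP 2 y)) := by
    ext q
    rw [mem_insert, mem_insert, Md_PP, mem_filter, mem_Icc]
    constructor
    · rintro ⟨⟨h1, h2⟩, h3⟩
      have := h3.two_le
      rcases Nat.lt_or_ge 4 q with h4 | h4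
      · exact Or.inr (Or.inr ⟨h4, h2, h3⟩)
      · have h5 : q ≠ 4 := by
          rintro rfl
          exact absurd h3 (by norm_num)
        omega
    · rintro (h | h | ⟨h1, h2, h3⟩)
      · rw [h]
        exact ⟨⟨by norm_num, by omega⟩, Nat.prime_two⟩
      · rw [h]
        exact ⟨⟨by norm_num, by omega⟩, Nat.prime_three⟩
      · exact ⟨⟨by omega, h2⟩, h3⟩
  have h2 : 3 ∉ PP 2 y := by
    rw [Md_PP]
    omega
  have h2' : 2 ∉ insert 3 (PP 2 y) := by
    rw [mem_insert, Md_PP]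
    omega
  have h3 := mertens_up y (by omega)
  rw [h1, prod_insert h2', prod_insert h2] at h3
  have h5 : 3 / Real.log y = 3 * (1 / Real.log y) := by ring
  rw [h5]
  push_cast at h3
  linarith

/-- the second product -/
private theorem Md_two : ∃ C : ℝ, 0 < C ∧ ∀ z a : ℕ, 2 ≤ z → 3 ≤ a →
    ∏ q ∈ (PP 2 (z ^ a)).filter (fun q => z ^ 2 < q), (1 - 1 / (q : ℝ)) ≤ C / a := by
  obtain ⟨C, hC⟩ := MPf55cd4.ms_sum
  refine ⟨2 * Real.exp (2 * C), by positivity, fun z a hz ha => ?_⟩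
  have hzR : (2 : ℝ) ≤ z := by exact_mod_cast hz
  have hlz : 0 < Real.log z := Real.log_pos (by linarith)
  have ha0 : (0 : ℝ) < a := by exact_mod_cast (by omega : 0 < a)
  have hz4 : 4 ≤ z ^ 2 := by nlinarith
  have hz2 : 2 ≤ z ^ 2 := by omega
  have hza : 2 ≤ z ^ a := hz.trans (Nat.le_self_pow (by omega) z)
  have hsub : z ^ 2 ≤ z ^ a := Nat.pow_le_pow_right (by omega) (by omega)
  have e1 := hC ((z ^ a : ℕ) : ℝ) (by exact_mod_cast hza)
  have e2 := hC ((z ^ 2 : ℕ) : ℝ) (by exact_mod_cast hz2)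
  rw [Nat.floor_natCast] at e1 e2
  rw [abs_le] at e1 e2
  have e3 : ∑ p ∈ (Icc 1 (z ^ a)).filter (fun p => p.Prime), (1 : ℝ) / p =
      ∑ p ∈ (Icc 1 (z ^ 2)).filter (fun p => p.Prime), (1 : ℝ) / p +
        ∑ q ∈ (PP 2 (z ^ a)).filter (fun q => z ^ 2 < q), (1 : ℝ) / q := by
    rw [← sum_union]
    · refine sum_congr ?_ fun _ _ => rfl
      ext q
      rw [mem_union, mem_filter, mem_filter, mem_filter, mem_Icc, mem_Icc, Md_PP]
      constructor
      · rintro ⟨⟨h1, h2⟩, h3⟩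
        rcases Nat.lt_or_ge (z ^ 2) q with h4 | h4
        · exact Or.inr ⟨⟨by omega, h2, h3⟩, h4⟩
        · exact Or.inl ⟨⟨h1, h4⟩, h3⟩
      · rintro (⟨⟨h1, h2⟩, h3⟩ | ⟨⟨h1, h2, h3⟩, h4⟩)
        · exact ⟨⟨h1, h2.trans hsub⟩, h3⟩
        · exact ⟨⟨by omega, h2⟩, h3⟩
    · rw [disjoint_left]
      intro q h1 h2
      rw [mem_filter, mem_Icc] at h1
      rw [mem_filter] at h2
      omega
  have e4 : Real.log (Real.log ((z ^ a : ℕ) : ℝ)) = Real.log a + Real.log (Real.log z) := by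
    push_cast
    rw [Real.log_pow, Real.log_mul ha0.ne' hlz.ne']
  have e5 : Real.log (Real.log ((z ^ 2 : ℕ) : ℝ)) = Real.log 2 + Real.log (Real.log z) := by
    push_cast
    rw [Real.log_pow, Nat.cast_ofNat, Real.log_mul (by norm_num) hlz.ne']
  have e6 : Real.log a - Real.log 2 - 2 * C ≤
      ∑ q ∈ (PP 2 (z ^ a)).filter (fun q => z ^ 2 < q), (1 : ℝ) / q := by
    rw [e4] at e1
    rw [e5] at e2
    linarith [e1.1, e2.2]
  calc ∏ q ∈ (PP 2 (z ^ a)).filter (fun q => z ^ 2 < q), (1 - 1 / (q : ℝ)) ≤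
        ∏ q ∈ (PP 2 (z ^ a)).filter (fun q => z ^ 2 < q), Real.exp (-(1 / (q : ℝ))) := by
          refine Finset.prod_le_prod (fun q hq => ?_) fun q hq => ?_
          · have h5 : (4 : ℝ) < q := by exact_mod_cast (Md_PP.1 (mem_filter.1 hq).1).1
            rw [sub_nonneg, div_le_one (by linarith)]
            linarith
          · have := Real.add_one_le_exp (-(1 / (q : ℝ)))
            linarith
    _ = Real.exp (-∑ q ∈ (PP 2 (z ^ a)).filter (fun q => z ^ 2 < q), (1 : ℝ) / q) := by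
          rw [← Real.exp_sum, sum_neg_distrib]
    _ ≤ Real.exp (-(Real.log a - Real.log 2 - 2 * C)) := Real.exp_le_exp.2 (by linarith)
    _ = 2 * Real.exp (2 * C) / a := by
          rw [show -(Real.log a - Real.log 2 - 2 * C) = Real.log 2 + 2 * C - Real.log a by ring,
            Real.exp_sub, Real.exp_add, Real.exp_log (by norm_num), Real.exp_log ha0]

/-- PROOF: the upper bound sieve of dimension two. `sieve_count_up 2` gives `A`; `y = z^a`, `T = z^(20 b) + 1 ≥ y^A`. For a prime `l`, `y < l ≤ z^(20 b)`, with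
no prime factor of `l - 1` in `(z^2, y]`, the number `t = l - 1 < T` avoids for every `q ∈ PP 2 y` the classes `Om q`, where `Om q = {q - 1}` for `q ≤ z^2` and
`Om q = {0, q - 1}` for `q > z^2` (`q ∤ t + 1 = l` as `q ≤ y < l`). So the number is at most `z^a + 4 T ∏_{q ∈ PP 2 y} (1 - |Om q|/q)`. The product is at most
`C ∏_{q ≤ y} (1 - 1/q) ∏_{z^2 < q ≤ y} (1 - 1/q)` (`1 - 2/q ≤ (1 - 1/q)^2`; the primes `2, 3` cost a constant), the first factor is `≤ 1 / log y` (`mertens_up`), the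
second is `≤ exp (- ∑_{z^2 < q ≤ y} 1/q) ≤ C log (z^2) / log y` by Mertens (`ms_sum` in `Lib_MP_f55cd4/MertC.lean`). Total `≤ z^a + C z^(20 b) / (a^2 log z)`,
and `z^a ≤ z^(10 b) ≤ z^(20 b) / (a^2 log z)` for large `z` (take `A ≥ 2`). See `Bt.lean` and `Lib_MP_a95293_rc/SvP.lean` for how the sieve is applied. -/
theorem mid_prime : ∃ (C : ℝ) (A : ℕ), 0 < C ∧ 1 ≤ A ∧ ∀ a b : ℕ, 3 ≤ a → A * a ≤ 20 * b → ∃ z₀ : ℕ, ∀ z ≥ z₀, ∀ T : Finset ℕ,
    (∀ l ∈ T, l ∈ Pr (z ^ (20 * b)) ∧ ∀ q : ℕ, q.Prime → z ^ 2 < q → q ≤ z ^ a → ¬ q ∣ l - 1) →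
    (T.card : ℝ) ≤ C * (z : ℝ) ^ (20 * b) / (a ^ 2 * Real.log z) := by
  classical
  obtain ⟨A0, hA0⟩ := sieve_count_up 2
  obtain ⟨C1, hC10, hC1⟩ := Md_two
  refine ⟨1 + 12 * C1, max A0 2, by positivity, le_trans (by norm_num) (le_max_right _ _), fun a b ha hab => ⟨max 2 (a ^ 2), fun z hz T hT => ?_⟩⟩
  have hz2 : 2 ≤ z := (le_max_left _ _).trans hz
  have hza : a ^ 2 ≤ z := (le_max_right _ _).trans hz
  have hzR : (2 : ℝ) ≤ z := by exact_mod_cast hz2
  have hz0 : (0 : ℝ) < z := by linarith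
  have hlz : 0 < Real.log z := Real.log_pos (by linarith)
  have ha0 : (0 : ℝ) < a := by exact_mod_cast (by omega : 0 < a)
  set y := z ^ a with hy
  set N := z ^ (20 * b) with hN
  have hy2 : 2 ≤ y := hz2.trans (Nat.le_self_pow (by omega) z)
  have hy3 : 3 ≤ y := by
    have h1 : 2 ^ 3 ≤ z ^ a := (Nat.pow_le_pow_left hz2 3).trans (Nat.pow_le_pow_right (by omega) ha)
    omega
  have hA1 : A0 * a ≤ 20 * b := (Nat.mul_le_mul_right a (le_max_left A0 2)).trans hab
  have hA2 : 2 * a ≤ 20 * b := (Nat.mul_le_mul_right a (le_max_right A0 2)).trans hab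
  have hyN : y ^ A0 ≤ N := by
    rw [hy, hN, ← pow_mul, mul_comm a A0]
    exact Nat.pow_le_pow_right (by omega) hA1
  have hyN2 : y * y ≤ N := by
    rw [hy, hN, ← pow_add]
    exact Nat.pow_le_pow_right (by omega) (by omega)
  have hs := hA0 y N hy2 hyN (Md_om (z ^ 2)) (fun p hp => by
    obtain ⟨h1, -, -⟩ := Md_PP.1 hp
    unfold Md_om
    split_ifs with h
    · refine ⟨card_le_two, ?_⟩
      intro t ht
      rw [mem_insert, mem_singleton] at ht
      rw [mem_range]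
      omega
    · refine ⟨by simp, ?_⟩
      intro t ht
      rw [mem_singleton] at ht
      rw [mem_range]
      omega)
  have hsub : T ⊆ Icc 1 y ∪ ((range N).filter fun t => ∀ p ∈ PP 2 y, t % p ∉ Md_om (z ^ 2) p).image fun t => t + 1 := by
    intro l hl
    obtain ⟨hlP, hlq⟩ := hT l hl
    unfold Pr at hlP
    rw [mem_filter, mem_Icc] at hlP
    obtain ⟨⟨hl1, hlN⟩, hlp⟩ := hlP
    rw [mem_union]
    by_cases hly : l ≤ y
    · exact Or.inl (mem_Icc.2 ⟨hl1, hly⟩)
    · right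
      rw [mem_image]
      refine ⟨l - 1, ?_, by omega⟩
      rw [mem_filter, mem_range]
      refine ⟨by omega, fun q hq hmem => ?_⟩
      obtain ⟨hq2, hqy, hqp⟩ := Md_PP.1 hq
      have key : (l - 1) % q = q - 1 → False := by
        intro h
        have h1 : q ∣ l := by
          have h2 : (l - 1 + 1) % q = 0 := by
            rw [Nat.add_mod, h]
            have h3 : 1 % q = 1 := Nat.mod_eq_of_lt (by omega)
            rw [h3, show q - 1 + 1 = q by omega, Nat.mod_self]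
          rw [show l - 1 + 1 = l by omega] at h2
          exact Nat.dvd_of_mod_eq_zero h2
        rw [Nat.prime_dvd_prime_iff_eq hqp hlp] at h1
        omega
      unfold Md_om at hmem
      split_ifs at hmem with h
      · rw [mem_insert, mem_singleton] at hmem
        rcases hmem with h1 | h1
        · exact hlq q hqp h hqy (Nat.dvd_of_mod_eq_zero h1)
        · exact key h1
      · rw [mem_singleton] at hmem
        exact key hmem
  have hcard : (T.card : ℝ) ≤ y + 4 * N * ∏ p ∈ PP 2 y, (1 - ((Md_om (z ^ 2) p).card : ℝ) / p) := by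
    have h1 := (card_le_card hsub).trans ((card_union_le _ _).trans (Nat.add_le_add_left card_image_le _))
    rw [Nat.card_Icc, Nat.add_sub_cancel] at h1
    have h2 : (T.card : ℝ) ≤ y + (((range N).filter fun t => ∀ p ∈ PP 2 y, t % p ∉ Md_om (z ^ 2) p).card : ℝ) := by
      exact_mod_cast h1
    linarith
  have hprod : ∏ p ∈ PP 2 y, (1 - ((Md_om (z ^ 2) p).card : ℝ) / p) ≤
      (3 / Real.log y) * (C1 / a) := by
    have h1 : ∀ p ∈ PP 2 y, (1 - ((Md_om (z ^ 2) p).card : ℝ) / p) ≤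
        (1 - 1 / (p : ℝ)) * (if z ^ 2 < p then 1 - 1 / (p : ℝ) else 1) := by
      intro p hp
      obtain ⟨h2, -, -⟩ := Md_PP.1 hp
      have hp0 : (0 : ℝ) < p := by exact_mod_cast (by omega : 0 < p)
      unfold Md_om
      split_ifs with h
      · rw [card_pair (by omega)]
        have h3 : (1 - 1 / (p : ℝ)) * (1 - 1 / (p : ℝ)) = 1 - 2 / p + (1 / (p : ℝ)) ^ 2 := by ring
        rw [h3]
        push_cast
        have : 0 ≤ (1 / (p : ℝ)) ^ 2 := by positivity
        linarith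
      · rw [card_singleton, mul_one]
        push_cast
        exact le_refl _
    have h0 : ∀ p ∈ PP 2 y, 0 ≤ (1 - ((Md_om (z ^ 2) p).card : ℝ) / p) := by
      intro p hp
      obtain ⟨h2, -, -⟩ := Md_PP.1 hp
      have hp0 : (4 : ℝ) < p := by exact_mod_cast h2
      have h3 : ((Md_om (z ^ 2) p).card : ℝ) ≤ 2 := by
        unfold Md_om
        split_ifs
        · exact_mod_cast card_le_two
        · simp
      rw [sub_nonneg, div_le_one (by linarith)]
      linarith
    have h4 : ∀ p ∈ PP 2 y, 0 ≤ 1 - 1 / (p : ℝ) := by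
      intro p hp
      have hp0 : (4 : ℝ) < p := by exact_mod_cast (Md_PP.1 hp).1
      rw [sub_nonneg, div_le_one (by linarith)]
      linarith
    calc ∏ p ∈ PP 2 y, (1 - ((Md_om (z ^ 2) p).card : ℝ) / p) ≤
          ∏ p ∈ PP 2 y, (1 - 1 / (p : ℝ)) * (if z ^ 2 < p then 1 - 1 / (p : ℝ) else 1) :=
          Finset.prod_le_prod h0 h1
      _ = (∏ p ∈ PP 2 y, (1 - 1 / (p : ℝ))) * ∏ p ∈ (PP 2 y).filter (fun p => z ^ 2 < p), (1 - 1 / (p : ℝ)) := by
          rw [Finset.prod_mul_distrib, Finset.prod_filter]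
      _ ≤ (3 / Real.log y) * (C1 / a) := by
          refine mul_le_mul (Md_one hy3) (hC1 z a hz2 ha) ?_ ?_
          · exact Finset.prod_nonneg fun p hp => h4 p (mem_filter.1 hp).1
          · have : 0 ≤ Real.log y := Real.log_natCast_nonneg y
            positivity
  have hlogy : Real.log y = a * Real.log z := by
    rw [hy]
    push_cast
    rw [Real.log_pow]
  have hNR : (N : ℝ) = (z : ℝ) ^ (20 * b) := by
    rw [hN]
    push_cast
    rfl
  have hN0 : (0 : ℝ) < N := by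
    rw [hNR]
    positivity
  have hyb : (y : ℝ) ≤ N / (a ^ 2 * Real.log z) := by
    rw [le_div_iff₀ (by positivity)]
    have h1 : (a : ℝ) ^ 2 ≤ z := by exact_mod_cast hza
    have h2 : Real.log z ≤ z := (Real.log_le_sub_one_of_pos hz0).trans (by linarith)
    have h3 : (a : ℝ) ^ 2 * Real.log z ≤ z * z := mul_le_mul h1 h2 hlz.le hz0.le
    have h4 : (z : ℝ) * z ≤ y := by
      have h5 : z * z ≤ y := by
        rw [hy, ← pow_two]
        exact Nat.pow_le_pow_right (by omega) (by omega)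
      exact_mod_cast h5
    have h5 : (y : ℝ) * y ≤ N := by exact_mod_cast hyN2
    have hy0 : (0 : ℝ) ≤ y := Nat.cast_nonneg _
    calc (y : ℝ) * (a ^ 2 * Real.log z) ≤ y * y := mul_le_mul_of_nonneg_left (h3.trans h4) hy0
      _ ≤ N := h5
  rw [← hNR]
  calc (T.card : ℝ) ≤ y + 4 * N * ∏ p ∈ PP 2 y, (1 - ((Md_om (z ^ 2) p).card : ℝ) / p) := hcard
    _ ≤ N / (a ^ 2 * Real.log z) + 4 * N * ((3 / Real.log y) * (C1 / a)) :=
        add_le_add hyb (mul_le_mul_of_nonneg_left hprod (by positivity))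
    _ = (1 + 12 * C1) * N / (a ^ 2 * Real.log z) := by
        rw [hlogy]
        field_simp
        ring

end Pool.MP_a95293_nt.PQ
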