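import Mathlib

/-!
# Power saving at all heights: the local problem for tuples. Definitions
-/

set_option autoImplicit false

namespace Pool.MP_a95293_nt.PQ

open Finset

/-- `y` is an admissible class modulo the prime `l` -/
def Loc {n l : ℕ} (M e : ℕ) (β : Fin n → ZMod l) (t : Fin n) (y : ZMod l) : Prop :=
  y ≠ 0 ∧ ∃ h : Fin n → ZMod l, (∀ i, h i ^ M = 1) ∧ ∑ i, β i * h i * (if i = t then y ^ e else 1) = 0

/-- `∏_{q ∈ S, σ q = i} q^(f q)` -/
def prt {n : ℕ} (S : Finset ℕ) (σ : ℕ → Fin n) (f : ℕ → ℕ) (i : Fin n) : ℕ := ∏ q ∈ S.filter (fun q => σ q = i), q ^ f q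

/-- a sign -/
def sg (b : Bool) : ℤ := if b then 1 else -1

/-- the admissible classes modulo the product of the primes of `L` -/
noncomputable def Cls {n : ℕ} (L : Finset ℕ) (D : ℕ) (S : Finset ℕ) (s : Fin n → Bool) (σ : ℕ → Fin n) (f : ℕ → ℕ)
    (t : Fin n) (e : ℕ) : Finset ℕ :=
  open Classical in
  (range (∏ l ∈ L, l)).filter fun y => ∀ l ∈ L,
    Loc ((l - 1) / D) e (fun i => ((sg (s i) * (prt S σ f i : ℤ) : ℤ) : ZMod l)) t (y : ZMod l)

/-- the bad classes: all data, exponents modulo `D` -/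
noncomputable def Bad (n : ℕ) (L : Finset ℕ) (D : ℕ) (S : Finset ℕ) (g : ℕ) : Finset ℕ :=
  open Classical in
  (range (∏ l ∈ L, l)).filter fun y => ∃ (s : Fin n → Bool) (σ : ℕ → Fin n) (f : ℕ → ℕ) (t : Fin n) (e : ℕ),
    (∀ q ∈ S, f q < D) ∧ e < D ∧ e.gcd D ≤ g ∧ y ∈ Cls L D S s σ f t e

/-- a tuple of non-zero integers with sum zero, pairwise coprime, whose primes are `p` and the elements of `S` -/
def Val {n : ℕ} (S : Finset ℕ) (p : ℕ) (x : Fin n → ℤ) : Prop :=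
  (∀ i, x i ≠ 0) ∧ (∀ i j, i ≠ j → IsCoprime (x i) (x j)) ∧ ∑ i, x i = 0 ∧ (∏ i, x i).natAbs.primeFactors = insert p S

end Pool.MP_a95293_nt.PQ
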