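import Pool.Agent.Lib_MP_a95293_pq.Shp

/-!
# Piece PQ-RDS: the radicals of the tuples with terms `a q^e`
-/

set_option autoImplicit false

namespace Pool.MP_a95293_nt.PQ

open Finset Pool.MP_a95293_nt.RC

/-- non-zero integers with sum zero, pairwise coprime, of absolute value at most `H` -/
def Tup {n : ℕ} (H : ℝ) (x : Fin n → ℤ) : Prop :=
  (∀ i, x i ≠ 0) ∧ (∀ i j, i ≠ j → IsCoprime (x i) (x j)) ∧ ∑ i, x i = 0 ∧ ∀ i, |(x i : ℝ)| ≤ H

/-- the largest prime -/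
theorem split_tup {n : ℕ} {H : ℝ} {x : Fin n → ℤ} (hx : Tup H x) (h1 : radZ (∏ i, x i) ≠ 1) :
    ∃ m p : ℕ, radZ (∏ i, x i) = m * p ∧ p.Prime ∧ 1 ≤ m ∧ ∏ q ∈ m.primeFactors, q = m ∧ p ∉ m.primeFactors ∧
      (∀ q ∈ m.primeFactors, q ≤ p) ∧ Val m.primeFactors p x := by
  classical
  set P := (∏ i, x i).natAbs.primeFactors with hP
  have hne : P.Nonempty := by
    rw [nonempty_iff_ne_empty]
    intro h0
    apply h1
    unfold radZ
    rw [← hP, h0, prod_empty]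
  set p := P.max' hne with hp
  have hpP : p ∈ P := max'_mem P hne
  have hpp : p.Prime := Nat.prime_of_mem_primeFactors hpP
  set S := P.erase p with hS
  have hSp : ∀ q ∈ S, q.Prime := fun q hq => Nat.prime_of_mem_primeFactors (mem_of_mem_erase hq)
  have hins : P = insert p S := (insert_erase hpP).symm
  have hpS : p ∉ S := notMem_erase p P
  have hmS : (∏ q ∈ S, q).primeFactors = S := Nat.primeFactors_prod hSp
  refine ⟨∏ q ∈ S, q, p, ?_, hpp, Finset.prod_pos fun q hq => (hSp q hq).pos, ?_, ?_, ?_, ?_⟩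
  · unfold radZ
    rw [← hP, hins, prod_insert hpS, mul_comm]
  · rw [hmS]
  · rw [hmS]
    exact hpS
  · rw [hmS]
    intro q hq
    exact le_max' P q (mem_of_mem_erase hq)
  · rw [hmS]
    exact ⟨hx.1, hx.2.1, hx.2.2.1, by rw [← hP]; exact hins⟩

/-- **Radicals of the tuples with terms `a q^e`.** -/
theorem shapeR (n B : ℕ) (hn : 1 ≤ n) {η : ℝ} (hη : 0 < η) : ∃ ε : ℝ, 0 < ε ∧ ∃ X₀ : ℕ, ∀ X ≥ X₀, ∀ Rs : Finset ℕ,
    (∀ R ∈ Rs, R ≤ X ∧ ∃ x : Fin n → ℤ, Tup (Real.exp (Real.exp (Real.log X ^ B))) x ∧ radZ (∏ i, x i) = R ∧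
      Shape ((X : ℝ) ^ ε) x) →
    (Rs.card : ℝ) ≤ (X : ℝ) ^ (1 - 1 / (n : ℝ) + η) := by
  classical
  obtain ⟨c, hc, X₁, hX₁⟩ := thR n B (show 0 < η / 4 by positivity)
  obtain ⟨ε₀, hε₀, X₂, hX₂⟩ := shape_omega n hc
  set ε := min ε₀ (η / 4) with hε
  have hε0 : 0 < ε := lt_min hε₀ (by positivity)
  have hεη : ε ≤ η / 4 := min_le_right _ _
  have e1 : ∀ᶠ x : ℝ in Filter.atTop, (2 : ℝ) ≤ x ^ (η / 2) :=
    (tendsto_rpow_atTop (by positivity)).eventually_ge_atTop _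
  obtain ⟨X₃, hX₃⟩ := Filter.eventually_atTop.1 (tendsto_natCast_atTop_atTop.eventually
    (e1.and (Filter.eventually_ge_atTop (3 : ℝ))))
  refine ⟨ε, hε0, max X₁ (max X₂ X₃), fun X hX Rs hRs => ?_⟩
  have g1 : X₁ ≤ X := (le_max_left _ _).trans hX
  have g2 : X₂ ≤ X := ((le_max_left _ _).trans (le_max_right _ _)).trans hX
  obtain ⟨g3, g4⟩ := hX₃ X (((le_max_right _ _).trans (le_max_right _ _)).trans hX)
  have hX0 : (0 : ℝ) < X := by linarith
  have hX1 : (1 : ℝ) ≤ X := by linarith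
  have hll : 0 ≤ Real.log (Real.log X) := by
    apply Real.log_nonneg
    rw [Real.le_log_iff_exp_le hX0]
    have := Real.exp_one_lt_d9
    linarith
  have hnR : (1 : ℝ) ≤ n := by exact_mod_cast hn
  set V := ⌊(X : ℝ) ^ (1 - 1 / (n : ℝ) + ε)⌋₊ with hV
  have hmain : ((Rs.erase 1).card : ℝ) ≤ V * (X : ℝ) ^ (η / 4) := by
    apply hX₁ X g1
    intro R hR
    rw [mem_erase] at hR
    obtain ⟨hRX, x, hx, hxR, hxs⟩ := hRs R hR.2
    obtain ⟨m, p, h1, h2, h3, h4, h5, h6, h7⟩ := split_tup hx (hxR ▸ hR.1)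
    rw [hxR] at h1
    refine ⟨hRX, m, p, h1, h2, h3, ?_, h5, ?_, x, h7, hx.2.2.2⟩
    · -- the size of m
      rw [hV, Nat.le_floor_iff (by positivity)]
      have h8 := shape_cofactor hn hx.1 hxs h7.2.2.2 h5 h6
      rw [h4] at h8
      have hmR : (1 : ℝ) ≤ m := by exact_mod_cast h3
      have hp0 : (0 : ℝ) ≤ p := Nat.cast_nonneg p
      have hmp : (m : ℝ) * p ≤ X := by
        rw [h1] at hRX
        exact_mod_cast hRX
      have h9 : (m : ℝ) ^ n ≤ (X : ℝ) ^ (ε + (n - 1 : ℝ)) := by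
        have hn1 : ((n - 1 : ℕ) : ℝ) = (n : ℝ) - 1 := by
          rw [Nat.cast_sub hn, Nat.cast_one]
        calc (m : ℝ) ^ n = (m : ℝ) ^ (n - 1) * m := by rw [← pow_succ, Nat.sub_add_cancel hn]
          _ ≤ (m : ℝ) ^ (n - 1) * ((X : ℝ) ^ ε * (p : ℝ) ^ (n - 1)) := mul_le_mul_of_nonneg_left h8 (by positivity)
          _ = (X : ℝ) ^ ε * ((m : ℝ) * p) ^ (n - 1) := by rw [mul_pow]; ring
          _ ≤ (X : ℝ) ^ ε * (X : ℝ) ^ (n - 1) :=
              mul_le_mul_of_nonneg_left (pow_le_pow_left₀ (by positivity) hmp _) (by positivity)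
          _ = (X : ℝ) ^ (ε + (n - 1 : ℝ)) := by
              rw [Real.rpow_add hX0, ← Real.rpow_natCast, hn1]
      calc (m : ℝ) = ((m : ℝ) ^ n) ^ (1 / (n : ℝ)) := by
            rw [← Real.rpow_natCast, ← Real.rpow_mul (by linarith), mul_one_div_cancel (by linarith), Real.rpow_one]
        _ ≤ ((X : ℝ) ^ (ε + (n - 1 : ℝ))) ^ (1 / (n : ℝ)) := Real.rpow_le_rpow (by positivity) h9 (by positivity)
        _ = (X : ℝ) ^ ((ε + (n - 1 : ℝ)) * (1 / (n : ℝ))) := by rw [← Real.rpow_mul hX0.le]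
        _ ≤ (X : ℝ) ^ (1 - 1 / (n : ℝ) + ε) := by
            apply Real.rpow_le_rpow_of_exponent_le hX1
            have e2 : (ε + (n - 1 : ℝ)) * (1 / (n : ℝ)) = 1 - 1 / (n : ℝ) + ε * (1 / (n : ℝ)) := by
              field_simp
              ring
            rw [e2]
            have e3 : 1 / (n : ℝ) ≤ 1 := by
              rw [div_le_one (by linarith)]
              exact hnR
            nlinarith
    · -- the number of primes
      have h8 := hX₂ X g2 ε (min_le_left _ _) x hx.1 hxs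
      refine le_trans (mul_le_mul_of_nonneg_right ?_ hll) h8
      rw [h7.2.2.2]
      exact_mod_cast card_le_card (subset_insert p m.primeFactors)
  have hVR : (V : ℝ) ≤ (X : ℝ) ^ (1 - 1 / (n : ℝ) + ε) := Nat.floor_le (by positivity)
  have hcard : (Rs.card : ℝ) ≤ (Rs.erase 1).card + 1 := by
    have h1 : Rs.card ≤ (Rs.erase 1).card + 1 := by
      have := pred_card_le_card_erase (s := Rs) (a := 1)
      omega
    exact_mod_cast h1
  have hexp : 0 ≤ 1 - 1 / (n : ℝ) := by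
    have e3 : 1 / (n : ℝ) ≤ 1 := by
      rw [div_le_one (by linarith)]
      exact hnR
    linarith
  have hb1 : ((Rs.erase 1).card : ℝ) ≤ (X : ℝ) ^ (1 - 1 / (n : ℝ) + η / 2) := by
    refine hmain.trans ((mul_le_mul_of_nonneg_right hVR (by positivity)).trans ?_)
    rw [← Real.rpow_add hX0]
    apply Real.rpow_le_rpow_of_exponent_le hX1
    linarith
  have hb2 : (1 : ℝ) ≤ (X : ℝ) ^ (1 - 1 / (n : ℝ) + η / 2) := Real.one_le_rpow hX1 (by linarith)
  calc (Rs.card : ℝ) ≤ (Rs.erase 1).card + 1 := hcard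
    _ ≤ 2 * (X : ℝ) ^ (1 - 1 / (n : ℝ) + η / 2) := by linarith
    _ ≤ (X : ℝ) ^ (η / 2) * (X : ℝ) ^ (1 - 1 / (n : ℝ) + η / 2) := mul_le_mul_of_nonneg_right g3 (by positivity)
    _ = (X : ℝ) ^ (1 - 1 / (n : ℝ) + η) := by
        rw [← Real.rpow_add hX0]
        congr 1
        ring

end Pool.MP_a95293_nt.PQ
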