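import Pool.Agent.Lib_MP_a95293_pq.ThR
import Pool.Agent.Lib_MP_a95293_rc.CorC

/-!
# Piece PQ-SHP: tuples with terms `a q^e`
-/

set_option autoImplicit false

namespace Pool.MP_a95293_nt.PQ

open Finset Pool.MP_a95293_nt.RC

/-- every term is `a q^e` with `q` prime or `1`, the radical of the product of the `a` is at most `E` -/
def Shape {n : ℕ} (E : ℝ) (x : Fin n → ℤ) : Prop :=
  ∃ (a : Fin n → ℤ) (q e : Fin n → ℕ), (∀ j, x j = a j * (q j : ℤ) ^ e j) ∧ (∀ j, q j = 1 ∨ (q j).Prime) ∧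
    (radZ (∏ j, a j) : ℝ) ≤ E

/-- a product of distinct positive integers is large -/
theorem prod_ge (A : Finset ℕ) (hA : ∀ a ∈ A, 1 ≤ a) {Y : ℕ} (hY : 1 ≤ Y) : Y ^ (A.card - Y) ≤ ∏ a ∈ A, a := by
  classical
  have h1 : A.card - Y ≤ (A.filter fun a => Y ≤ a).card := by
    have h2 : (A.filter fun a => ¬ Y ≤ a).card ≤ Y := by
      have h3 : (A.filter fun a => ¬ Y ≤ a) ⊆ range Y := by
        intro a ha
        rw [mem_filter] at ha
        exact mem_range.2 (not_le.1 ha.2)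
      exact (card_le_card h3).trans (le_of_eq (card_range Y))
    have h3 := card_filter_add_card_filter_not (s := A) (fun a => Y ≤ a)
    omega
  calc Y ^ (A.card - Y) ≤ Y ^ (A.filter fun a => Y ≤ a).card := Nat.pow_le_pow_right hY h1
    _ ≤ ∏ a ∈ A.filter (fun a => Y ≤ a), a := Finset.pow_card_le_prod _ _ _ fun a ha => (mem_filter.1 ha).2
    _ ≤ ∏ a ∈ A, a := Finset.prod_le_prod_of_subset_of_one_le' (filter_subset _ _) fun a ha _ => hA a ha

/-- the primes of the tuple -/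
private theorem Shp_primes {n : ℕ} {x a : Fin n → ℤ} {q e : Fin n → ℕ} (hx0 : ∀ i, x i ≠ 0)
    (h : ∀ j, x j = a j * (q j : ℤ) ^ e j) (hq : ∀ j, q j = 1 ∨ (q j).Prime) :
    (∏ i, x i).natAbs.primeFactors ⊆ (∏ j, a j).natAbs.primeFactors ∪ univ.image q := by
  classical
  intro p hp
  rw [Nat.mem_primeFactors] at hp
  obtain ⟨hpp, hpx, -⟩ := hp
  have ha0 : ∏ j, a j ≠ 0 := by
    rw [prod_ne_zero_iff]
    intro j _ h0
    apply hx0 j
    rw [h j, h0, zero_mul]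
  have h1 : (p : ℤ) ∣ ∏ i, x i := Int.natCast_dvd.2 hpx
  rw [(Nat.prime_iff_prime_int.1 hpp).dvd_finsetProd_iff] at h1
  obtain ⟨j, -, hj⟩ := h1
  rw [h j] at hj
  rcases (Nat.prime_iff_prime_int.1 hpp).dvd_mul.1 hj with h2 | h2
  · apply mem_union_left
    rw [Nat.mem_primeFactors]
    refine ⟨hpp, Int.natCast_dvd.1 (h2.trans (dvd_prod_of_mem a (mem_univ j))), Int.natAbs_ne_zero.2 ha0⟩
  · apply mem_union_right
    rw [mem_image]
    refine ⟨j, mem_univ j, ?_⟩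
    have h3 : (p : ℤ) ∣ (q j : ℤ) := (Nat.prime_iff_prime_int.1 hpp).dvd_of_dvd_pow h2
    have h4 : p ∣ q j := Int.natCast_dvd_natCast.1 h3
    rcases hq j with h5 | h5
    · rw [h5, Nat.dvd_one] at h4
      exact absurd h4 hpp.one_lt.ne'
    · exact ((Nat.prime_dvd_prime_iff_eq hpp h5).1 h4).symm

/-- **The cofactor of the largest prime.** -/
theorem shape_cofactor {n : ℕ} (hn : 1 ≤ n) {E : ℝ} {x : Fin n → ℤ} (hx0 : ∀ i, x i ≠ 0) (hx : Shape E x) {S : Finset ℕ} {p : ℕ}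
    (hP : (∏ i, x i).natAbs.primeFactors = insert p S) (hpS : p ∉ S) (hmax : ∀ q ∈ S, q ≤ p) :
    ((∏ q ∈ S, q : ℕ) : ℝ) ≤ E * (p : ℝ) ^ (n - 1) := by
  classical
  obtain ⟨a, q, e, h1, h2, h3⟩ := hx
  have hsub := Shp_primes hx0 h1 h2
  set A := (∏ j, a j).natAbs.primeFactors with hA
  set Q := univ.image q with hQ
  rw [hP] at hsub
  have hpp : p.Prime := Nat.prime_of_mem_primeFactors (hP ▸ mem_insert_self p S)
  have hSp : ∀ r ∈ S, r.Prime := fun r hr => Nat.prime_of_mem_primeFactors (hP ▸ mem_insert_of_mem hr)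
  have hAp : ∀ r ∈ A, 1 ≤ r := fun r hr => (Nat.prime_of_mem_primeFactors hr).one_lt.le
  have hQc : Q.card ≤ n := card_image_le.trans (le_of_eq (by rw [card_univ, Fintype.card_fin]))
  have hAE : ((∏ r ∈ A, r : ℕ) : ℝ) ≤ E := h3
  have hsplit : ∏ r ∈ S, r = (∏ r ∈ S ∩ A, r) * ∏ r ∈ S \ A, r := (prod_inter_mul_prod_sdiff S A fun r => r).symm
  have hSA : ∏ r ∈ S \ A, r ≤ p ^ (S \ A).card := by
    apply Finset.prod_le_pow_card
    intro r hr
    exact hmax r (mem_sdiff.1 hr).1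
  have hSAQ : S \ A ⊆ Q.erase p := by
    intro r hr
    rw [mem_sdiff] at hr
    rw [mem_erase]
    refine ⟨fun h => hpS (h ▸ hr.1), ?_⟩
    rcases mem_union.1 (hsub (mem_insert_of_mem hr.1)) with h | h
    · exact absurd h hr.2
    · exact h
  have hnat : ∏ r ∈ S, r ≤ (∏ r ∈ A, r) * p ^ (n - 1) := by
    rw [hsplit]
    by_cases hpA : p ∈ A
    · have h4 : ∏ r ∈ S ∩ A, r ≤ ∏ r ∈ A.erase p, r := by
        apply Finset.prod_le_prod_of_subset_of_one_le'
        · intro r hr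
          rw [mem_inter] at hr
          rw [mem_erase]
          exact ⟨fun h => hpS (h ▸ hr.1), hr.2⟩
        · intro r hr _
          exact hAp r (mem_of_mem_erase hr)
      have h5 : (S \ A).card ≤ n := (card_le_card hSAQ).trans ((card_le_card (erase_subset _ _)).trans hQc)
      calc (∏ r ∈ S ∩ A, r) * ∏ r ∈ S \ A, r ≤ (∏ r ∈ A.erase p, r) * p ^ n :=
            Nat.mul_le_mul h4 (hSA.trans (Nat.pow_le_pow_right hpp.pos h5))
        _ = ((∏ r ∈ A.erase p, r) * p) * p ^ (n - 1) := by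
            rw [mul_assoc, ← pow_succ', Nat.sub_add_cancel hn]
        _ = (∏ r ∈ A, r) * p ^ (n - 1) := by rw [prod_erase_mul _ _ hpA]
    · have h4 : ∏ r ∈ S ∩ A, r ≤ ∏ r ∈ A, r :=
        Finset.prod_le_prod_of_subset_of_one_le' inter_subset_right fun r hr _ => hAp r hr
      have hpQ : p ∈ Q := by
        rcases mem_union.1 (hsub (mem_insert_self p S)) with h | h
        · exact absurd h hpA
        · exact h
      have h5 : (S \ A).card ≤ n - 1 := by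
        have h6 := card_le_card hSAQ
        rw [card_erase_of_mem hpQ] at h6
        omega
      exact Nat.mul_le_mul h4 (hSA.trans (Nat.pow_le_pow_right hpp.pos h5))
  calc ((∏ q ∈ S, q : ℕ) : ℝ) ≤ (((∏ r ∈ A, r) * p ^ (n - 1) : ℕ) : ℝ) := by exact_mod_cast hnat
    _ = ((∏ r ∈ A, r : ℕ) : ℝ) * (p : ℝ) ^ (n - 1) := by push_cast; ring
    _ ≤ E * (p : ℝ) ^ (n - 1) := mul_le_mul_of_nonneg_right hAE (by positivity)

/-- the number of primes -/
theorem shape_card {n : ℕ} {E : ℝ} {x : Fin n → ℤ} (hx0 : ∀ i, x i ≠ 0) (hx : Shape E x) {Y : ℕ} (hY : 1 ≤ Y) :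
    ((Y : ℝ) ^ ((∏ i, x i).natAbs.primeFactors.card - n - Y)) ≤ E := by
  classical
  obtain ⟨a, q, e, h1, h2, h3⟩ := hx
  have hsub := Shp_primes hx0 h1 h2
  set A := (∏ j, a j).natAbs.primeFactors with hA
  have hQc : (univ.image q).card ≤ n := card_image_le.trans (le_of_eq (by rw [card_univ, Fintype.card_fin]))
  have h4 : (∏ i, x i).natAbs.primeFactors.card - n ≤ A.card := by
    have h5 := (card_le_card hsub).trans (card_union_le _ _)
    omega
  have h5 := prod_ge A (fun r hr => (Nat.prime_of_mem_primeFactors hr).one_lt.le) hY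
  have hAE : ((∏ r ∈ A, r : ℕ) : ℝ) ≤ E := h3
  refine le_trans ?_ hAE
  have h6 : Y ^ ((∏ i, x i).natAbs.primeFactors.card - n - Y) ≤ Y ^ (A.card - Y) :=
    Nat.pow_le_pow_right hY (by omega)
  exact_mod_cast h6.trans h5

/-- the number of primes, asymptotically -/
theorem shape_omega (n : ℕ) {c : ℝ} (hc : 0 < c) : ∃ ε₀ : ℝ, 0 < ε₀ ∧ ∃ X₀ : ℕ, ∀ X ≥ X₀, ∀ ε : ℝ, ε ≤ ε₀ → ∀ x : Fin n → ℤ,
    (∀ i, x i ≠ 0) → Shape ((X : ℝ) ^ ε) x →
    ((∏ i, x i).natAbs.primeFactors.card : ℝ) * Real.log (Real.log X) ≤ c * Real.log X := by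
  have e1 : ∀ᶠ y : ℝ in Filter.atTop, Real.log y ≤ 1 * y ^ (1 / 4 : ℝ) := by
    have h := (isLittleO_log_rpow_atTop (show (0 : ℝ) < 1 / 4 by norm_num)).bound (show (0 : ℝ) < 1 by norm_num)
    filter_upwards [h, Filter.eventually_ge_atTop (1 : ℝ)] with y h1 h2
    rwa [Real.norm_of_nonneg (Real.log_nonneg h2), Real.norm_of_nonneg (by positivity)] at h1
  have e2 : ∀ᶠ y : ℝ in Filter.atTop, (2 * (n + 3) / c : ℝ) ≤ y ^ (1 / 4 : ℝ) :=
    (tendsto_rpow_atTop (by norm_num)).eventually_ge_atTop _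
  have htend : Filter.Tendsto (fun X : ℕ => Real.log X) Filter.atTop Filter.atTop :=
    Real.tendsto_log_atTop.comp tendsto_natCast_atTop_atTop
  obtain ⟨X₁, hX₁⟩ := Filter.eventually_atTop.1 (htend.eventually ((e1.and e2).and (Filter.eventually_ge_atTop (3 : ℝ))))
  refine ⟨c / 4, by positivity, X₁, fun X hX ε hε x hx0 hx => ?_⟩
  obtain ⟨⟨g1, g2⟩, g3⟩ := hX₁ X hX
  set y := Real.log X with hy
  have hy0 : 0 < y := by linarith
  have hX0 : (0 : ℝ) < X := by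
    by_contra h
    have h1 : (X : ℝ) = 0 := le_antisymm (not_lt.1 h) (Nat.cast_nonneg _)
    rw [hy, h1, Real.log_zero] at g3
    norm_num at g3
  have hly : 0 < Real.log y := Real.log_pos (by linarith)
  set w := (∏ i, x i).natAbs.primeFactors.card with hw
  set Y := ⌈y ^ (1 / 2 : ℝ)⌉₊ with hY
  have hy12 : 1 ≤ y ^ (1 / 2 : ℝ) := Real.one_le_rpow (by linarith) (by norm_num)
  have hY1 : 1 ≤ Y := Nat.one_le_ceil_iff.2 (by linarith)
  have hYu : (Y : ℝ) ≤ y ^ (1 / 2 : ℝ) + 1 := (Nat.ceil_lt_add_one (by linarith)).le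
  have hYl : y ^ (1 / 2 : ℝ) ≤ Y := Nat.le_ceil _
  have hs := shape_card hx0 hx hY1
  have h1 : ((w - n - Y : ℕ) : ℝ) * (Real.log y / 2) ≤ ε * y := by
    have h2 := Real.log_le_log (by positivity) hs
    rw [Real.log_pow, Real.log_rpow hX0, ← hy] at h2
    refine le_trans (mul_le_mul_of_nonneg_left ?_ (Nat.cast_nonneg _)) h2
    calc Real.log y / 2 = Real.log (y ^ (1 / 2 : ℝ)) := by
          rw [Real.log_rpow hy0]
          ring
      _ ≤ Real.log Y := Real.log_le_log (by linarith) hYl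
  have h2 : (w : ℝ) ≤ ((w - n - Y : ℕ) : ℝ) + n + Y := by
    have : w ≤ (w - n - Y) + n + Y := by omega
    exact_mod_cast this
  have hq4 : y ^ (1 / 2 : ℝ) * y ^ (1 / 4 : ℝ) * y ^ (1 / 4 : ℝ) = y := by
    rw [← Real.rpow_add hy0, ← Real.rpow_add hy0]
    norm_num
  have hq1 : 1 ≤ y ^ (1 / 4 : ℝ) := Real.one_le_rpow (by linarith) (by norm_num)
  have h3 : ((n : ℝ) + Y) * Real.log y ≤ c / 2 * y := by
    have h4 : (n : ℝ) + Y ≤ (n + 3) * y ^ (1 / 2 : ℝ) := by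
      have : (0 : ℝ) ≤ n := Nat.cast_nonneg _
      nlinarith
    have h5 : ((n : ℝ) + 3) ≤ c / 2 * y ^ (1 / 4 : ℝ) := by
      rw [div_le_iff₀ hc] at g2
      linarith
    calc ((n : ℝ) + Y) * Real.log y ≤ ((n + 3) * y ^ (1 / 2 : ℝ)) * y ^ (1 / 4 : ℝ) :=
          mul_le_mul h4 (by linarith) hly.le (by positivity)
      _ ≤ ((c / 2 * y ^ (1 / 4 : ℝ)) * y ^ (1 / 2 : ℝ)) * y ^ (1 / 4 : ℝ) := by gcongr
      _ = c / 2 * (y ^ (1 / 2 : ℝ) * y ^ (1 / 4 : ℝ) * y ^ (1 / 4 : ℝ)) := by ring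
      _ = c / 2 * y := by rw [hq4]
  have h4 : ε * y ≤ c / 4 * y := mul_le_mul_of_nonneg_right hε hy0.le
  nlinarith

end Pool.MP_a95293_nt.PQ
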