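import Pool.Agent.Lib_MP_a95293_pq.Bt
import Pool.Agent.Lib_MP_f1a94e_mr.MertensA

/-!
# The smooth part of `l - 1`, on average

`SP z m = ∑_{n ∣ m, minFac n ≤ z} Λ(n)` is the logarithm of the `z`-smooth part of `m`.
`∑_{l ≤ x} SP z (l - 1) ≤ C₁ x / a`, `x = z^(20 a)`: Brun-Titchmarsh for the prime powers `n ≤ z^(10 a)`, trivially for the others.
-/

set_option autoImplicit false

namespace Pool.MP_a95293_nt.PQ

open Finset

/-- logarithm of the `z`-smooth part -/
noncomputable def SP (z m : ℕ) : ℝ := ∑ n ∈ m.divisors.filter fun n => n.minFac ≤ z, ArithmeticFunction.vonMangoldt n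

/-- the primes up to `x` -/
noncomputable def Pr (x : ℕ) : Finset ℕ := (Icc 1 x).filter Nat.Prime

theorem SP_nonneg (z m : ℕ) : 0 ≤ SP z m := sum_nonneg fun _ _ => ArithmeticFunction.vonMangoldt_nonneg

/-- number of `l` -/
private theorem Sm_triv (x n : ℕ) (hn : 0 < n) :
    ((Icc 1 x).filter fun l => l.Prime ∧ n ∣ l - 1).card ≤ x / n := by
  have h : ((Icc 1 x).filter fun l => l.Prime ∧ n ∣ l - 1) ⊆ (Icc 1 (x / n)).image fun t => n * t + 1 := by
    intro l hl
    rw [mem_filter, mem_Icc] at hl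
    obtain ⟨⟨h1, h2⟩, h3, t, ht⟩ := hl
    have := h3.two_le
    rw [mem_image]
    refine ⟨t, mem_Icc.2 ⟨?_, ?_⟩, by omega⟩
    · rcases Nat.eq_zero_or_pos t with h0 | h0
      · rw [h0, mul_zero] at ht
        omega
      · exact h0
    · rw [Nat.le_div_iff_mul_le hn, mul_comm]
      omega
  refine (card_le_card h).trans (card_image_le.trans ?_)
  rw [Nat.card_Icc, Nat.add_sub_cancel]

private theorem Sm_swap (x z : ℕ) : ∑ l ∈ Pr x, SP z (l - 1) =
    ∑ n ∈ (Icc 1 x).filter fun n => n.minFac ≤ z, ArithmeticFunction.vonMangoldt n *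
      (((Icc 1 x).filter fun l => l.Prime ∧ n ∣ l - 1).card : ℝ) := by
  classical
  have h1 : ∀ l ∈ Pr x, SP z (l - 1) =
      ∑ n ∈ (Icc 1 x).filter fun n => n.minFac ≤ z, if n ∣ l - 1 then ArithmeticFunction.vonMangoldt n else 0 := by
    intro l hl
    unfold Pr at hl
    rw [mem_filter, mem_Icc] at hl
    have h2 := hl.2.two_le
    unfold SP
    rw [← sum_filter]
    refine sum_congr ?_ fun _ _ => rfl
    ext n
    rw [mem_filter, mem_filter, mem_filter, mem_Icc, Nat.mem_divisors]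
    constructor
    · rintro ⟨⟨a, b⟩, c⟩
      exact ⟨⟨⟨Nat.pos_of_dvd_of_pos a (by omega), (Nat.le_of_dvd (by omega) a).trans (by omega)⟩, c⟩, a⟩
    · rintro ⟨⟨a, b⟩, c⟩
      exact ⟨⟨c, by omega⟩, b⟩
  rw [sum_congr rfl h1, sum_comm]
  refine sum_congr rfl fun n _ => ?_
  rw [← sum_filter, sum_const, nsmul_eq_mul, mul_comm]
  congr 2
  unfold Pr
  rw [filter_filter]

private theorem Sm_count (z x : ℕ) :
    (((Icc 1 x).filter fun n => n.minFac ≤ z ∧ ArithmeticFunction.vonMangoldt n ≠ 0).card) ≤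
      z * (Nat.log 2 x + 1) := by
  classical
  have h : ((Icc 1 x).filter fun n => n.minFac ≤ z ∧ ArithmeticFunction.vonMangoldt n ≠ 0) ⊆
      ((Icc 1 z) ×ˢ (range (Nat.log 2 x + 1))).image fun t => t.1 ^ t.2 := by
    intro n hn
    rw [mem_filter, mem_Icc] at hn
    obtain ⟨⟨h1, h2⟩, h3, h4⟩ := hn
    rw [ArithmeticFunction.vonMangoldt_ne_zero_iff] at h4
    obtain ⟨p, j, hp, hj, rfl⟩ := (isPrimePow_nat_iff n).1 h4
    rw [hp.pow_minFac hj.ne'] at h3
    rw [mem_image]
    refine ⟨(p, j), mem_product.2 ⟨mem_Icc.2 ⟨hp.one_lt.le, h3⟩, mem_range.2 (Nat.lt_succ_of_le ?_)⟩, rfl⟩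
    refine Nat.le_log_of_pow_le (by norm_num) (le_trans (Nat.pow_le_pow_left hp.two_le j) h2)
  refine (card_le_card h).trans (card_image_le.trans ?_)
  rw [card_product, Nat.card_Icc, card_range, Nat.add_sub_cancel]

/-- **The smooth part on average.** -/
theorem smooth_part : ∃ C₁ : ℝ, 0 < C₁ ∧ ∀ a : ℕ, 1 ≤ a → ∃ z₀ : ℕ, ∀ z ≥ z₀,
    ∑ l ∈ Pr (z ^ (20 * a)), SP z (l - 1) ≤ C₁ * (z : ℝ) ^ (20 * a) / a := by
  classical
  obtain ⟨C, hC, x₀, hx₀, hbt⟩ := bt_pp
  obtain ⟨C2, hC2⟩ := Pool.Agent.GaussMR.mert_one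
  obtain ⟨C3, hC3⟩ := Pool.Agent.GaussMR.mertensA_powers
  refine ⟨C + 1, by positivity, fun a ha => ?_⟩
  refine ⟨max (max x₀ (80 * a ^ 2)) (max 4 ⌈Real.exp (|C2| + |C3|)⌉₊), fun z hz => ?_⟩
  have hz1 : x₀ ≤ z := (le_max_left _ _).trans ((le_max_left _ _).trans hz)
  have hz2 : 80 * a ^ 2 ≤ z := (le_max_right _ _).trans ((le_max_left _ _).trans hz)
  have hz3 : 4 ≤ z := (le_max_left _ _).trans ((le_max_right _ _).trans hz)
  have hz4 : Real.exp (|C2| + |C3|) ≤ z := (Nat.le_ceil _).trans (by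
    exact_mod_cast (le_max_right _ _).trans ((le_max_right _ _).trans hz))
  have hzR : (4 : ℝ) ≤ z := by exact_mod_cast hz3
  have hz0 : (0 : ℝ) < z := by linarith
  have hlz : 0 < Real.log z := Real.log_pos (by linarith)
  have hl2 : |C2| + |C3| ≤ Real.log z := by
    rw [Real.le_log_iff_exp_le hz0]
    exact hz4
  have haR : (1 : ℝ) ≤ a := by exact_mod_cast ha
  set x := z ^ (20 * a) with hx
  have hxR : ((x : ℕ) : ℝ) = (z : ℝ) ^ (20 * a) := by
    rw [hx]
    push_cast
    rfl
  have hxx : x = z ^ (10 * a) * z ^ (10 * a) := by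
    rw [hx, ← pow_add]
    congr 1
    omega
  have hxz : z ≤ x := by
    rw [hx]
    exact Nat.le_self_pow (by omega) z
  have hx0 : x₀ ≤ x := hz1.trans hxz
  have hxpos : (0 : ℝ) < x := by
    rw [hxR]
    positivity
  have hlx : Real.log x = 20 * a * Real.log z := by
    rw [hxR, Real.log_pow]
    push_cast
    ring
  rw [Sm_swap]
  -- split at `z ^ (10 a)`
  have hsplit : ∀ n ∈ (Icc 1 x).filter (fun n => n.minFac ≤ z),
      ArithmeticFunction.vonMangoldt n * (((Icc 1 x).filter fun l => l.Prime ∧ n ∣ l - 1).card : ℝ) ≤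
        C * x / Real.log x * (ArithmeticFunction.vonMangoldt n / n) +
        (if ArithmeticFunction.vonMangoldt n ≠ 0 then (z : ℝ) * (z : ℝ) ^ (10 * a) else 0) := by
    intro n hn
    rw [mem_filter, mem_Icc] at hn
    obtain ⟨⟨hn1, hnx⟩, hnz⟩ := hn
    have hnR : (0 : ℝ) < n := by exact_mod_cast hn1
    have hlx0 : 0 < Real.log x := by
      rw [hlx]
      positivity
    by_cases h0 : ArithmeticFunction.vonMangoldt n = 0
    · rw [h0]
      simp
    have hpp := ArithmeticFunction.vonMangoldt_ne_zero_iff.1 h0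
    have hΛ := ArithmeticFunction.vonMangoldt_nonneg (n := n)
    rw [if_pos h0]
    by_cases h1 : n ^ 2 ≤ x
    · have h2 := hbt x hx0 n hpp h1
      have h3 : ArithmeticFunction.vonMangoldt n * (C * x / (n * Real.log x)) =
          C * x / Real.log x * (ArithmeticFunction.vonMangoldt n / n) := by
        field_simp
      have h4 := mul_le_mul_of_nonneg_left h2 hΛ
      rw [h3] at h4
      have h5 : (0 : ℝ) ≤ (z : ℝ) * (z : ℝ) ^ (10 * a) := by positivity
      linarith
    · have h2 : z ^ (10 * a) < n := by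
        by_contra hcon
        push Not at hcon
        apply h1
        rw [hxx, pow_two]
        exact Nat.mul_le_mul hcon hcon
      have h3 : ((Icc 1 x).filter fun l => l.Prime ∧ n ∣ l - 1).card ≤ z ^ (10 * a) := by
        refine (Sm_triv x n hn1).trans ?_
        apply Nat.div_le_of_le_mul
        rw [hxx]
        exact Nat.mul_le_mul_right _ h2.le
      have h4 : ArithmeticFunction.vonMangoldt n ≤ z := by
        obtain ⟨p, j, hp, hj, rfl⟩ := (isPrimePow_nat_iff n).1 hpp
        rw [hp.pow_minFac hj.ne'] at hnz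
        rw [ArithmeticFunction.vonMangoldt_apply_pow hj.ne', ArithmeticFunction.vonMangoldt_apply_prime hp]
        have h5 : (p : ℝ) ≤ z := by exact_mod_cast hnz
        have h6 : Real.log p ≤ p := Real.log_le_self (Nat.cast_nonneg p)
        linarith
      have h5 : ArithmeticFunction.vonMangoldt n *
          (((Icc 1 x).filter fun l => l.Prime ∧ n ∣ l - 1).card : ℝ) ≤ z * (z : ℝ) ^ (10 * a) := by
        refine mul_le_mul h4 ?_ (Nat.cast_nonneg _) hz0.le
        exact_mod_cast h3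
      have h6 : 0 ≤ C * x / Real.log x * (ArithmeticFunction.vonMangoldt n / n) := by positivity
      linarith
  refine (sum_le_sum hsplit).trans ?_
  rw [sum_add_distrib, ← mul_sum, ← sum_filter, sum_const, nsmul_eq_mul]
  -- first part
  have hA : ∑ n ∈ (Icc 1 x).filter (fun n => n.minFac ≤ z), ArithmeticFunction.vonMangoldt n / (n : ℝ) ≤
      2 * Real.log z := by
    have h1 : ∑ n ∈ (Icc 1 x).filter (fun n => n.minFac ≤ z), ArithmeticFunction.vonMangoldt n / (n : ℝ) ≤
        ∑ n ∈ Icc 1 z, ArithmeticFunction.vonMangoldt n / (n : ℝ) +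
        ∑ n ∈ Icc 1 x, (if n.Prime then 0 else ArithmeticFunction.vonMangoldt n) / (n : ℝ) := by
      rw [← sum_filter_add_sum_filter_not ((Icc 1 x).filter fun n => n.minFac ≤ z) (fun n => n ≤ z)]
      refine add_le_add ?_ ?_
      · refine sum_le_sum_of_subset_of_nonneg ?_ fun n _ _ =>
          div_nonneg ArithmeticFunction.vonMangoldt_nonneg n.cast_nonneg
        intro n hn
        rw [mem_filter, mem_filter, mem_Icc] at hn
        exact mem_Icc.2 ⟨hn.1.1.1, hn.2⟩
      · refine le_trans (le_of_eq (sum_congr rfl (g := fun n : ℕ =>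
          (if n.Prime then 0 else ArithmeticFunction.vonMangoldt n) / (n : ℝ)) fun n hn => ?_))
          (sum_le_sum_of_subset_of_nonneg ?_ fun n _ _ => ?_)
        · rw [mem_filter, mem_filter, mem_Icc] at hn
          rw [if_neg]
          intro hp
          rw [hp.minFac_eq] at hn
          exact hn.2 hn.1.2
        · exact (filter_subset _ _).trans (filter_subset _ _)
        · split_ifs
          · simp
          · exact div_nonneg ArithmeticFunction.vonMangoldt_nonneg n.cast_nonneg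
    have h2 := hC2 z (by omega)
    have h3 := hC3 x
    have h4 := (abs_le.1 h2).2
    have h5 := le_abs_self C2
    have h6 := le_abs_self C3
    linarith
  have hA2 : C * x / Real.log x * ∑ n ∈ (Icc 1 x).filter (fun n => n.minFac ≤ z),
      ArithmeticFunction.vonMangoldt n / (n : ℝ) ≤ C * (z : ℝ) ^ (20 * a) / a := by
    refine (mul_le_mul_of_nonneg_left hA ?_).trans ?_
    · rw [hlx]
      positivity
    · rw [hlx, hxR]
      have e1 : C * (z : ℝ) ^ (20 * a) / (20 * a * Real.log z) * (2 * Real.log z) =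
          1 / 10 * (C * (z : ℝ) ^ (20 * a) / a) := by
        field_simp
        norm_num
      rw [e1]
      have e2 : 0 ≤ C * (z : ℝ) ^ (20 * a) / a := by positivity
      linarith
  -- second part
  have hB : (((((Icc 1 x).filter fun n => n.minFac ≤ z).filter
      fun n => ArithmeticFunction.vonMangoldt n ≠ 0).card : ℕ) : ℝ) * (z * (z : ℝ) ^ (10 * a)) ≤
      (z : ℝ) ^ (20 * a) / a := by
    rw [filter_filter]
    have h1 := Sm_count z x
    have h2 : Nat.log 2 x ≤ 20 * a * z := by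
      have h3 : x < 2 ^ (20 * a * z + 1) := by
        rw [hx]
        have h4 : z < 2 ^ z := Nat.lt_two_pow_self
        calc z ^ (20 * a) ≤ (2 ^ z) ^ (20 * a) := Nat.pow_le_pow_left h4.le _
          _ = 2 ^ (20 * a * z) := by rw [← pow_mul, mul_comm]
          _ < 2 ^ (20 * a * z + 1) := Nat.pow_lt_pow_right (by norm_num) (Nat.lt_succ_self _)
      exact Nat.lt_succ_iff.1 (Nat.log_lt_of_lt_pow (by
        have : 0 < x := by omega
        exact this.ne') h3)
    have h5 : z * (Nat.log 2 x + 1) ≤ 40 * a * z ^ 2 := by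
      have : Nat.log 2 x + 1 ≤ 40 * a * z := by nlinarith
      calc z * (Nat.log 2 x + 1) ≤ z * (40 * a * z) := Nat.mul_le_mul_left _ this
        _ = _ := by ring
    have h6 : ((((Icc 1 x).filter fun n => n.minFac ≤ z ∧ ArithmeticFunction.vonMangoldt n ≠ 0).card : ℕ) : ℝ) ≤
        40 * a * (z : ℝ) ^ 2 := by exact_mod_cast h1.trans h5
    rw [le_div_iff₀ (by linarith)]
    have h7 : (40 * (a : ℝ) ^ 2) ≤ z := by
      have : 40 * a ^ 2 ≤ z := by nlinarith
      exact_mod_cast this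
    calc _ ≤ 40 * a * (z : ℝ) ^ 2 * (z * (z : ℝ) ^ (10 * a)) * a := by
          gcongr
      _ = (40 * (a : ℝ) ^ 2) * ((z : ℝ) ^ 3 * (z : ℝ) ^ (10 * a)) := by ring
      _ ≤ z * ((z : ℝ) ^ 3 * (z : ℝ) ^ (10 * a)) := mul_le_mul_of_nonneg_right h7 (by positivity)
      _ = (z : ℝ) ^ (10 * a + 4) := by ring
      _ ≤ (z : ℝ) ^ (20 * a) := pow_le_pow_right₀ (by linarith) (by omega)
  have e3 : (C + 1) * (z : ℝ) ^ (20 * a) / a = C * (z : ℝ) ^ (20 * a) / a + (z : ℝ) ^ (20 * a) / a := by ring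
  rw [e3]
  exact add_le_add hA2 hB

end Pool.MP_a95293_nt.PQ
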