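import Pool.Agent.Lib_MP_a95293_pq.Per

/-!
# Piece PQ-THR: the number of radicals
-/

set_option autoImplicit false

namespace Pool.MP_a95293_nt.PQ

open Finset

/-- the exponents are small -/
theorem v_le {n : ℕ} {x : Fin n → ℤ} (hx0 : ∀ i, x i ≠ 0) {T : ℝ}
    (hx : ∀ i, |(x i : ℝ)| ≤ Real.exp (Real.exp T)) {p : ℕ} (hp : p.Prime) {k : ℕ} (hk : 2 * ⌈T⌉₊ + n + 2 ≤ k) :
    (∏ i, x i).natAbs.factorization p ≤ 2 ^ k := by
  set v := (∏ i, x i).natAbs.factorization p with hv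
  have hP0 : (∏ i, x i).natAbs ≠ 0 := Int.natAbs_ne_zero.2 (prod_ne_zero_iff.2 fun i _ => hx0 i)
  have h1 : 2 ^ v ≤ (∏ i, x i).natAbs :=
    (Nat.pow_le_pow_left hp.two_le v).trans (Nat.ordProj_le p hP0)
  have h2 : (((∏ i, x i).natAbs : ℕ) : ℝ) ≤ Real.exp (n * Real.exp T) := by
    rw [Nat.cast_natAbs, Int.cast_abs, Int.cast_prod, abs_prod]
    calc ∏ i, |(x i : ℝ)| ≤ ∏ _i : Fin n, Real.exp (Real.exp T) :=
          prod_le_prod (fun i _ => abs_nonneg _) fun i _ => hx i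
      _ = Real.exp (n * Real.exp T) := by
          rw [prod_const, card_univ, Fintype.card_fin, ← Real.exp_nat_mul]
  have h3 : (v : ℝ) * Real.log 2 ≤ n * Real.exp T := by
    have h4 : ((2 : ℝ) ^ v) ≤ Real.exp (n * Real.exp T) := by
      refine le_trans ?_ h2
      exact_mod_cast h1
    have h5 := Real.log_le_log (by positivity) h4
    rwa [Real.log_pow, Real.log_exp] at h5
  have hl2 := Real.log_two_gt_d9
  have h4 : (n : ℝ) ≤ 2 ^ n := by exact_mod_cast (Nat.lt_two_pow_self (n := n)).le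
  have h5 : Real.exp T ≤ 2 ^ (2 * ⌈T⌉₊) := by
    calc Real.exp T ≤ Real.exp ((2 * ⌈T⌉₊ : ℕ) * Real.log 2) := by
          apply Real.exp_le_exp.2
          have := Nat.le_ceil T
          push_cast
          nlinarith
      _ = 2 ^ (2 * ⌈T⌉₊) := by
          rw [← Real.rpow_natCast, Real.rpow_def_of_pos (by norm_num), mul_comm]
  have h6 : (v : ℝ) ≤ (2 : ℝ) ^ k := by
    have h7 : (v : ℝ) ≤ 2 * (n * Real.exp T) := by
      have : (0 : ℝ) ≤ v := Nat.cast_nonneg _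
      nlinarith
    calc (v : ℝ) ≤ 2 * (n * Real.exp T) := h7
      _ ≤ 2 * (2 ^ n * 2 ^ (2 * ⌈T⌉₊)) := by
          apply mul_le_mul_of_nonneg_left _ (by norm_num)
          exact mul_le_mul h4 h5 (Real.exp_pos _).le (by positivity)
      _ = 2 ^ (2 * ⌈T⌉₊ + n + 1) := by ring
      _ ≤ 2 ^ k := pow_le_pow_right₀ (by norm_num) (by omega)
  exact_mod_cast h6

/-- the choice of the parameters -/
private theorem ThR_asy (n B E z₀ : ℕ) {κ : ℝ} (hκ : 0 < κ) : ∃ c : ℝ, 0 < c ∧ ∀ᶠ y : ℝ in Filter.atTop,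
    1 ≤ y ∧ z₀ ≤ ⌈y ^ (2 * B + 2)⌉₊ ∧ (2 * ⌈y ^ B⌉₊ + n + 2) ^ 2 ≤ ⌈y ^ (2 * B + 2)⌉₊ ∧
    4 * y + 1 ≤ (⌈y ^ (2 * B + 2)⌉₊ : ℝ) ∧
    ∀ s : ℕ, (s : ℝ) * Real.log y ≤ c * y → ((⌈y ^ (2 * B + 2)⌉₊ : ℕ) : ℝ) ^ (E * (s + 3)) ≤ Real.exp (κ * y) := by
  set F : ℝ := (2 * B + 3) * E + 1 with hF
  have hF0 : 0 < F := by positivity
  refine ⟨κ / (2 * F), by positivity, ?_⟩
  have e1 : ∀ᶠ y : ℝ in Filter.atTop, Real.log y ≤ κ / (6 * F) * y := by
    have h := Real.isLittleO_log_id_atTop.bound (show (0 : ℝ) < κ / (6 * F) by positivity)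
    filter_upwards [h, Filter.eventually_ge_atTop (1 : ℝ)] with y h1 h2
    rw [id, Real.norm_of_nonneg (Real.log_nonneg h2), Real.norm_of_nonneg (by linarith)] at h1
    exact h1
  filter_upwards [e1, Filter.eventually_ge_atTop ((z₀ : ℝ) + n + 6)] with y hy1 hy2
  have hn0 : (0 : ℝ) ≤ n := Nat.cast_nonneg n
  have hz0 : (0 : ℝ) ≤ z₀ := Nat.cast_nonneg z₀
  have hy6 : 6 ≤ y := by linarith
  have hyB : (1 : ℝ) ≤ y ^ B := one_le_pow₀ (by linarith)
  have hlog : 0 < Real.log y := Real.log_pos (by linarith)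
  set z := ⌈y ^ (2 * B + 2)⌉₊ with hz
  have hz1 : y ^ (2 * B + 2) ≤ z := Nat.le_ceil _
  have hz2 : (z : ℝ) ≤ y ^ (2 * B + 3) := by
    have h1 := Nat.ceil_lt_add_one (show 0 ≤ y ^ (2 * B + 2) by positivity)
    have h2 : (1 : ℝ) ≤ y ^ (2 * B + 2) := one_le_pow₀ (by linarith)
    rw [← hz] at h1
    calc (z : ℝ) ≤ y ^ (2 * B + 2) + 1 := h1.le
      _ ≤ y ^ (2 * B + 2) * y := by nlinarith
      _ = y ^ (2 * B + 3) := by rw [← pow_succ]
  have hy2' : y ^ 2 ≤ y ^ (2 * B + 2) := pow_le_pow_right₀ (by linarith) (by omega)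
  refine ⟨by linarith, ?_, ?_, ?_, ?_⟩
  · have : (z₀ : ℝ) ≤ z := by nlinarith
    exact_mod_cast this
  · have h1 : ((2 * ⌈y ^ B⌉₊ + n + 2 : ℕ) : ℝ) ≤ y ^ (B + 1) := by
      have h2 := Nat.ceil_lt_add_one (show 0 ≤ y ^ B by positivity)
      push_cast
      rw [pow_succ]
      nlinarith
    have h2 : (((2 * ⌈y ^ B⌉₊ + n + 2) ^ 2 : ℕ) : ℝ) ≤ z := by
      push_cast
      push_cast at h1
      calc (2 * (⌈y ^ B⌉₊ : ℝ) + n + 2) ^ 2 ≤ (y ^ (B + 1)) ^ 2 := pow_le_pow_left₀ (by positivity) h1 2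
        _ = y ^ (2 * B + 2) := by rw [← pow_mul]; congr 1; ring
        _ ≤ z := hz1
    exact_mod_cast h2
  · nlinarith
  · intro s hs
    have h1 : Real.log z ≤ (2 * B + 3) * Real.log y := by
      have h2 := Real.log_le_log (by nlinarith) hz2
      rw [Real.log_pow] at h2
      push_cast at h2
      exact h2
    have hzpos : (0 : ℝ) < z := by nlinarith
    rw [← Real.log_le_iff_le_exp (by positivity), Real.log_pow]
    have h2 : ((E * (s + 3) : ℕ) : ℝ) * Real.log z ≤ ((E * (s + 3) : ℕ) : ℝ) * ((2 * B + 3) * Real.log y) :=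
      mul_le_mul_of_nonneg_left h1 (Nat.cast_nonneg _)
    refine h2.trans ?_
    push_cast
    have h3 : (E : ℝ) * (s + 3) * ((2 * B + 3) * Real.log y) ≤ F * ((s + 3) * Real.log y) := by
      have e2 : (0 : ℝ) ≤ (s + 3) * Real.log y := by positivity
      rw [hF]
      nlinarith
    refine h3.trans ?_
    have h4 : F * ((s + 3) * Real.log y) = F * (s * Real.log y) + 3 * (F * Real.log y) := by ring
    have h5 : F * (s * Real.log y) ≤ κ / 2 * y := by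
      calc F * (s * Real.log y) ≤ F * (κ / (2 * F) * y) := mul_le_mul_of_nonneg_left hs hF0.le
        _ = κ / 2 * y := by field_simp
    have h6 : 3 * (F * Real.log y) ≤ κ / 2 * y := by
      calc 3 * (F * Real.log y) ≤ 3 * (F * (κ / (6 * F) * y)) :=
            mul_le_mul_of_nonneg_left (mul_le_mul_of_nonneg_left hy1 hF0.le) (by norm_num)
        _ = κ / 2 * y := by field_simp; ring
    rw [h4]
    linarith

/-- **Few radicals.** -/
theorem thR (n B : ℕ) {κ : ℝ} (hκ : 0 < κ) : ∃ c : ℝ, 0 < c ∧ ∃ X₀ : ℕ, ∀ X ≥ X₀, ∀ (V : ℕ) (Rs : Finset ℕ),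
    (∀ R ∈ Rs, R ≤ X ∧ ∃ m p : ℕ, R = m * p ∧ p.Prime ∧ 1 ≤ m ∧ m ≤ V ∧ p ∉ m.primeFactors ∧
      (m.primeFactors.card : ℝ) * Real.log (Real.log X) ≤ c * Real.log X ∧
      ∃ x : Fin n → ℤ, Val m.primeFactors p x ∧ ∀ i, |(x i : ℝ)| ≤ Real.exp (Real.exp (Real.log X ^ B))) →
    (Rs.card : ℝ) ≤ V * (X : ℝ) ^ κ := by
  classical
  obtain ⟨K, hK, hper⟩ := per n
  obtain ⟨j, hj1, hj2⟩ : ∃ j : ℕ, K ≤ j ∧ (K : ℝ) / j ≤ κ / 2 := by
    refine ⟨max K ⌈2 * K / κ⌉₊, le_max_left _ _, ?_⟩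
    have h1 : (2 * K / κ : ℝ) ≤ (max K ⌈2 * K / κ⌉₊ : ℕ) :=
      (Nat.le_ceil _).trans (by exact_mod_cast le_max_right _ _)
    have h2 : (0 : ℝ) < (max K ⌈2 * K / κ⌉₊ : ℕ) := by
      have : 0 < max K ⌈2 * K / κ⌉₊ := lt_of_lt_of_le hK (le_max_left _ _)
      exact_mod_cast this
    rw [div_le_iff₀ h2]
    rw [div_le_iff₀ hκ] at h1
    linarith
  obtain ⟨z₀, hz₀⟩ := hper j hj1
  obtain ⟨c, hc, hev⟩ := ThR_asy n B (40 * j ^ 2) z₀ (show 0 < κ / 2 by positivity)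
  have htend : Filter.Tendsto (fun X : ℕ => Real.log X) Filter.atTop Filter.atTop :=
    Real.tendsto_log_atTop.comp tendsto_natCast_atTop_atTop
  obtain ⟨X₁, hX₁⟩ := Filter.eventually_atTop.1 (htend.eventually hev)
  refine ⟨c, hc, max X₁ 1, fun X hX V Rs hRs => ?_⟩
  obtain ⟨g1, g2, g3, g4, g5⟩ := hX₁ X ((le_max_left _ _).trans hX)
  have hX1 : 1 ≤ X := (le_max_right _ _).trans hX
  set y := Real.log X with hy
  set z := ⌈y ^ (2 * B + 2)⌉₊ with hz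
  have hXR : (1 : ℝ) ≤ X := by exact_mod_cast hX1
  have hX0 : (0 : ℝ) < X := by linarith
  have hyX : Real.exp y = X := Real.exp_log hX0
  have hlog2 : (Nat.log 2 X : ℝ) ≤ 2 * y := by
    have h1 : ((2 : ℝ) ^ Nat.log 2 X) ≤ X := by exact_mod_cast Nat.pow_log_le_self 2 (by omega)
    have h2 := Real.log_le_log (by positivity) h1
    rw [Real.log_pow] at h2
    have h3 := Real.log_two_gt_d9
    have h4 : (0 : ℝ) ≤ Nat.log 2 X := Nat.cast_nonneg _
    nlinarith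
  -- the primes for one m
  set good : ℕ → ℕ → Prop := fun m p => p.Prime ∧ p ≤ X ∧ p ∉ m.primeFactors ∧
    ∃ x : Fin n → ℤ, Val m.primeFactors p x ∧ (∏ i, x i).natAbs.factorization p ≤ 2 ^ (2 * ⌈y ^ B⌉₊ + n + 2) with hgood
  set Ms := (Icc 1 (min V X)).filter fun m => (m.primeFactors.card : ℝ) * Real.log y ≤ c * y with hMs
  have hcover : Rs ⊆ Ms.biUnion fun m => ((Icc 1 X).filter fun p => good m p).image fun p => m * p := by
    intro R hR
    obtain ⟨hRX, m, p, rfl, hp, hm1, hmV, hpm, hmc, x, hx, hxh⟩ := hRs R hR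
    have hpX : p ≤ X := (Nat.le_mul_of_pos_left p hm1).trans hRX
    have hmX : m ≤ X := (Nat.le_mul_of_pos_right m hp.pos).trans hRX
    rw [mem_biUnion]
    refine ⟨m, mem_filter.2 ⟨mem_Icc.2 ⟨hm1, le_min hmV hmX⟩, hmc⟩, mem_image.2 ⟨p, mem_filter.2
      ⟨mem_Icc.2 ⟨hp.one_lt.le, hpX⟩, hp, hpX, hpm, x, hx, ?_⟩, rfl⟩⟩
    exact v_le hx.1 hxh hp (le_refl _)
  have hone : ∀ m ∈ Ms, ((((Icc 1 X).filter fun p => good m p).card : ℕ) : ℝ) ≤ (X : ℝ) ^ κ := by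
    intro m hm
    rw [hMs, mem_filter, mem_Icc] at hm
    obtain ⟨⟨hm1, hmX⟩, hmc⟩ := hm
    have hmX' : m ≤ X := hmX.trans (min_le_right _ _)
    have hS : m.primeFactors.card ≤ Nat.log 2 X := by
      have h1 : 2 ^ m.primeFactors.card ≤ ∏ p ∈ m.primeFactors, p :=
        Finset.pow_card_le_prod _ _ _ fun p hp => (Nat.prime_of_mem_primeFactors hp).two_le
      have h2 := Nat.le_of_dvd hm1 (Nat.prod_primeFactors_dvd m)
      exact Nat.le_log_of_pow_le (by norm_num) ((h1.trans h2).trans hmX')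
    have h1 := hz₀ z g2 (2 * ⌈y ^ B⌉₊ + n + 2) g3 m.primeFactors (fun q hq => Nat.prime_of_mem_primeFactors hq) X hX1
      (by
        have h2 : ((m.primeFactors.card + Nat.log 2 X + 1 : ℕ) : ℝ) ≤ z := by
          push_cast
          have h3 : (m.primeFactors.card : ℝ) ≤ Nat.log 2 X := by exact_mod_cast hS
          linarith
        exact_mod_cast h2)
      ((Icc 1 X).filter fun p => good m p) (fun p hp => (mem_filter.1 hp).2)
    refine h1.trans ?_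
    have h2 := g5 m.primeFactors.card hmc
    have h3 : (X : ℝ) ^ ((K : ℝ) / j) ≤ (X : ℝ) ^ (κ / 2) := Real.rpow_le_rpow_of_exponent_le hXR hj2
    have h4 : Real.exp (κ / 2 * y) = (X : ℝ) ^ (κ / 2) := by
      rw [Real.rpow_def_of_pos hX0, mul_comm]
    rw [h4] at h2
    calc _ ≤ (X : ℝ) ^ (κ / 2) * (X : ℝ) ^ (κ / 2) := mul_le_mul h2 h3 (by positivity) (by positivity)
      _ = (X : ℝ) ^ κ := by
          rw [← Real.rpow_add hX0]
          congr 1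
          ring
  have hMc : (Ms.card : ℝ) ≤ V := by
    have h1 : Ms.card ≤ V := by
      refine (card_filter_le _ _).trans ?_
      rw [Nat.card_Icc, Nat.add_sub_cancel]
      exact min_le_left _ _
    exact_mod_cast h1
  calc (Rs.card : ℝ) ≤ ∑ m ∈ Ms, ((((Icc 1 X).filter fun p => good m p).card : ℕ) : ℝ) := by
        exact_mod_cast (card_le_card hcover).trans (card_biUnion_le.trans (sum_le_sum fun m _ => card_image_le))
    _ ≤ ∑ m ∈ Ms, (X : ℝ) ^ κ := sum_le_sum hone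
    _ = Ms.card * (X : ℝ) ^ κ := by rw [sum_const, nsmul_eq_mul]
    _ ≤ V * (X : ℝ) ^ κ := mul_le_mul_of_nonneg_right hMc (by positivity)

end Pool.MP_a95293_nt.PQ
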