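import Pool.Agent.Lib_MP_a95293_pq.Cnt3

/-!
# Theorem Q
-/

set_option autoImplicit false

namespace Pool.MP_a95293_nt.PQ

open Finset Pool.MP_a95293_nt.RC

/-- the triples -/
def Tri (B X : ℕ) : Set (Fin 3 → ℤ) :=
  {x | Adm x ∧ radZ (∏ j, x j) ≤ X ∧ (TP.ht3 x : ℝ) ≤ Real.exp (Real.exp (Real.log X ^ B))}

theorem tri_finite (B X : ℕ) : (Tri B X).Finite := (adm_finite X).subset fun _ hx => ⟨hx.1, hx.2.1⟩

/-- **Theorem Q.** -/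
theorem top (B : ℕ) {η : ℝ} (hη : 0 < η) : ∃ δ ε : ℝ, 0 < δ ∧ 0 < ε ∧ ∃ X₀ : ℕ, ∀ X : ℕ, X₀ ≤ X →
    (Tri B X).Finite ∧ ((Tri B X).ncard : ℝ) ≤ (X : ℝ) ^ (1 - δ) ∧
    (({x | x ∈ Tri B X ∧ Shape ((X : ℝ) ^ ε) x} : Set (Fin 3 → ℤ)).ncard : ℝ) ≤ (X : ℝ) ^ (2 / 3 + η) := by
  classical
  obtain ⟨ε, hε, -, X₁, hX₁⟩ := shape3 B hη
  obtain ⟨δ, hδ, X₂, hX₂⟩ := total3 B
  refine ⟨δ, ε, hδ, hε, max X₁ X₂, fun X hX => ⟨tri_finite B X, ?_, ?_⟩⟩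
  · rw [Set.ncard_eq_toFinset_card _ (tri_finite B X)]
    apply hX₂ X ((le_max_right _ _).trans hX)
    intro x hx
    rw [Set.Finite.mem_toFinset] at hx
    exact hx
  · have hfin : ({x | x ∈ Tri B X ∧ Shape ((X : ℝ) ^ ε) x} : Set (Fin 3 → ℤ)).Finite :=
      (tri_finite B X).subset fun _ hx => hx.1
    rw [Set.ncard_eq_toFinset_card _ hfin]
    apply hX₁ X ((le_max_left _ _).trans hX)
    intro x hx
    rw [Set.Finite.mem_toFinset] at hx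
    exact ⟨hx.1.1, hx.1.2.1, hx.1.2.2, hx.2⟩

end Pool.MP_a95293_nt.PQ
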